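import Mathlib
import Pool.Agent.H338R2.Basic

set_option autoImplicit false

open Polynomial

namespace Pool.Agent.H338R2

lemma dvd_of_root {f w : ℤ[X]} (hf : f.Monic) (hirr : Irreducible f) {z : ℂ}
    (hz : (f.map (Int.castRingHom ℂ)).eval z = 0) (hw : (w.map (Int.castRingHom ℂ)).eval z = 0) :
    f ∣ w := by
  have hirrQ : Irreducible (f.map (algebraMap ℤ ℚ)) :=
    (Polynomial.Monic.irreducible_iff_irreducible_map_fraction_map hf).1 hirr
  have key : ∀ u : ℤ[X], aeval z (u.map (algebraMap ℤ ℚ)) = (u.map (Int.castRingHom ℂ)).eval z := by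
    intro u
    rw [Polynomial.aeval_map_algebraMap, Polynomial.aeval_def, Polynomial.eval_map]
    rfl
  have h1 : f.map (algebraMap ℤ ℚ) = minpoly ℚ z :=
    minpoly.eq_of_irreducible_of_monic hirrQ (by rw [key, hz]) (hf.map _)
  have h2 : f.map (algebraMap ℤ ℚ) ∣ w.map (algebraMap ℤ ℚ) := by
    rw [h1]; exact minpoly.dvd ℚ z (by rw [key, hw])
  exact (Polynomial.map_dvd_map (algebraMap ℤ ℚ) (RingHom.injective_int _) hf).1 h2

lemma res_ne_zero {f w : ℤ[X]} (hf : f.Monic) (hirr : Irreducible f) (hw : ¬ f ∣ w) (n : ℕ)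
    (hn : w.natDegree ≤ n) : resultant f w f.natDegree n ≠ 0 := by
  intro h0
  have h1 := res_eq hf w n hn
  rw [h0, Int.cast_zero, eq_comm, Multiset.prod_eq_zero_iff, Multiset.mem_map] at h1
  obtain ⟨z, hz, hz2⟩ := h1
  rw [Polynomial.mem_roots'] at hz
  exact hw (dvd_of_root hf hirr hz.2 hz2)

lemma one_le_res {f w : ℤ[X]} (hf : f.Monic) (hirr : Irreducible f) (hw : ¬ f ∣ w) (n : ℕ)
    (hn : w.natDegree ≤ n) : (1 : ℝ) ≤ |((resultant f w f.natDegree n : ℤ) : ℝ)| := by
  have h1 := Int.one_le_abs (res_ne_zero hf hirr hw n hn)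
  have h2 : ((1 : ℤ) : ℝ) ≤ ((|resultant f w f.natDegree n| : ℤ) : ℝ) := Int.cast_le.mpr h1
  rw [Int.cast_abs] at h2
  simpa using h2

/-- if `w = f * h + C q * v` and `f` does not divide `w` then the resultant is at least `q ^ deg f` -/
lemma res_lower_of_eq {f w h v : ℤ[X]} (hf : f.Monic) (hirr : Irreducible f) (hw : ¬ f ∣ w) (q : ℕ)
    (hq : w = f * h + C (q : ℤ) * v) (n : ℕ) (hn : w.natDegree ≤ n) :
    (q : ℝ) ^ f.natDegree ≤ |((resultant f w f.natDegree n : ℤ) : ℝ)| := by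
  have hv : ¬ f ∣ v := by
    intro hdvd
    apply hw
    rw [hq]
    exact dvd_add (dvd_mul_right _ _) (hdvd.mul_left _)
  have e1 : ((resultant f w f.natDegree n : ℤ) : ℂ) =
      (q : ℂ) ^ f.natDegree * ((resultant f v f.natDegree v.natDegree : ℤ) : ℂ) := by
    rw [res_eq hf w n hn, res_eq hf v _ le_rfl]
    have h2 : ((f.map (Int.castRingHom ℂ)).roots.map
        (fun z => (w.map (Int.castRingHom ℂ)).eval z)) =
        ((f.map (Int.castRingHom ℂ)).roots.map
        (fun z => (q : ℂ) * (v.map (Int.castRingHom ℂ)).eval z)) := by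
      apply Multiset.map_congr rfl
      intro z hz
      rw [Polynomial.mem_roots'] at hz
      have hz0 : (f.map (Int.castRingHom ℂ)).eval z = 0 := hz.2
      rw [hq]
      simp [hz0]
    rw [h2, Multiset.prod_map_mul, Multiset.map_const', Multiset.prod_replicate, card_roots]
  have h3 : ‖((resultant f w f.natDegree n : ℤ) : ℂ)‖ =
      (q : ℝ) ^ f.natDegree * ‖((resultant f v f.natDegree v.natDegree : ℤ) : ℂ)‖ := by
    rw [e1, norm_mul, norm_pow, Complex.norm_natCast]
  rw [Complex.norm_intCast, Complex.norm_intCast] at h3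
  rw [h3]
  have h4 := one_le_res hf hirr hv _ le_rfl
  have h5 : (0 : ℝ) ≤ (q : ℝ) ^ f.natDegree := by positivity
  nlinarith

end Pool.Agent.H338R2
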