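import Mathlib
import Pool.Agent.H338R2.Nonvan

set_option autoImplicit false

open Polynomial

namespace Pool.Agent.H338R2

lemma C_dvd_of_map_eq_zero (p : ℕ) [Fact p.Prime] (w : ℤ[X])
    (h : w.map (Int.castRingHom (ZMod p)) = 0) : ∃ v : ℤ[X], w = C (p : ℤ) * v := by
  have : C (p : ℤ) ∣ w := by
    rw [Polynomial.C_dvd_iff_dvd_coeff]
    intro i
    have h1 := congrArg (fun u => Polynomial.coeff u i) h
    simp only [Polynomial.coeff_map, Polynomial.coeff_zero, eq_intCast] at h1
    exact (ZMod.intCast_zmod_eq_zero_iff_dvd _ _).1 h1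
  exact this

lemma expand_eq_pow_add (q : ℕ) [Fact q.Prime] (G : ℤ[X]) :
    ∃ v : ℤ[X], expand ℤ q G = G ^ q + C (q : ℤ) * v := by
  obtain ⟨v, hv⟩ := C_dvd_of_map_eq_zero q (expand ℤ q G - G ^ q) (by
    rw [Polynomial.map_sub, Polynomial.map_pow, Polynomial.map_expand, ZMod.expand_card, sub_self])
  exact ⟨v, by rw [← hv]; ring⟩

lemma len_expand (n : ℕ) (hn : 0 < n) (G : ℤ[X]) : len (expand ℤ n G) = len G := by
  unfold len
  symm
  apply Finset.sum_nbij' (fun i => i * n) (fun i => i / n)
  · intro i hi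
    rw [Polynomial.mem_support_iff, Polynomial.coeff_expand_mul hn]
    simpa using hi
  · intro i hi
    rw [Polynomial.mem_support_iff, Polynomial.coeff_expand hn] at hi
    split_ifs at hi with h
    · simpa using hi
    · simp at hi
  · intro i _
    exact Nat.mul_div_cancel i hn
  · intro i hi
    rw [Polynomial.mem_support_iff, Polynomial.coeff_expand hn] at hi
    split_ifs at hi with h
    · exact Nat.div_mul_cancel h
    · simp at hi
  · intro i _
    rw [Polynomial.coeff_expand_mul hn]

lemma one_le_MZ {f : ℤ[X]} (hf : f.Monic) : 1 ≤ MZ f := by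
  rw [MZ_monic hf]
  exact one_le_prod_max_one_norm_roots _

/-- Frobenius propagation along integers all of whose prime factors are large -/
lemma dvd_expand {f G : ℤ[X]} (hf : f.Monic) (hirr : Irreducible f) (hdvd : f ∣ G)
    (L : ℕ) (hL1 : 1 ≤ L) (hL : len G ≤ (L : ℤ)) (nmax : ℕ)
    (hM : (MZ f) ^ (G.natDegree * nmax) < 2 ^ f.natDegree) :
    ∀ n : ℕ, 0 < n → n ≤ nmax → (∀ q : ℕ, q.Prime → q ∣ n → 2 * L ≤ q) → f ∣ expand ℤ n G := by
  intro n
  induction n using Nat.strong_induction_on with
  | _ n ih =>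
    intro hn hnm hq
    rcases Nat.lt_or_ge 1 n with h1 | h1
    swap
    · have : n = 1 := by omega
      subst this
      simpa using hdvd
    have hpr := Nat.minFac_prime (show n ≠ 1 by omega)
    set q := n.minFac with hqdef
    have : Fact q.Prime := ⟨hpr⟩
    obtain ⟨n', hn'⟩ : q ∣ n := Nat.minFac_dvd n
    have hn'0 : 0 < n' := by
      rcases Nat.eq_zero_or_pos n' with h | h
      · subst h; omega
      · exact h
    have hlt : n' < n := by
      rw [hn']; nlinarith [hpr.two_le]
    have hdvd' : f ∣ expand ℤ n' G :=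
      ih n' hlt hn'0 (by omega) (fun r hr hrn => hq r hr (by rw [hn']; exact hrn.mul_left q))
    by_contra hnd
    obtain ⟨v, hv⟩ := expand_eq_pow_add q (expand ℤ n' G)
    rw [Polynomial.expand_expand, ← hn'] at hv
    obtain ⟨h, hh⟩ := hdvd'
    have hdeg : (expand ℤ n G).natDegree ≤ G.natDegree * n := by
      rw [Polynomial.natDegree_expand]
    have hlow := res_lower_of_eq (h := h * (expand ℤ n' G) ^ (q - 1)) (v := v) hf hirr hnd q (by
      rw [hv]
      congr 1
      rw [← mul_assoc, ← hh, ← pow_succ']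
      congr 1
      have := hpr.two_le
      omega) _ hdeg
    have hup := res_upper hf (expand ℤ n G) _ hdeg
    rw [len_expand n hn] at hup
    have h2 : (2 * (L : ℝ)) ^ f.natDegree ≤ (q : ℝ) ^ f.natDegree := by
      have := hq q hpr (Nat.minFac_dvd n)
      have h3 : (2 * (L : ℝ)) ≤ (q : ℝ) := by exact_mod_cast this
      gcongr
    have hLR : (len G : ℝ) ≤ (L : ℝ) := by exact_mod_cast hL
    have hl0 : (0 : ℝ) ≤ (len G : ℝ) := by exact_mod_cast len_nonneg G
    have hM1 := one_le_MZ hf
    have h4 : (len G : ℝ) ^ f.natDegree * MZ f ^ (G.natDegree * n) ≤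
        (L : ℝ) ^ f.natDegree * MZ f ^ (G.natDegree * nmax) := by
      gcongr
    have h5 : (2 * (L : ℝ)) ^ f.natDegree ≤ (L : ℝ) ^ f.natDegree * MZ f ^ (G.natDegree * nmax) :=
      h2.trans (hlow.trans (hup.trans h4))
    rw [mul_pow, mul_comm] at h5
    have hLpos : (0 : ℝ) < (L : ℝ) ^ f.natDegree := by
      have : (0 : ℝ) < (L : ℝ) := by exact_mod_cast hL1
      positivity
    have h6 := le_of_mul_le_mul_left h5 hLpos
    linarith

/-- the case where `f` divides a nonzero integer polynomial of small length -/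
lemma not_dvd_small {f G : ℤ[X]} (hf : f.Monic) (hirr : Irreducible f) (hdvd : f ∣ G) (hG : G ≠ 0)
    (hroot : ∀ z : ℂ, (f.map (Int.castRingHom ℂ)).eval z = 0 → z ≠ 0 ∧ ∀ n : ℕ, 0 < n → z ^ n ≠ 1)
    (L : ℕ) (hL1 : 1 ≤ L) (hL : len G ≤ (L : ℤ)) (K : ℕ) (hK : G.support.card ≤ K)
    (hM : (MZ f) ^ (G.natDegree * (1 + primorial (2 * L) * K)) < 2 ^ f.natDegree) : False := by
  have hdeg : f.natDegree ≠ 0 := by
    intro h
    have := hf.natDegree_eq_zero.mp h
    rw [this] at hirr
    exact hirr.not_isUnit isUnit_one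
  obtain ⟨z, hz⟩ : ∃ z : ℂ, (f.map (Int.castRingHom ℂ)).eval z = 0 := by
    apply IsAlgClosed.exists_root
    rw [Polynomial.degree_eq_natDegree ((hf.map _).ne_zero), natDegree_mapC]
    exact_mod_cast hdeg
  obtain ⟨hz0, hz1⟩ := hroot z hz
  set P := primorial (2 * L) with hP
  have hPpos : 0 < P := primorial_pos _
  -- G vanishes at z ^ (1 + P m)
  have hvan : ∀ m : ℕ, m < K → ∑ i ∈ G.support, ((G.coeff i : ℂ) * z ^ i) * (z ^ (i * P)) ^ m = 0 := by
    intro m hm
    have hdv := dvd_expand hf hirr hdvd L hL1 hL _ hM (1 + P * m) (by omega)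
      (by
        have : P * m ≤ P * K := Nat.mul_le_mul_left _ hm.le
        omega) (by
        intro q hq hqd
        by_contra hlt
        push Not at hlt
        have h1 : q ∣ P := by
          rw [hP, primorial]
          exact Finset.dvd_prod_of_mem _ (by
            simp only [Finset.mem_filter, Finset.mem_range]
            exact ⟨by omega, hq⟩)
        have h2 : q ∣ 1 := (Nat.dvd_add_left (h1.mul_right m)).1 hqd
        exact hq.one_lt.ne' (Nat.dvd_one.mp h2))
    obtain ⟨h, hh⟩ := hdv
    have h1 : ((expand ℤ (1 + P * m) G).map (Int.castRingHom ℂ)).eval z = 0 := by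
      rw [hh, Polynomial.map_mul, Polynomial.eval_mul, hz, zero_mul]
    rw [Polynomial.map_expand, Polynomial.expand_eval, Polynomial.eval_map,
      Polynomial.eval₂_eq_sum, Polynomial.sum_def] at h1
    rw [← h1]
    refine Finset.sum_congr rfl fun i _ => ?_
    rw [eq_intCast, mul_assoc, ← pow_mul, ← pow_add, ← pow_mul]
    congr 2
    ring
  -- Vandermonde
  set k := G.support.card with hk
  let e := G.support.equivFin
  have hinj : Function.Injective (fun j : Fin k => z ^ (((e.symm j : G.support) : ℕ) * P)) := by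
    intro a b hab
    simp only at hab
    have key : ∀ i j : ℕ, i < j → z ^ (i * P) ≠ z ^ (j * P) := by
      intro i j hij heq
      have h1 : j * P = i * P + (j - i) * P := by
        rw [← Nat.add_mul]; congr 1; omega
      rw [h1, pow_add] at heq
      have h2 : z ^ (i * P) ≠ 0 := pow_ne_zero _ hz0
      have h3 : z ^ ((j - i) * P) = 1 := by
        have := mul_left_cancel₀ h2 (show z ^ (i * P) * z ^ ((j - i) * P) = z ^ (i * P) * 1 by
          rw [mul_one]; exact heq.symm)
        exact this
      exact hz1 _ (Nat.mul_pos (by omega) hPpos) h3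
    have h4 : ((e.symm a : G.support) : ℕ) = ((e.symm b : G.support) : ℕ) := by
      rcases lt_trichotomy ((e.symm a : G.support) : ℕ) ((e.symm b : G.support) : ℕ) with h | h | h
      · exact absurd hab (key _ _ h)
      · exact h
      · exact absurd hab.symm (key _ _ h)
    exact e.symm.injective (Subtype.ext h4)
  have hzero := Matrix.eq_zero_of_forall_pow_sum_mul_pow_eq_zero
    (v := fun j : Fin k => (G.coeff ((e.symm j : G.support) : ℕ) : ℂ) *
      z ^ ((e.symm j : G.support) : ℕ)) hinj (by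
    intro m
    have h1 := hvan m (lt_of_lt_of_le m.2 hK)
    rw [← h1]
    rw [← Finset.sum_coe_sort G.support (fun i => ((G.coeff i : ℂ) * z ^ i) * (z ^ (i * P)) ^ (m : ℕ))]
    exact Equiv.sum_comp e.symm (fun x : G.support =>
      ((G.coeff (x : ℕ) : ℂ) * z ^ (x : ℕ)) * (z ^ ((x : ℕ) * P)) ^ (m : ℕ)))
  obtain ⟨i, hi⟩ := Polynomial.support_nonempty.mpr hG
  have h1 := congrFun hzero (e ⟨i, hi⟩)
  simp only [Equiv.symm_apply_apply, Pi.zero_apply, mul_eq_zero, Int.cast_eq_zero] at h1
  rcases h1 with h1 | h1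
  · rw [Polynomial.mem_support_iff] at hi
    exact hi h1
  · exact pow_ne_zero _ hz0 h1

end Pool.Agent.H338R2
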