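import Mathlib
import Pool.Agent.H338R2.Frob

set_option autoImplicit false

open Polynomial

namespace Pool.Agent.H338R2

section general
variable {R : Type*} [CommRing R]

/-- index of an ideal as an additive subgroup -/
noncomputable def idx (I : Ideal R) : ℕ := (Submodule.toAddSubgroup I).index

/-- `{u | w * u ∈ B}` -/
def colonE (B : Ideal R) (w : R) : AddSubgroup R :=
  (Submodule.toAddSubgroup B).comap (AddMonoidHom.mulLeft w)

lemma mem_colonE {B : Ideal R} {w u : R} : u ∈ colonE B w ↔ w * u ∈ B := Iff.rfl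

lemma idx_eq (B : Ideal R) (w : R) :
    idx B = (colonE B w).index * idx (B ⊔ Ideal.span {w}) := by
  have h1 : (colonE B w).index = (Submodule.toAddSubgroup B).relIndex
      (AddMonoidHom.mulLeft w).range := AddSubgroup.index_comap _ _
  have h2 : (AddMonoidHom.mulLeft w).range = Submodule.toAddSubgroup (Ideal.span {w}) := by
    ext x
    simp only [AddMonoidHom.mem_range, AddMonoidHom.coe_mulLeft, Submodule.mem_toAddSubgroup,
      Ideal.mem_span_singleton]
    constructor
    · rintro ⟨y, rfl⟩; exact dvd_mul_right _ _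
    · rintro ⟨y, rfl⟩; exact ⟨y, rfl⟩
  have h3 : (Submodule.toAddSubgroup (B ⊔ Ideal.span {w})) =
      Submodule.toAddSubgroup B ⊔ Submodule.toAddSubgroup (Ideal.span {w}) :=
    Submodule.sup_toAddSubgroup _ _
  have h4 := AddSubgroup.relIndex_sup_right (H := Submodule.toAddSubgroup (Ideal.span {w}))
    (K := Submodule.toAddSubgroup B)
  have h5 := AddSubgroup.relIndex_mul_index
    (show Submodule.toAddSubgroup B ≤ Submodule.toAddSubgroup B ⊔
      Submodule.toAddSubgroup (Ideal.span {w}) from le_sup_left)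
  rw [idx, idx, h3, h1, h2, ← h5]
  congr 1
  rw [sup_comm]
  exact h4

end general

variable {p : ℕ} [hp : Fact p.Prime]

/-- reduction mod p -/
noncomputable abbrev red (p : ℕ) : ℤ[X] →+* (ZMod p)[X] := mapRingHom (Int.castRingHom (ZMod p))

/-- the ideal (p, g) -/
noncomputable def JJ (p : ℕ) (g : ℤ[X]) : Ideal ℤ[X] := Ideal.span {C (p : ℤ)} ⊔ Ideal.span {g}

lemma pow_le (p : ℕ) (g : ℤ[X]) (r : ℕ) :
    JJ p g ^ (r + 1) ≤ Ideal.span {C (p : ℤ)} * JJ p g ^ r ⊔ Ideal.span {g ^ (r + 1)} := by
  induction r with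
  | zero =>
    rw [zero_add, pow_one, pow_zero, mul_one, pow_one]
    exact le_rfl
  | succ r ih =>
    have h1 : JJ p g ^ (r + 1 + 1) = JJ p g ^ (r + 1) * Ideal.span {C (p : ℤ)} ⊔
        JJ p g ^ (r + 1) * Ideal.span {g} := by
      rw [pow_succ (JJ p g) (r + 1)]
      nth_rewrite 2 [JJ]
      rw [Ideal.mul_sup]
    rw [h1]
    apply sup_le
    · rw [mul_comm]
      exact le_sup_left
    · refine (Ideal.mul_mono_left ih).trans ?_
      rw [Ideal.sup_mul]
      apply sup_le
      · refine le_trans ?_ le_sup_left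
        rw [mul_assoc]
        apply Ideal.mul_mono_right
        rw [pow_succ]
        apply Ideal.mul_mono_right
        exact le_sup_right
      · refine le_trans ?_ le_sup_right
        rw [Ideal.span_singleton_mul_span_singleton, ← pow_succ]

omit hp in
lemma red_C : red p (C (p : ℤ)) = 0 := by
  simp [red]

lemma monic_red_ne {g : ℤ[X]} (hg : g.Monic) (r : ℕ) : (red p g) ^ r ≠ 0 := by
  have : (red p g).Monic := hg.map _
  exact (this.pow r).ne_zero

lemma colon_p {g : ℤ[X]} (hg : g.Monic) (r : ℕ) :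
    colonE (JJ p g ^ (r + 1)) (C (p : ℤ)) = Submodule.toAddSubgroup (JJ p g ^ r) := by
  ext u
  rw [mem_colonE, Submodule.mem_toAddSubgroup]
  constructor
  · intro h
    have h1 := pow_le p g r h
    rw [Submodule.mem_sup] at h1
    obtain ⟨a, ha, b, hb, hab⟩ := h1
    rw [Ideal.mem_span_singleton_mul] at ha
    obtain ⟨v, hv, rfl⟩ := ha
    rw [Ideal.mem_span_singleton] at hb
    obtain ⟨c, rfl⟩ := hb
    -- C p * v + g^(r+1) * c = C p * u
    have h2 : (red p g) ^ (r + 1) * red p c = 0 := by
      have := congrArg (red p) hab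
      rw [map_add, map_mul, map_mul, map_mul, red_C, zero_mul, zero_mul, zero_add, map_pow] at this
      exact this
    have h3 : red p c = 0 := by
      rcases mul_eq_zero.1 h2 with h | h
      · exact absurd h (monic_red_ne hg _)
      · exact h
    obtain ⟨c', hc'⟩ := C_dvd_of_map_eq_zero p c h3
    have hp0 : (C (p : ℤ) : ℤ[X]) ≠ 0 := by
      rw [Ne, C_eq_zero]; exact_mod_cast hp.out.ne_zero
    have h4 : u = v + g ^ (r + 1) * c' := by
      apply mul_left_cancel₀ hp0
      rw [← hab, hc']; ring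
    rw [h4]
    apply add_mem hv
    have h5 : g ^ r ∈ JJ p g ^ r := Ideal.pow_mem_pow
      ((le_sup_right : Ideal.span {g} ≤ JJ p g) (Ideal.mem_span_singleton_self g)) r
    rw [pow_succ, mul_assoc]
    exact Ideal.mul_mem_right _ _ h5
  · intro h
    rw [pow_succ']
    exact Ideal.mul_mem_mul ((le_sup_left : Ideal.span {C (p : ℤ)} ≤ JJ p g)
      (Ideal.mem_span_singleton_self _)) h

lemma JJ_sup_p {g : ℤ[X]} (r : ℕ) :
    (JJ p g ^ r ⊔ Ideal.span {C (p : ℤ)}) = Ideal.comap (red p) (Ideal.span {(red p g) ^ r}) := by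
  apply le_antisymm
  · apply sup_le
    · have h1 : JJ p g ≤ Ideal.comap (red p) (Ideal.span {red p g}) := by
        apply sup_le
        · rw [Ideal.span_singleton_le_iff_mem, Ideal.mem_comap, red_C]
          exact zero_mem _
        · rw [Ideal.span_singleton_le_iff_mem, Ideal.mem_comap]
          exact Ideal.mem_span_singleton_self _
      refine (Ideal.pow_right_mono h1 r).trans ?_
      refine (Ideal.le_comap_pow _ _).trans ?_
      rw [Ideal.span_singleton_pow]
    · rw [Ideal.span_singleton_le_iff_mem, Ideal.mem_comap, red_C]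
      exact zero_mem _
  · intro u hu
    rw [Ideal.mem_comap, Ideal.mem_span_singleton] at hu
    obtain ⟨v, hv⟩ := hu
    obtain ⟨v', hv'⟩ : ∃ v' : ℤ[X], red p v' = v := by
      have : Function.Surjective (red p) := by
        apply Polynomial.map_surjective
        exact ZMod.intCast_surjective
      exact this v
    obtain ⟨c, hc⟩ := C_dvd_of_map_eq_zero p (u - g ^ r * v') (by
      have : red p (u - g ^ r * v') = 0 := by
        rw [map_sub, map_mul, map_pow, hv', hv, sub_self]
      exact this)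
    have h1 : u = g ^ r * v' + C (p : ℤ) * c := by rw [← hc]; ring
    rw [h1]
    apply add_mem
    · apply Ideal.mem_sup_left
      apply Ideal.mul_mem_right
      exact Ideal.pow_mem_pow
        ((le_sup_right : Ideal.span {g} ≤ JJ p g) (Ideal.mem_span_singleton_self g)) r
    · apply Ideal.mem_sup_right
      exact Ideal.mul_mem_right _ _ (Ideal.mem_span_singleton_self _)

lemma idx_sup_p {g : ℤ[X]} (hg : g.Monic) (r : ℕ) :
    idx (JJ p g ^ r ⊔ Ideal.span {C (p : ℤ)}) = p ^ (r * g.natDegree) := by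
  rw [JJ_sup_p]
  have h1 : Submodule.toAddSubgroup (Ideal.comap (red p) (Ideal.span {(red p g) ^ r})) =
      (Submodule.toAddSubgroup (Ideal.span {(red p g) ^ r})).comap (red p).toAddMonoidHom := rfl
  rw [idx, h1, AddSubgroup.index_comap_of_surjective]
  · have h2 : (Submodule.toAddSubgroup (Ideal.span {(red p g) ^ r})).index =
        Nat.card ((ZMod p)[X] ⧸ Ideal.span {(red p g) ^ r}) := rfl
    have hmon : ((red p g) ^ r).Monic := (hg.map _).pow r
    have hfin : Module.Finite (ZMod p) ((ZMod p)[X] ⧸ Ideal.span {(red p g) ^ r}) :=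
      (AdjoinRoot.powerBasis hmon.ne_zero).finite
    rw [h2, Module.natCard_eq_pow_finrank (K := ZMod p), Nat.card_zmod,
      finrank_quotient_span_eq_natDegree]
    congr 1
    have hm : (red p g).Monic := hg.map _
    rw [hm.natDegree_pow]
    congr 1
    exact hg.natDegree_map _
  · apply Polynomial.map_surjective
    exact ZMod.intCast_surjective

lemma idx_pow_ne_zero {g : ℤ[X]} (hg : g.Monic) (r : ℕ) : idx (JJ p g ^ r) ≠ 0 := by
  induction r with
  | zero =>
    rw [pow_zero, Ideal.one_eq_top, idx]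
    have : (Submodule.toAddSubgroup (⊤ : Ideal ℤ[X])) = ⊤ := rfl
    rw [this, AddSubgroup.index_top]
    exact one_ne_zero
  | succ r ih =>
    rw [idx_eq (JJ p g ^ (r + 1)) (C (p : ℤ)), colon_p hg]
    apply mul_ne_zero ih
    rw [idx_sup_p hg]
    exact pow_ne_zero _ hp.out.ne_zero

/-- the key index inequality -/
lemma idx_sup_f {g f : ℤ[X]} (hg : g.Monic) (hf : f ∈ JJ p g) (r : ℕ) :
    p ^ (r * g.natDegree) ≤ idx (JJ p g ^ r ⊔ Ideal.span {f}) := by
  rcases r with _ | r
  · rw [zero_mul, pow_zero]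
    apply Nat.one_le_iff_ne_zero.2
    have := idx_eq (JJ p g ^ 0) f
    intro h
    rw [h, mul_zero] at this
    exact idx_pow_ne_zero hg 0 this
  have h1 := idx_eq (JJ p g ^ (r + 1)) (C (p : ℤ))
  rw [colon_p hg, idx_sup_p hg] at h1
  have h2 := idx_eq (JJ p g ^ (r + 1)) f
  have h3 : Submodule.toAddSubgroup (JJ p g ^ r) ≤ colonE (JJ p g ^ (r + 1)) f := by
    intro u hu
    rw [mem_colonE, pow_succ']
    exact Ideal.mul_mem_mul hf hu
  have h4 : (colonE (JJ p g ^ (r + 1)) f).index ≤ (Submodule.toAddSubgroup (JJ p g ^ r)).index :=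
    Nat.le_of_dvd (Nat.pos_of_ne_zero (idx_pow_ne_zero hg r)) (AddSubgroup.index_dvd_of_le h3)
  have h5 : 0 < (Submodule.toAddSubgroup (JJ p g ^ r)).index :=
    Nat.pos_of_ne_zero (idx_pow_ne_zero hg r)
  rw [h1] at h2
  have h6 : (Submodule.toAddSubgroup (JJ p g ^ r)).index * p ^ ((r + 1) * g.natDegree) ≤
      (Submodule.toAddSubgroup (JJ p g ^ r)).index * idx (JJ p g ^ (r + 1) ⊔ Ideal.span {f}) := by
    rw [h2]
    exact Nat.mul_le_mul_right _ h4
  exact Nat.le_of_mul_le_mul_left h6 h5

end Pool.Agent.H338R2
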