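import Mathlib
import Pool.Agent.H338R2.Index

set_option autoImplicit false

open Polynomial

namespace Pool.Agent.H338R2

/-- cardinality of the cokernel of an injective map of free modules given by a matrix -/
lemma card_coker {M₁ M₂ : Type*} [AddCommGroup M₁] [AddCommGroup M₂] {ι : Type*} [Fintype ι]
    [DecidableEq ι] (b₁ : Module.Basis ι ℤ M₁) (b₂ : Module.Basis ι ℤ M₂) (φ : M₁ →ₗ[ℤ] M₂)
    (hφ : Function.Injective φ) :
    Nat.card (M₂ ⧸ LinearMap.range φ) = (LinearMap.toMatrix b₁ b₂ φ).det.natAbs := by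
  have : Module.Free ℤ M₂ := Module.Free.of_basis b₂
  have : Module.Finite ℤ M₂ := Module.Finite.of_basis b₂
  have h1 := Submodule.natAbs_det_basis_change b₂ (LinearMap.range φ)
    (b₁.map (LinearEquiv.ofInjective φ hφ))
  rw [← h1, Module.Basis.det_apply]
  congr 2
  ext i j
  rw [Module.Basis.toMatrix_apply, LinearMap.toMatrix_apply]
  rfl

lemma idx_le_res {f G : ℤ[X]} (hf : f.Monic) (hres : resultant f G ≠ 0) (I : Ideal ℤ[X])
    (hfI : f ∈ I) (hGI : G ∈ I) : idx I ≤ (resultant f G).natAbs := by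
  set m := f.natDegree with hm
  set n := G.natDegree with hn
  let φ := sylvesterMap (m := m) (n := n) f G le_rfl le_rfl
  have hinj : Function.Injective φ := by
    rw [injective_iff_map_eq_zero]
    intro x hx
    have h1 := congrArg (fun ψ => ψ x) (adjSylvester_comp_sylveserMap (m := m) (n := n) f G le_rfl le_rfl)
    simp only [LinearMap.comp_apply, LinearMap.smul_apply, LinearMap.id_apply] at h1
    have h2 : sylvesterMap (m := m) (n := n) f G le_rfl le_rfl x = 0 := hx
    rw [h2, map_zero, eq_comm, smul_eq_zero] at h1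
    rcases h1 with h1 | h1
    · exact absurd h1 hres
    · exact h1
  have hcard := card_coker
    (((degreeLT.basis ℤ m).prod (degreeLT.basis ℤ n)).reindex finSumFinEquiv)
    (degreeLT.basis ℤ (m + n)) φ hinj
  rw [toMatrix_sylvesterMap'] at hcard
  have hcard' : Nat.card (ℤ[X]_(m + n) ⧸ LinearMap.range φ) = (resultant f G).natAbs := hcard
  rw [← hcard']
  have hfin : Finite (ℤ[X]_(m + n) ⧸ LinearMap.range φ) := by
    apply Nat.finite_of_card_ne_zero
    rw [hcard']
    exact Int.natAbs_ne_zero.mpr hres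
  -- the surjection
  let ψ : ℤ[X]_(m + n) →ₗ[ℤ] (ℤ[X] ⧸ I) :=
    ((Ideal.Quotient.mkₐ ℤ I).toLinearMap).comp (Submodule.subtype _)
  have hker : LinearMap.range φ ≤ LinearMap.ker ψ := by
    rintro _ ⟨x, rfl⟩
    rw [LinearMap.mem_ker]
    show Ideal.Quotient.mk I ((φ x : ℤ[X]_(m + n)) : ℤ[X]) = 0
    rw [Ideal.Quotient.eq_zero_iff_mem]
    show f * x.2 + G * x.1 ∈ I
    exact I.add_mem (I.mul_mem_right _ hfI) (I.mul_mem_right _ hGI)
  have hsurj : Function.Surjective ψ := by
    intro y
    obtain ⟨w, rfl⟩ := Ideal.Quotient.mk_surjective y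
    refine ⟨⟨w %ₘ f, ?_⟩, ?_⟩
    · rw [Polynomial.mem_degreeLT]
      refine (Polynomial.degree_modByMonic_lt w hf).trans_le ?_
      rw [Polynomial.degree_eq_natDegree hf.ne_zero]
      exact_mod_cast Nat.le_add_right m n
    · show Ideal.Quotient.mk I (w %ₘ f) = Ideal.Quotient.mk I w
      rw [Ideal.Quotient.eq]
      have h1 : w %ₘ f - w = f * (-(w /ₘ f)) := by
        have := Polynomial.modByMonic_add_div w f
        linear_combination this
      rw [h1]
      exact I.mul_mem_right _ hfI
  have h1 : idx I = Nat.card (ℤ[X] ⧸ I) := rfl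
  rw [h1]
  apply Nat.card_le_card_of_surjective ((LinearMap.range φ).liftQ ψ hker)
  rw [← LinearMap.range_eq_top, Submodule.range_liftQ, LinearMap.range_eq_top]
  exact hsurj

/-- the p-adic lower bound for the resultant -/
lemma res_lower_p {p : ℕ} [hp : Fact p.Prime] {g f G : ℤ[X]} (hg : g.Monic) (hf : f.Monic)
    (hfJ : f ∈ JJ p g) (r : ℕ) (hG : G ∈ JJ p g ^ r) (hres : resultant f G ≠ 0) :
    p ^ (r * g.natDegree) ≤ (resultant f G).natAbs := by
  refine (idx_sup_f hg hfJ r).trans ?_
  apply idx_le_res hf hres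
  · exact Ideal.mem_sup_right (Ideal.mem_span_singleton_self _)
  · exact Ideal.mem_sup_left hG

end Pool.Agent.H338R2
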