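import Mathlib
import Pool.Agent.H338R2.ResIdx

set_option autoImplicit false

open Polynomial

namespace Pool.Agent.H338R2

/-! The index computations for an arbitrary modulus `n ≥ 2`. -/

section modn

variable {n : ℕ} [hn : Fact (1 < n)]

lemma neZero_n : NeZero n := ⟨by have := hn.out; omega⟩

lemma C_dvd_of_map_eq_zero_n (w : ℤ[X]) (h : red n w = 0) : ∃ v : ℤ[X], w = C (n : ℤ) * v := by
  have := neZero_n (n := n)
  have : C (n : ℤ) ∣ w := by
    rw [Polynomial.C_dvd_iff_dvd_coeff]
    intro i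
    have h1 := congrArg (fun u => Polynomial.coeff u i) h
    have h2 : (red n w).coeff i = ((w.coeff i : ℤ) : ZMod n) := by simp [red]
    simp only [h2, Polynomial.coeff_zero] at h1
    exact (ZMod.intCast_zmod_eq_zero_iff_dvd _ _).1 h1
  exact this

lemma red_surj : Function.Surjective (red n) := by
  apply Polynomial.map_surjective
  exact ZMod.intCast_surjective

lemma colon_n {g : ℤ[X]} (hg : g.Monic) (r : ℕ) :
    colonE (JJ n g ^ (r + 1)) (C (n : ℤ)) = Submodule.toAddSubgroup (JJ n g ^ r) := by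
  ext u
  rw [mem_colonE, Submodule.mem_toAddSubgroup]
  constructor
  · intro h
    have h1 := pow_le n g r h
    rw [Submodule.mem_sup] at h1
    obtain ⟨a, ha, b, hb, hab⟩ := h1
    rw [Ideal.mem_span_singleton_mul] at ha
    obtain ⟨v, hv, rfl⟩ := ha
    rw [Ideal.mem_span_singleton] at hb
    obtain ⟨c, rfl⟩ := hb
    have h2 : (red n g) ^ (r + 1) * red n c = 0 := by
      have := congrArg (red n) hab
      rw [map_add, map_mul, map_mul, map_mul, red_C, zero_mul, zero_mul, zero_add, map_pow] at this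
      exact this
    have h3 : red n c = 0 := by
      have hm : ((red n g) ^ (r + 1)).Monic := (hg.map _).pow _
      exact (hm.mul_right_eq_zero_iff).1 h2
    obtain ⟨c', hc'⟩ := C_dvd_of_map_eq_zero_n c h3
    have hp0 : (C (n : ℤ) : ℤ[X]) ≠ 0 := by
      rw [Ne, C_eq_zero]
      have := hn.out
      omega
    have h4 : u = v + g ^ (r + 1) * c' := by
      apply mul_left_cancel₀ hp0
      rw [← hab, hc']; ring
    rw [h4]
    apply add_mem hv
    have h5 : g ^ r ∈ JJ n g ^ r := Ideal.pow_mem_pow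
      ((le_sup_right : Ideal.span {g} ≤ JJ n g) (Ideal.mem_span_singleton_self g)) r
    rw [pow_succ, mul_assoc]
    exact Ideal.mul_mem_right _ _ h5
  · intro h
    rw [pow_succ']
    exact Ideal.mul_mem_mul ((le_sup_left : Ideal.span {C (n : ℤ)} ≤ JJ n g)
      (Ideal.mem_span_singleton_self _)) h

lemma JJ_sup_n {g : ℤ[X]} (r : ℕ) :
    (JJ n g ^ r ⊔ Ideal.span {C (n : ℤ)}) = Ideal.comap (red n) (Ideal.span {(red n g) ^ r}) := by
  apply le_antisymm
  · apply sup_le
    · have h1 : JJ n g ≤ Ideal.comap (red n) (Ideal.span {red n g}) := by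
        apply sup_le
        · rw [Ideal.span_singleton_le_iff_mem, Ideal.mem_comap, red_C]
          exact zero_mem _
        · rw [Ideal.span_singleton_le_iff_mem, Ideal.mem_comap]
          exact Ideal.mem_span_singleton_self _
      refine (Ideal.pow_right_mono h1 r).trans ?_
      refine (Ideal.le_comap_pow _ _).trans ?_
      rw [Ideal.span_singleton_pow]
    · rw [Ideal.span_singleton_le_iff_mem, Ideal.mem_comap, red_C]
      exact zero_mem _
  · intro u hu
    rw [Ideal.mem_comap, Ideal.mem_span_singleton] at hu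
    obtain ⟨v, hv⟩ := hu
    obtain ⟨v', hv'⟩ := red_surj (n := n) v
    obtain ⟨c, hc⟩ := C_dvd_of_map_eq_zero_n (n := n) (u - g ^ r * v') (by
      rw [map_sub, map_mul, map_pow, hv', hv, sub_self])
    have h1 : u = g ^ r * v' + C (n : ℤ) * c := by rw [← hc]; ring
    rw [h1]
    apply add_mem
    · apply Ideal.mem_sup_left
      apply Ideal.mul_mem_right
      exact Ideal.pow_mem_pow
        ((le_sup_right : Ideal.span {g} ≤ JJ n g) (Ideal.mem_span_singleton_self g)) r
    · apply Ideal.mem_sup_right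
      exact Ideal.mul_mem_right _ _ (Ideal.mem_span_singleton_self _)

lemma nontriv_n : Nontrivial (ZMod n) := by
  have := hn.out
  exact ZMod.nontrivial_iff.mpr (by omega)

lemma card_quot_monic {q : (ZMod n)[X]} (hq : q.Monic) :
    Nat.card ((ZMod n)[X] ⧸ Ideal.span {q}) = n ^ q.natDegree := by
  have h1 := neZero_n (n := n)
  have h2 : Nat.card ((ZMod n)[X] ⧸ Ideal.span {q}) = Nat.card (Fin q.natDegree → ZMod n) := by
    apply Nat.card_congr
    have b := (AdjoinRoot.powerBasis' hq).basis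
    have e := b.equivFun.toEquiv
    exact e
  rw [h2, Nat.card_eq_fintype_card, Fintype.card_fun, ZMod.card, Fintype.card_fin]

lemma idx_sup_n {g : ℤ[X]} (hg : g.Monic) (r : ℕ) :
    idx (JJ n g ^ r ⊔ Ideal.span {C (n : ℤ)}) = n ^ (r * g.natDegree) := by
  have := nontriv_n (n := n)
  rw [JJ_sup_n]
  have h1 : Submodule.toAddSubgroup (Ideal.comap (red n) (Ideal.span {(red n g) ^ r})) =
      (Submodule.toAddSubgroup (Ideal.span {(red n g) ^ r})).comap (red n).toAddMonoidHom := rfl
  rw [idx, h1, AddSubgroup.index_comap_of_surjective]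
  · have h2 : (Submodule.toAddSubgroup (Ideal.span {(red n g) ^ r})).index =
        Nat.card ((ZMod n)[X] ⧸ Ideal.span {(red n g) ^ r}) := rfl
    have hmon : ((red n g) ^ r).Monic := (hg.map _).pow r
    rw [h2, card_quot_monic hmon]
    congr 1
    have hm : (red n g).Monic := hg.map _
    rw [hm.natDegree_pow]
    congr 1
    exact hg.natDegree_map _
  · exact red_surj

lemma idx_JJ_pow {g : ℤ[X]} (hg : g.Monic) (r : ℕ) :
    idx (JJ n g ^ r) = n ^ (g.natDegree * (r * (r + 1) / 2)) := by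
  induction r with
  | zero =>
    rw [pow_zero, Ideal.one_eq_top, idx]
    have : (Submodule.toAddSubgroup (⊤ : Ideal ℤ[X])) = ⊤ := rfl
    rw [this, AddSubgroup.index_top]
    simp
  | succ r ih =>
    rw [idx_eq (JJ n g ^ (r + 1)) (C (n : ℤ)), colon_n hg, idx_sup_n hg]
    have h1 : (Submodule.toAddSubgroup (JJ n g ^ r)).index = idx (JJ n g ^ r) := rfl
    rw [h1, ih, ← pow_add]
    congr 1
    have h2 : (r + 1) * (r + 1 + 1) / 2 = r * (r + 1) / 2 + (r + 1) := by
      have : (r + 1) * (r + 1 + 1) = r * (r + 1) + (r + 1) * 2 := by ring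
      rw [this, Nat.add_mul_div_right _ _ (by norm_num)]
    rw [h2]; ring

lemma idx_pow_ne_zero_n {g : ℤ[X]} (hg : g.Monic) (r : ℕ) : idx (JJ n g ^ r) ≠ 0 := by
  rw [idx_JJ_pow hg]
  exact pow_ne_zero _ (by have := hn.out; omega)

/-- the key index inequality, arbitrary modulus -/
lemma idx_sup_f_n {g f : ℤ[X]} (hg : g.Monic) (hf : f ∈ JJ n g) (r : ℕ) :
    n ^ (r * g.natDegree) ≤ idx (JJ n g ^ r ⊔ Ideal.span {f}) := by
  rcases r with _ | r
  · rw [zero_mul, pow_zero]
    apply Nat.one_le_iff_ne_zero.2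
    have := idx_eq (JJ n g ^ 0) f
    intro h
    rw [h, mul_zero] at this
    exact idx_pow_ne_zero_n hg 0 this
  have h1 := idx_eq (JJ n g ^ (r + 1)) (C (n : ℤ))
  rw [colon_n hg, idx_sup_n hg] at h1
  have h2 := idx_eq (JJ n g ^ (r + 1)) f
  have h3 : Submodule.toAddSubgroup (JJ n g ^ r) ≤ colonE (JJ n g ^ (r + 1)) f := by
    intro u hu
    rw [mem_colonE, pow_succ']
    exact Ideal.mul_mem_mul hf hu
  have h4 : (colonE (JJ n g ^ (r + 1)) f).index ≤ (Submodule.toAddSubgroup (JJ n g ^ r)).index :=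
    Nat.le_of_dvd (Nat.pos_of_ne_zero (idx_pow_ne_zero_n hg r)) (AddSubgroup.index_dvd_of_le h3)
  have h5 : 0 < (Submodule.toAddSubgroup (JJ n g ^ r)).index :=
    Nat.pos_of_ne_zero (idx_pow_ne_zero_n hg r)
  rw [h1] at h2
  have h6 : (Submodule.toAddSubgroup (JJ n g ^ r)).index * n ^ ((r + 1) * g.natDegree) ≤
      (Submodule.toAddSubgroup (JJ n g ^ r)).index * idx (JJ n g ^ (r + 1) ⊔ Ideal.span {f}) := by
    rw [h2]
    exact Nat.mul_le_mul_right _ h4
  exact Nat.le_of_mul_le_mul_left h6 h5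

/-- the n-adic lower bound for the resultant -/
lemma res_lower_n {g f G : ℤ[X]} (hg : g.Monic) (hf : f.Monic)
    (hfJ : f ∈ JJ n g) (r : ℕ) (hG : G ∈ JJ n g ^ r) (hres : resultant f G ≠ 0) :
    n ^ (r * g.natDegree) ≤ (resultant f G).natAbs := by
  refine (idx_sup_f_n hg hfJ r).trans ?_
  apply idx_le_res hf hres
  · exact Ideal.mem_sup_right (Ideal.mem_span_singleton_self _)
  · exact Ideal.mem_sup_left hG

lemma mem_JJ_of_dvd {g w : ℤ[X]} (h : red n g ∣ red n w) : w ∈ JJ n g := by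
  obtain ⟨v, hv⟩ := h
  obtain ⟨v', hv'⟩ := red_surj (n := n) v
  obtain ⟨c, hc⟩ := C_dvd_of_map_eq_zero_n (n := n) (w - g * v') (by
    rw [map_sub, map_mul, hv', hv, sub_self])
  have h1 : w = C (n : ℤ) * c + g * v' := by rw [← hc]; ring
  rw [h1]
  exact add_mem (Ideal.mem_sup_left (Ideal.mul_mem_right _ _ (Ideal.mem_span_singleton_self _)))
    (Ideal.mem_sup_right (Ideal.mul_mem_right _ _ (Ideal.mem_span_singleton_self _)))

/-- box principle in degree `< b` -/
lemma exists_small_deg {h : ℤ[X]} (hh : h.Monic) (r b B : ℕ)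
    (hB : n ^ (h.natDegree * (r * (r + 1) / 2)) < (B + 1) ^ b) :
    ∃ H : ℤ[X], H ≠ 0 ∧ H ∈ JJ n h ^ r ∧ H.degree < b ∧ ∀ i, |H.coeff i| ≤ (B : ℤ) := by
  have hidx := idx_JJ_pow (n := n) hh r
  let F : (Fin b → Fin (B + 1)) → ℤ[X] := fun c => ∑ i : Fin b, monomial (i : ℕ) (((c i : ℕ) : ℤ))
  have hcoeff : ∀ c : Fin b → Fin (B + 1), ∀ i : Fin b, (F c).coeff (i : ℕ) = ((c i : ℕ) : ℤ) := by
    intro c i
    simp only [F, Polynomial.finsetSum_coeff, Polynomial.coeff_monomial]
    rw [Finset.sum_eq_single i]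
    · simp
    · intro j _ hj
      rw [if_neg]
      intro h
      exact hj (Fin.ext h)
    · simp
  have hcoeff' : ∀ c : Fin b → Fin (B + 1), ∀ i : ℕ, b ≤ i → (F c).coeff i = 0 := by
    intro c i hi
    simp only [F, Polynomial.finsetSum_coeff, Polynomial.coeff_monomial]
    apply Finset.sum_eq_zero
    intro j _
    rw [if_neg]
    have := j.2
    omega
  have hfin : Finite (ℤ[X] ⧸ (JJ n h ^ r)) := by
    apply Nat.finite_of_card_ne_zero
    exact idx_pow_ne_zero_n hh r
  have h6 : ¬ Function.Injective (fun c => Ideal.Quotient.mk (JJ n h ^ r) (F c)) := by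
    intro hinj
    have h7 := Nat.card_le_card_of_injective _ hinj
    have h8 : Nat.card (ℤ[X] ⧸ (JJ n h ^ r)) = idx (JJ n h ^ r) := rfl
    rw [h8, hidx, Nat.card_eq_fintype_card, Fintype.card_fun, Fintype.card_fin, Fintype.card_fin] at h7
    omega
  rw [Function.not_injective_iff] at h6
  obtain ⟨x, y, hxy, hne⟩ := h6
  refine ⟨F x - F y, ?_, (Ideal.Quotient.eq).1 hxy, ?_, ?_⟩
  · intro h0
    apply hne
    rw [sub_eq_zero] at h0
    funext i
    have h1 := congrArg (fun u => Polynomial.coeff u (i : ℕ)) h0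
    simp only [hcoeff] at h1
    apply Fin.ext
    exact_mod_cast h1
  · rw [Polynomial.degree_lt_iff_coeff_zero]
    intro i hi
    rw [Polynomial.coeff_sub, hcoeff' x i hi, hcoeff' y i hi, sub_zero]
  · intro i
    rw [Polynomial.coeff_sub]
    rcases lt_or_ge i b with hi | hi
    · have h1 := hcoeff x ⟨i, hi⟩
      have h2 := hcoeff y ⟨i, hi⟩
      simp only at h1 h2
      rw [h1, h2, abs_le]
      have hx := (x ⟨i, hi⟩).2
      have hy := (y ⟨i, hi⟩).2
      constructor <;> omega
    · rw [hcoeff' x i hi, hcoeff' y i hi]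
      simp

end modn

end Pool.Agent.H338R2
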