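import Mathlib
import Pool.Agent.H338R2.ResIdx

set_option autoImplicit false

open Polynomial
open scoped Pointwise

namespace Pool.Agent.H338R2

section growth

/-- `k`-fold sumsets grow polynomially -/
lemma card_nsmul_le (S : Finset ℕ) (k : ℕ) : (k • S).card ≤ (k + 1) ^ S.card := by
  have key : ∀ x ∈ k • S, ∃ m : S → ℕ, (∀ s, m s ≤ k) ∧ ∑ s : S, m s * (s : ℕ) = x := by
    induction k with
    | zero =>
      intro x hx
      rw [zero_smul, Finset.mem_zero] at hx
      exact ⟨fun _ => 0, fun _ => le_rfl, by simp [hx]⟩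
    | succ k ih =>
      intro x hx
      rw [succ_nsmul, Finset.mem_add] at hx
      obtain ⟨y, hy, z, hz, rfl⟩ := hx
      obtain ⟨m, hm, hsum⟩ := ih y hy
      refine ⟨fun s => m s + if s = ⟨z, hz⟩ then 1 else 0, ?_, ?_⟩
      · intro s
        have := hm s
        simp only
        split_ifs <;> omega
      · simp only [add_mul, Finset.sum_add_distrib, hsum, ite_mul, one_mul, zero_mul,
          Finset.sum_ite_eq', Finset.mem_univ, if_true]
  have hsub : k • S ⊆ (Fintype.piFinset (fun _ : S => Finset.range (k + 1))).image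
      (fun m => ∑ s : S, m s * (s : ℕ)) := by
    intro x hx
    obtain ⟨m, hm, hs⟩ := key x hx
    rw [Finset.mem_image]
    refine ⟨m, ?_, hs⟩
    rw [Fintype.mem_piFinset]
    intro s
    rw [Finset.mem_range]
    have := hm s
    omega
  refine (Finset.card_le_card hsub).trans (Finset.card_image_le.trans ?_)
  rw [Fintype.card_piFinset]
  simp

lemma card_nsmul_pos {S : Finset ℕ} (hS : S.Nonempty) (k : ℕ) : 0 < (k • S).card :=
  Finset.card_pos.mpr (hS.nsmul)

lemma le_of_mem_nsmul {S : Finset ℕ} {E : ℕ} (hS : ∀ x ∈ S, x ≤ E) (k : ℕ) :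
    ∀ x ∈ k • S, x ≤ k * E := by
  induction k with
  | zero =>
    intro x hx
    rw [zero_smul, Finset.mem_zero] at hx
    omega
  | succ k ih =>
    intro x hx
    rw [succ_nsmul, Finset.mem_add] at hx
    obtain ⟨y, hy, z, hz, rfl⟩ := hx
    have h1 := ih y hy
    have h2 := hS z hz
    rw [add_mul]
    omega

/-- selection of a scale at which the sumset grows slowly -/
lemma exists_slow (S : Finset ℕ) (N t r : ℕ) (hN : S.card ≤ N)
    (ht : 2 ≤ t) (hr : 1 ≤ r) (h : (t - 1) ^ r * (r ^ 2 + 1) ^ N ≤ t ^ r) :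
    ∃ l < r, (t - 1) * (((l + 1) * r) • S).card ≤ t * ((l * r) • S).card := by
  by_contra hcon
  push Not at hcon
  have key : ∀ l, l ≤ r → t ^ l + (if l = 0 then 0 else 1) ≤ (t - 1) ^ l * ((l * r) • S).card := by
    intro l
    induction l with
    | zero =>
      intro _
      simp
    | succ l ih =>
      intro hl
      have h1 := ih (by omega)
      have h2 := hcon l (by omega)
      have h3 : t ^ l ≤ (t - 1) ^ l * ((l * r) • S).card := by
        refine le_trans ?_ h1
        exact Nat.le_add_right _ _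
      have h4 : t ^ (l + 1) ≤ (t - 1) ^ l * (t * ((l * r) • S).card) := by
        calc t ^ (l + 1) = t ^ l * t := pow_succ _ _
          _ ≤ ((t - 1) ^ l * ((l * r) • S).card) * t := Nat.mul_le_mul_right _ h3
          _ = (t - 1) ^ l * (t * ((l * r) • S).card) := by ring
      have h5 : (t - 1) ^ l * (t * ((l * r) • S).card) < (t - 1) ^ l * ((t - 1) * (((l + 1) * r) • S).card) := by
        apply Nat.mul_lt_mul_of_pos_left h2
        apply Nat.pow_pos
        omega
      rw [if_neg (by omega)]
      have h6 : (t - 1) ^ l * ((t - 1) * (((l + 1) * r) • S).card) =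
          (t - 1) ^ (l + 1) * (((l + 1) * r) • S).card := by ring
      omega
  have h1 := key r le_rfl
  rw [if_neg (by omega)] at h1
  have h2 : ((r * r) • S).card ≤ (r ^ 2 + 1) ^ N := by
    refine (card_nsmul_le S _).trans ?_
    rw [show r * r = r ^ 2 by ring]
    exact Nat.pow_le_pow_right (by omega) hN
  have h3 : (t - 1) ^ r * ((r * r) • S).card ≤ (t - 1) ^ r * (r ^ 2 + 1) ^ N :=
    Nat.mul_le_mul_left _ h2
  omega

end growth

section lattice

variable {p : ℕ} [hp : Fact p.Prime]

/-- polynomial with coefficients `c` on the exponent set `E` -/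
noncomputable def phi (R : Type*) [CommRing R] (E : Finset ℕ) : (E → R) →+ R[X] where
  toFun c := ∑ i : E, monomial (i : ℕ) (c i)
  map_zero' := by simp
  map_add' c d := by simp [Finset.sum_add_distrib]

lemma phi_apply {R : Type*} [CommRing R] (E : Finset ℕ) (c : E → R) :
    phi R E c = ∑ i : E, monomial (i : ℕ) (c i) := rfl

lemma phi_coeff {R : Type*} [CommRing R] (E : Finset ℕ) (c : E → R) (i : E) :
    (phi R E c).coeff (i : ℕ) = c i := by
  rw [phi_apply, Polynomial.finsetSum_coeff]
  simp only [Polynomial.coeff_monomial]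
  rw [Finset.sum_eq_single i]
  · simp
  · intro j _ hj
    rw [if_neg]
    intro h
    exact hj (Subtype.ext h)
  · simp

lemma phi_coeff_notMem {R : Type*} [CommRing R] (E : Finset ℕ) (c : E → R) {i : ℕ} (hi : i ∉ E) :
    (phi R E c).coeff i = 0 := by
  rw [phi_apply, Polynomial.finsetSum_coeff]
  apply Finset.sum_eq_zero
  intro j _
  rw [Polynomial.coeff_monomial, if_neg]
  intro h
  exact hi (h ▸ j.2)

lemma phi_support {R : Type*} [CommRing R] (E : Finset ℕ) (c : E → R) :
    (phi R E c).support ⊆ E := by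
  intro i hi
  by_contra h
  rw [Polynomial.mem_support_iff] at hi
  exact hi (phi_coeff_notMem E c h)

lemma phi_of_support {R : Type*} [CommRing R] (E : Finset ℕ) (F : R[X]) (h : F.support ⊆ E) :
    phi R E (fun i => F.coeff (i : ℕ)) = F := by
  ext n
  by_cases hn : n ∈ E
  · exact phi_coeff E _ ⟨n, hn⟩
  · rw [phi_coeff_notMem E _ hn]
    by_contra hc
    exact hn (h (Polynomial.mem_support_iff.mpr (Ne.symm hc)))

lemma phi_injective {R : Type*} [CommRing R] (E : Finset ℕ) : Function.Injective (phi R E) := by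
  intro c d h
  funext i
  rw [← phi_coeff E c i, ← phi_coeff E d i, h]

/-- the standard lift of a polynomial mod p -/
noncomputable def lft (T : (ZMod p)[X]) : ℤ[X] :=
  ∑ i ∈ T.support, monomial i ((T.coeff i).val : ℤ)

lemma lft_coeff (T : (ZMod p)[X]) (n : ℕ) : (lft T).coeff n = ((T.coeff n).val : ℤ) := by
  rw [lft, Polynomial.finsetSum_coeff]
  simp only [Polynomial.coeff_monomial]
  rw [Finset.sum_ite_eq']
  split_ifs with h
  · rfl
  · rw [Polynomial.mem_support_iff, not_not] at h
    rw [h]; simp

lemma red_lft (T : (ZMod p)[X]) : red p (lft T) = T := by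
  ext n
  have : (red p (lft T)).coeff n = (((lft T).coeff n : ℤ) : ZMod p) := by
    simp [red]
  rw [this, lft_coeff]
  simp

lemma support_lft (T : (ZMod p)[X]) : (lft T).support ⊆ T.support := by
  intro n hn
  rw [Polynomial.mem_support_iff, lft_coeff] at hn
  rw [Polynomial.mem_support_iff]
  intro h
  rw [h] at hn
  simp at hn

lemma support_mul_sub {R : Type*} [CommRing R] (F G : R[X]) {A B : Finset ℕ} (hF : F.support ⊆ A)
    (hG : G.support ⊆ B) : (F * G).support ⊆ A + B := by
  intro n hn
  rw [Polynomial.mem_support_iff, Polynomial.coeff_mul] at hn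
  obtain ⟨x, hx, hx2⟩ := Finset.exists_ne_zero_of_sum_ne_zero hn
  rw [Finset.HasAntidiagonal.mem_antidiagonal] at hx
  rw [Finset.mem_add]
  refine ⟨x.1, hF ?_, x.2, hG ?_, hx⟩
  · rw [Polynomial.mem_support_iff]; exact left_ne_zero_of_mul hx2
  · rw [Polynomial.mem_support_iff]; exact right_ne_zero_of_mul hx2

lemma support_pow_sub {R : Type*} [CommRing R] (F : R[X]) {A : Finset ℕ} (hF : F.support ⊆ A)
    (r : ℕ) : (F ^ r).support ⊆ r • A := by
  induction r with
  | zero =>
    rw [pow_zero, zero_smul]
    intro x hx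
    rw [Finset.mem_zero]
    rw [Polynomial.mem_support_iff, Polynomial.coeff_one] at hx
    by_contra h
    rw [if_neg h] at hx
    exact hx rfl
  | succ r ih =>
    rw [pow_succ, succ_nsmul]
    exact support_mul_sub _ _ ih hF

variable (T : (ZMod p)[X])

/-- coefficient vectors of polynomials in `(p, T)^j` supported in `k • supp T` -/
noncomputable def Lam (k j : ℕ) : AddSubgroup ((k • T.support : Finset ℕ) → ℤ) :=
  (Submodule.toAddSubgroup (JJ p (lft T) ^ j)).comap (phi ℤ (k • T.support))

variable {T}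

lemma mem_Lam {k j : ℕ} {c : (k • T.support : Finset ℕ) → ℤ} :
    c ∈ Lam T k j ↔ phi ℤ (k • T.support) c ∈ JJ p (lft T) ^ j := Iff.rfl

/-- coordinatewise reduction mod p -/
noncomputable def rho (p : ℕ) (E : Finset ℕ) : (E → ℤ) →+ (E → ZMod p) where
  toFun c := fun i => (c i : ZMod p)
  map_zero' := by ext; simp
  map_add' c d := by ext; simp

omit hp in
lemma rho_surj (E : Finset ℕ) : Function.Surjective (rho p E) := by
  intro d
  choose e he using fun i => ZMod.intCast_surjective (d i)
  exact ⟨e, funext he⟩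

omit hp in
lemma red_phi (E : Finset ℕ) (c : E → ℤ) : red p (phi ℤ E c) = phi (ZMod p) E (rho p E c) := by
  rw [phi_apply, phi_apply, map_sum]
  apply Finset.sum_congr rfl
  intro i _
  simp [red, rho]

lemma card_rho_Lam (hT : T ≠ 0) {k j r : ℕ} (hjr : j ≤ r) (hrk : r ≤ k) :
    p ^ ((k - r) • T.support).card ≤ Nat.card ((Lam T k j).map (rho p (k • T.support))) := by
  have h1 : p ^ ((k - r) • T.support).card = Nat.card (((k - r) • T.support : Finset ℕ) → ZMod p) := by
    rw [Nat.card_eq_fintype_card, Fintype.card_fun, ZMod.card, Fintype.card_coe]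
  rw [h1]
  have hk : k • T.support = r • T.support + (k - r) • T.support := by
    rw [← add_nsmul]; congr 1; omega
  -- the injection u ↦ T^r * U
  have hsupp : ∀ u : ((k - r) • T.support : Finset ℕ) → ZMod p,
      (T ^ r * phi (ZMod p) _ u).support ⊆ k • T.support := by
    intro u
    rw [hk]
    exact support_mul_sub _ _ (support_pow_sub T subset_rfl r) (phi_support _ _)
  let Φ : (((k - r) • T.support : Finset ℕ) → ZMod p) → ((k • T.support : Finset ℕ) → ZMod p) :=
    fun u i => (T ^ r * phi (ZMod p) _ u).coeff (i : ℕ)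
  have hΦ : ∀ u, phi (ZMod p) _ (Φ u) = T ^ r * phi (ZMod p) _ u := fun u =>
    phi_of_support _ _ (hsupp u)
  have hmem : ∀ u, Φ u ∈ (Lam T k j).map (rho p (k • T.support)) := by
    intro u
    obtain ⟨u', hu'⟩ := rho_surj (p := p) _ u
    have hs : ((lft T) ^ r * phi ℤ _ u').support ⊆ k • T.support := by
      rw [hk]
      exact support_mul_sub _ _ (support_pow_sub _ (support_lft T) r) (phi_support _ _)
    rw [AddSubgroup.mem_map]
    refine ⟨fun i => ((lft T) ^ r * phi ℤ _ u').coeff (i : ℕ), ?_, ?_⟩
    · rw [mem_Lam, phi_of_support _ _ hs]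
      apply Ideal.mul_mem_right
      have h2 : (lft T) ^ r ∈ JJ p (lft T) ^ r := Ideal.pow_mem_pow
        ((le_sup_right : Ideal.span {lft T} ≤ JJ p (lft T)) (Ideal.mem_span_singleton_self _)) r
      exact Ideal.pow_le_pow_right hjr h2
    · apply phi_injective
      rw [hΦ, ← red_phi, phi_of_support _ _ hs, map_mul, map_pow, red_lft, red_phi, hu']
  apply Nat.card_le_card_of_injective (fun u => (⟨Φ u, hmem u⟩ :
    (Lam T k j).map (rho p (k • T.support))))
  intro u v huv
  have h3 : Φ u = Φ v := congrArg Subtype.val huv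
  have h4 : T ^ r * phi (ZMod p) _ u = T ^ r * phi (ZMod p) _ v := by
    rw [← hΦ, ← hΦ, h3]
  exact phi_injective _ (mul_left_cancel₀ (pow_ne_zero _ hT) h4)

/-- multiplication by p -/
def mulp (p : ℕ) (E : Finset ℕ) : (E → ℤ) →+ (E → ℤ) where
  toFun c := fun i => (p : ℤ) * c i
  map_zero' := by ext; simp
  map_add' c d := by ext; simp [mul_add]

lemma index_step (hT : T ≠ 0) {k j r : ℕ} (hjr : j + 1 ≤ r) (hrk : r ≤ k)
    (hne : (Lam T k j).index ≠ 0) :
    (Lam T k (j + 1)).index ≠ 0 ∧
    (Lam T k (j + 1)).index * p ^ ((k - r) • T.support).card ≤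
      (Lam T k j).index * p ^ (k • T.support).card := by
  set E := k • T.support with hE
  set B := Lam T k (j + 1) with hB
  -- index B = index (comap mulp B) * index (B ⊔ range mulp)
  have e1 : (B.comap (mulp p E)).index = B.relIndex (mulp p E).range := AddSubgroup.index_comap _ _
  have e2 : B.relIndex ((mulp p E).range ⊔ B) = B.relIndex (mulp p E).range :=
    AddSubgroup.relIndex_sup_right _ _
  have e3 := AddSubgroup.relIndex_mul_index (show B ≤ (mulp p E).range ⊔ B from le_sup_right)
  rw [e2, ← e1] at e3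
  -- range mulp ⊔ B = comap rho (map rho B)
  have e4 : (rho p E).ker = (mulp p E).range := by
    ext c
    rw [AddMonoidHom.mem_ker, AddMonoidHom.mem_range]
    constructor
    · intro h
      have h1 : ∀ i, ∃ d : ℤ, (p : ℤ) * d = c i := by
        intro i
        have h2 : ((c i : ℤ) : ZMod p) = 0 := congrFun h i
        obtain ⟨d, hd⟩ := (ZMod.intCast_zmod_eq_zero_iff_dvd _ _).1 h2
        exact ⟨d, hd.symm⟩
      choose d hd using h1
      exact ⟨d, funext hd⟩
    · rintro ⟨d, rfl⟩
      funext i
      show (((p : ℤ) * d i : ℤ) : ZMod p) = 0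
      push_cast
      simp
  have e5 : (mulp p E).range ⊔ B = (B.map (rho p E)).comap (rho p E) := by
    rw [AddSubgroup.comap_map_eq, e4, sup_comm]
  have e6 : ((mulp p E).range ⊔ B).index = (B.map (rho p E)).index := by
    rw [e5, AddSubgroup.index_comap_of_surjective _ (rho_surj E)]
  have e7 : Nat.card (B.map (rho p E)) * (B.map (rho p E)).index = p ^ E.card := by
    rw [AddSubgroup.card_mul_index, Nat.card_eq_fintype_card, Fintype.card_fun, ZMod.card,
      Fintype.card_coe]
  have e8 := card_rho_Lam hT hjr hrk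
  have e9 : Lam T k j ≤ B.comap (mulp p E) := by
    intro c hc
    rw [AddSubgroup.mem_comap, hB, mem_Lam]
    rw [mem_Lam] at hc
    have h1 : phi ℤ (k • T.support) (mulp p E c) = C (p : ℤ) * phi ℤ (k • T.support) c := by
      rw [phi_apply, phi_apply, Finset.mul_sum]
      apply Finset.sum_congr rfl
      intro i _
      rw [C_mul_monomial]
      rfl
    rw [h1, pow_succ']
    exact Ideal.mul_mem_mul ((le_sup_left : Ideal.span {C (p : ℤ)} ≤ JJ p (lft T))
      (Ideal.mem_span_singleton_self _)) hc
  have e10 : (B.comap (mulp p E)).index ∣ (Lam T k j).index := AddSubgroup.index_dvd_of_le e9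
  have e11 : (B.comap (mulp p E)).index ≤ (Lam T k j).index := Nat.le_of_dvd (Nat.pos_of_ne_zero hne) e10
  have e12 : (B.comap (mulp p E)).index ≠ 0 := fun h => hne (by
    rw [h] at e10; exact Nat.eq_zero_of_zero_dvd e10)
  have ppos : 0 < p ^ E.card := Nat.pow_pos hp.out.pos
  have e13 : (B.map (rho p E)).index ≠ 0 := by
    intro h
    rw [h, mul_zero] at e7
    omega
  constructor
  · rw [← e3, e6]
    exact mul_ne_zero e12 e13
  · rw [← e3, e6, ← e7]
    calc (B.comap (mulp p E)).index * (B.map (rho p E)).index * p ^ ((k - r) • T.support).card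
        ≤ (Lam T k j).index * (B.map (rho p E)).index * Nat.card (B.map (rho p E)) := by gcongr
      _ = (Lam T k j).index * (Nat.card (B.map (rho p E)) * (B.map (rho p E)).index) := by ring

lemma index_le (hT : T ≠ 0) {k r : ℕ} (hrk : r ≤ k) : ∀ j, j ≤ r →
    (Lam T k j).index ≠ 0 ∧
    (Lam T k j).index * p ^ (j * ((k - r) • T.support).card) ≤ p ^ (j * (k • T.support).card) := by
  intro j
  induction j with
  | zero =>
    intro _
    have : Lam T k 0 = ⊤ := by
      ext c
      rw [mem_Lam, pow_zero, Ideal.one_eq_top]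
      simp
    rw [this, AddSubgroup.index_top]
    simp
  | succ j ih =>
    intro hj
    obtain ⟨h1, h2⟩ := ih (by omega)
    obtain ⟨h3, h4⟩ := index_step hT hj hrk h1
    refine ⟨h3, ?_⟩
    rw [add_mul, one_mul, pow_add, add_mul, one_mul, pow_add]
    calc (Lam T k (j + 1)).index * (p ^ (j * ((k - r) • T.support).card) *
          p ^ ((k - r) • T.support).card)
        = ((Lam T k (j + 1)).index * p ^ ((k - r) • T.support).card) *
          p ^ (j * ((k - r) • T.support).card) := by ring
      _ ≤ ((Lam T k j).index * p ^ (k • T.support).card) *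
          p ^ (j * ((k - r) • T.support).card) := Nat.mul_le_mul_right _ h4
      _ = ((Lam T k j).index * p ^ (j * ((k - r) • T.support).card)) * p ^ (k • T.support).card := by
          ring
      _ ≤ p ^ (j * (k • T.support).card) * p ^ (k • T.support).card := Nat.mul_le_mul_right _ h2

/-- the box principle -/
lemma exists_small (hT : T ≠ 0) {k r s : ℕ} (hrk : r ≤ k)
    (hs : r * (k • T.support).card ≤ r * ((k - r) • T.support).card + s * (k • T.support).card) :
    ∃ G : ℤ[X], G ≠ 0 ∧ G ∈ JJ p (lft T) ^ r ∧ G.support ⊆ k • T.support ∧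
      ∀ i, |G.coeff i| ≤ (p : ℤ) ^ s := by
  obtain ⟨h1, h2⟩ := index_le hT hrk r le_rfl
  set E := k • T.support with hE
  set D := E.card with hD
  have hDpos : 0 < D := by
    rw [hD, hE]
    exact card_nsmul_pos (Polynomial.support_nonempty.mpr hT) k
  have hppos : 0 < p := hp.out.pos
  have h3 : (Lam T k r).index ≤ p ^ (s * D) := by
    have h4 : (Lam T k r).index * p ^ (r * ((k - r) • T.support).card) ≤
        p ^ (s * D) * p ^ (r * ((k - r) • T.support).card) := by
      refine h2.trans ?_
      rw [← pow_add]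
      apply Nat.pow_le_pow_right hppos
      omega
    exact Nat.le_of_mul_le_mul_right h4 (Nat.pow_pos hppos)
  have h5 : (Lam T k r).index < Nat.card (E → Fin (p ^ s + 1)) := by
    rw [Nat.card_eq_fintype_card, Fintype.card_fun, Fintype.card_fin, Fintype.card_coe]
    refine h3.trans_lt ?_
    rw [pow_mul]
    exact Nat.pow_lt_pow_left (Nat.lt_succ_self _) hDpos.ne'
  have hfin : Finite ((E → ℤ) ⧸ Lam T k r) := by
    apply Nat.finite_of_card_ne_zero
    exact h1
  let q : (E → Fin (p ^ s + 1)) → ((E → ℤ) ⧸ Lam T k r) :=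
    fun c => QuotientAddGroup.mk (fun i => ((c i : ℕ) : ℤ))
  have h6 : ¬ Function.Injective q := by
    intro hinj
    have := Nat.card_le_card_of_injective q hinj
    have h7 : Nat.card ((E → ℤ) ⧸ Lam T k r) = (Lam T k r).index := rfl
    omega
  rw [Function.not_injective_iff] at h6
  obtain ⟨a, b, hab, hne⟩ := h6
  have h8 : (fun i => ((b i : ℕ) : ℤ) - ((a i : ℕ) : ℤ)) ∈ Lam T k r := by
    have := (QuotientAddGroup.eq (s := Lam T k r)).1 hab
    convert this using 1
    funext i
    simp [sub_eq_neg_add]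
  refine ⟨phi ℤ E (fun i => ((b i : ℕ) : ℤ) - ((a i : ℕ) : ℤ)), ?_, h8, phi_support _ _, ?_⟩
  · intro h0
    apply hne
    have h9 := phi_injective E (h0.trans (map_zero (phi ℤ E)).symm)
    funext i
    have h10 := congrFun h9 i
    simp only [Pi.zero_apply] at h10
    apply Fin.ext
    omega
  · intro i
    by_cases hi : i ∈ E
    · have := phi_coeff E (fun i => ((b i : ℕ) : ℤ) - ((a i : ℕ) : ℤ)) ⟨i, hi⟩
      simp only at this
      rw [this, abs_le]
      have ha := (a ⟨i, hi⟩).2
      have hb := (b ⟨i, hi⟩).2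
      have hps : ((p ^ s : ℕ) : ℤ) = (p : ℤ) ^ s := by push_cast; rfl
      rw [← hps]
      constructor <;> omega
    · rw [phi_coeff_notMem E _ hi]
      simp

end lattice

end Pool.Agent.H338R2
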