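import Mathlib
import Pool.Agent.H338R2.Pigeon

set_option autoImplicit false

open Polynomial
open scoped Pointwise

namespace Pool.Agent.H338R2

/-- no zero of `f` is `0` or a root of unity -/
def NoCyc (f : ℤ[X]) : Prop :=
  ∀ z : ℂ, (f.map (Int.castRingHom ℂ)).eval z = 0 → z ≠ 0 ∧ ∀ n : ℕ, 0 < n → z ^ n ≠ 1

/-- the parameters -/
structure Params (N t s : ℕ) : Prop where
  ht : 2 ≤ t
  hs : 1 ≤ s
  hP : ((t * s) ^ 2 + 1) ^ N ≤ 2 ^ s

lemma exists_params (N t : ℕ) (ht : 2 ≤ t) : ∃ s, Params N t s := by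
  -- polynomial growth against exponential growth
  have h1 : Filter.Tendsto (fun s : ℕ => ((s : ℝ) ^ (2 * N)) / (2 : ℝ) ^ s) Filter.atTop (nhds 0) :=
    tendsto_pow_const_div_const_pow_of_one_lt (2 * N) (by norm_num)
  have hc : (0 : ℝ) < 1 / ((2 * t) ^ (2 * N) : ℝ) := by positivity
  have h2 := (h1.eventually (gt_mem_nhds hc)).and (Filter.eventually_ge_atTop 1)
  obtain ⟨s, h3, h4⟩ := h2.exists
  refine ⟨s, ht, h4, ?_⟩
  have h5 : (s : ℝ) ^ (2 * N) * (2 * t) ^ (2 * N) ≤ (2 : ℝ) ^ s := by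
    have h6 : (0 : ℝ) < (2 : ℝ) ^ s := by positivity
    rw [div_lt_div_iff₀ h6 (by positivity)] at h3
    linarith
  have h7 : (((t * s) ^ 2 + 1 : ℕ) : ℝ) ≤ ((2 * t * s : ℕ) : ℝ) ^ 2 := by
    have hts : 1 ≤ t * s := Nat.mul_pos (by omega) (by omega)
    have : (t * s) ^ 2 + 1 ≤ (2 * t * s) ^ 2 := by nlinarith
    exact_mod_cast this
  have h8 : ((((t * s) ^ 2 + 1) ^ N : ℕ) : ℝ) ≤ ((2 ^ s : ℕ) : ℝ) := by
    push_cast
    push_cast at h7
    calc (((t : ℝ) * s) ^ 2 + 1) ^ N ≤ ((2 * t * s) ^ 2) ^ N := by gcongr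
      _ = (s : ℝ) ^ (2 * N) * (2 * t) ^ (2 * N) := by
          rw [← pow_mul, ← mul_pow]; congr 1; ring
      _ ≤ 2 ^ s := h5
  exact_mod_cast h8

lemma Params.pow_le {N t s : ℕ} (h : Params N t s) :
    (t - 1) ^ (t * s) * ((t * s) ^ 2 + 1) ^ N ≤ t ^ (t * s) := by
  have ht := h.ht
  have h1 : 2 * (t - 1) ^ t ≤ t ^ t := by
    obtain ⟨u, rfl⟩ : ∃ u, t = u + 1 := ⟨t - 1, by omega⟩
    have hu : 1 ≤ u := by omega
    rw [Nat.add_sub_cancel]
    -- (u+1)^(u+1) ≥ 2 u^(u+1)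
    have hb : (2 : ℝ) ≤ (1 + 1 / (u : ℝ)) ^ u := by
      have := one_add_mul_le_pow (a := 1 / (u : ℝ)) (by
        have : (0 : ℝ) ≤ 1 / (u : ℝ) := by positivity
        linarith) u
      have hu' : (u : ℝ) ≠ 0 := by
        have : (0 : ℝ) < u := by exact_mod_cast hu
        exact this.ne'
      have h2 : (u : ℝ) * (1 / (u : ℝ)) = 1 := by field_simp
      linarith
    have hu' : (0 : ℝ) < (u : ℝ) := by exact_mod_cast hu
    have h3 : (2 : ℝ) * (u : ℝ) ^ (u + 1) ≤ ((u : ℝ) + 1) ^ (u + 1) := by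
      have h4 : ((u : ℝ) + 1) ^ u = (1 + 1 / (u : ℝ)) ^ u * (u : ℝ) ^ u := by
        rw [← mul_pow]; congr 1; field_simp
      rw [pow_succ, pow_succ, h4]
      have h5 : (0 : ℝ) < (u : ℝ) ^ u := by positivity
      nlinarith [mul_le_mul_of_nonneg_right hb h5.le, mul_pos h5 hu']
    exact_mod_cast h3
  calc (t - 1) ^ (t * s) * ((t * s) ^ 2 + 1) ^ N ≤ (t - 1) ^ (t * s) * 2 ^ s :=
        Nat.mul_le_mul_left _ h.hP
    _ = (2 * (t - 1) ^ t) ^ s := by rw [mul_pow, ← pow_mul]; ring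
    _ ≤ (t ^ t) ^ s := Nat.pow_le_pow_left h1 s
    _ = t ^ (t * s) := by rw [← pow_mul]

variable {p : ℕ} [hp : Fact p.Prime]

/-- the auxiliary polynomial -/
lemma exists_aux {N t s : ℕ} (hpar : Params N t s) {T : (ZMod p)[X]} (hT : T ≠ 0)
    (hN : T.support.card ≤ N) :
    ∃ G : ℤ[X], G ≠ 0 ∧ G ∈ JJ p (lft T) ^ (t * s) ∧ G.support.card ≤ ((t * s) ^ 2 + 1) ^ N ∧
      len G ≤ ((p ^ (2 * s) : ℕ) : ℤ) ∧ G.natDegree ≤ (t * s) ^ 2 * T.natDegree := by
  have ht := hpar.ht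
  have hs := hpar.hs
  have hr : 1 ≤ t * s := Nat.mul_pos (by omega) (by omega)
  set r := t * s with hrdef
  obtain ⟨l, hl, hslow⟩ := exists_slow T.support N t r hN ht hr hpar.pow_le
  have hk : (l + 1) * r - r = l * r := by rw [add_mul, one_mul, Nat.add_sub_cancel]
  have hkr : (l + 1) * r ≤ r ^ 2 := by nlinarith
  obtain ⟨G, hG0, hGJ, hGs, hGc⟩ := exists_small (p := p) (T := T) hT (k := (l + 1) * r) (r := r)
    (s := s) (by nlinarith) (by
      rw [hk]
      have h1 : t * (((l + 1) * r) • T.support).card ≤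
          t * ((l * r) • T.support).card + (((l + 1) * r) • T.support).card := by
        obtain ⟨u, rfl⟩ : ∃ u, t = u + 1 := ⟨t - 1, by omega⟩
        rw [Nat.add_sub_cancel] at hslow
        nlinarith
      calc r * (((l + 1) * r) • T.support).card = s * (t * (((l + 1) * r) • T.support).card) := by
            rw [hrdef]; ring
        _ ≤ s * (t * ((l * r) • T.support).card + (((l + 1) * r) • T.support).card) :=
            Nat.mul_le_mul_left _ h1
        _ = r * ((l * r) • T.support).card + s * (((l + 1) * r) • T.support).card := by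
            rw [hrdef]; ring)
  have hcard : (((l + 1) * r) • T.support).card ≤ (r ^ 2 + 1) ^ N := by
    refine (card_nsmul_le _ _).trans ?_
    calc ((l + 1) * r + 1) ^ T.support.card ≤ (r ^ 2 + 1) ^ T.support.card :=
          Nat.pow_le_pow_left (by omega) _
      _ ≤ (r ^ 2 + 1) ^ N := Nat.pow_le_pow_right (by omega) hN
  refine ⟨G, hG0, hGJ, (Finset.card_le_card hGs).trans hcard, ?_, ?_⟩
  · have h1 : len G ≤ (G.support.card : ℤ) * (p : ℤ) ^ s := by
      rw [len]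
      refine (Finset.sum_le_card_nsmul _ _ _ (fun i _ => hGc i)).trans ?_
      simp
    have h2 : (G.support.card : ℤ) ≤ ((p ^ s : ℕ) : ℤ) := by
      have h3 : G.support.card ≤ p ^ s :=
        ((Finset.card_le_card hGs).trans hcard).trans (hpar.hP.trans
          (Nat.pow_le_pow_left hp.out.two_le s))
      exact_mod_cast h3
    calc len G ≤ (G.support.card : ℤ) * (p : ℤ) ^ s := h1
      _ ≤ ((p ^ s : ℕ) : ℤ) * (p : ℤ) ^ s := by gcongr
      _ = ((p ^ (2 * s) : ℕ) : ℤ) := by push_cast; ring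
  · have hS : ∀ x ∈ T.support, x ≤ T.natDegree := fun x hx => Polynomial.le_natDegree_of_mem_supp x hx
    rw [Polynomial.natDegree_le_iff_coeff_eq_zero]
    intro n hn
    by_contra hc
    have h1 := le_of_mem_nsmul hS ((l + 1) * r) n (hGs (Polynomial.mem_support_iff.mpr hc))
    have h2 : (l + 1) * r * T.natDegree ≤ r ^ 2 * T.natDegree := Nat.mul_le_mul_right _ hkr
    omega

/-- the case when `f` does not divide the auxiliary polynomial -/
lemma case_not_dvd {t s : ℕ} {T g : (ZMod p)[X]} {f G : ℤ[X]} (hf : f.Monic)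
    (hirr : Irreducible f) (hgT : g ∣ T) (hgf : g ∣ red p f) (hT : T ≠ 0)
    (hdeg : 3 * f.natDegree ≤ t * g.natDegree) (hG : G ∈ JJ p (lft T) ^ (t * s))
    (hlen : len G ≤ ((p ^ (2 * s) : ℕ) : ℤ)) (hnd : ¬ f ∣ G) :
    (2 : ℝ) ^ (s * f.natDegree) ≤ (MZ f) ^ G.natDegree := by
  have hg0 : g ≠ 0 := fun h => by rw [h, zero_dvd_iff] at hgT; exact hT hgT
  -- normalise g to be monic and lift it
  obtain ⟨g₁, hg₁m, hg₁d, hg₁T, hg₁f⟩ : ∃ g₁ : (ZMod p)[X], g₁.Monic ∧ g₁.natDegree = g.natDegree ∧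
      g₁ ∣ T ∧ g₁ ∣ red p f := by
    refine ⟨C (g.leadingCoeff)⁻¹ * g, ?_, ?_, ?_, ?_⟩
    · rw [mul_comm]; exact Polynomial.monic_mul_leadingCoeff_inv hg0
    · rw [mul_comm]; exact Polynomial.natDegree_mul_leadingCoeff_inv _ hg0
    · have hu : IsUnit (C (g.leadingCoeff)⁻¹ : (ZMod p)[X]) :=
        Polynomial.isUnit_C.mpr (isUnit_iff_ne_zero.mpr (inv_ne_zero (leadingCoeff_ne_zero.mpr hg0)))
      exact (hu.mul_left_dvd).mpr hgT
    · have hu : IsUnit (C (g.leadingCoeff)⁻¹ : (ZMod p)[X]) :=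
        Polynomial.isUnit_C.mpr (isUnit_iff_ne_zero.mpr (inv_ne_zero (leadingCoeff_ne_zero.mpr hg0)))
      exact (hu.mul_left_dvd).mpr hgf
  have hsurj : Function.Surjective (red p) := by
    apply Polynomial.map_surjective
    exact ZMod.intCast_surjective
  have hlift : g₁ ∈ Polynomial.lifts (Int.castRingHom (ZMod p)) := by
    rw [Polynomial.mem_lifts]
    exact hsurj g₁
  obtain ⟨gt, hgt1, hgt2, hgt3⟩ := Polynomial.lifts_and_natDegree_eq_and_monic hlift hg₁m
  have hgt1' : red p gt = g₁ := hgt1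
  -- memberships
  have hmem : ∀ w : ℤ[X], g₁ ∣ red p w → w ∈ JJ p gt := by
    intro w hw
    obtain ⟨v, hv⟩ := hw
    obtain ⟨v', hv'⟩ := hsurj v
    obtain ⟨c, hc⟩ := C_dvd_of_map_eq_zero p (w - gt * v') (by
      have : red p (w - gt * v') = 0 := by
        rw [map_sub, map_mul, hv', hgt1', hv, sub_self]
      exact this)
    have h1 : w = C (p : ℤ) * c + gt * v' := by rw [← hc]; ring
    rw [h1]
    exact add_mem (Ideal.mem_sup_left (Ideal.mul_mem_right _ _ (Ideal.mem_span_singleton_self _)))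
      (Ideal.mem_sup_right (Ideal.mul_mem_right _ _ (Ideal.mem_span_singleton_self _)))
  have hle : JJ p (lft T) ≤ JJ p gt := by
    apply sup_le
    · exact le_sup_left
    · rw [Ideal.span_singleton_le_iff_mem]
      apply hmem
      rw [red_lft]
      exact hg₁T
  have hG' : G ∈ JJ p gt ^ (t * s) := Ideal.pow_right_mono hle _ hG
  have hfJ : f ∈ JJ p gt := hmem f hg₁f
  have hres : resultant f G ≠ 0 := res_ne_zero hf hirr hnd _ le_rfl
  have hlow := res_lower_p hgt3 hf hfJ (t * s) hG' hres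
  have hup := res_upper hf G _ le_rfl
  rw [hgt2, hg₁d] at hlow
  have h1 : (p : ℝ) ^ (t * s * g.natDegree) ≤ |((resultant f G : ℤ) : ℝ)| := by
    have : ((p ^ (t * s * g.natDegree) : ℕ) : ℝ) ≤ (((resultant f G).natAbs : ℕ) : ℝ) := by
      exact_mod_cast hlow
    rw [Nat.cast_natAbs, Int.cast_abs] at this
    push_cast at this
    exact this
  have hp2 : (2 : ℝ) ≤ (p : ℝ) := by exact_mod_cast hp.out.two_le
  have h2 : (p : ℝ) ^ (3 * s * f.natDegree) ≤ (p : ℝ) ^ (t * s * g.natDegree) := by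
    apply pow_le_pow_right₀ (by linarith)
    calc 3 * s * f.natDegree = s * (3 * f.natDegree) := by ring
      _ ≤ s * (t * g.natDegree) := Nat.mul_le_mul_left _ hdeg
      _ = t * s * g.natDegree := by ring
  have h3 : (len G : ℝ) ^ f.natDegree ≤ (p : ℝ) ^ (2 * s * f.natDegree) := by
    have h4 : (len G : ℝ) ≤ (p : ℝ) ^ (2 * s) := by
      have : ((len G : ℤ) : ℝ) ≤ (((p ^ (2 * s) : ℕ) : ℤ) : ℝ) := by exact_mod_cast hlen
      push_cast at this
      exact this
    rw [pow_mul]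
    have h5 : (0 : ℝ) ≤ (len G : ℝ) := by exact_mod_cast len_nonneg G
    exact pow_le_pow_left₀ h5 h4 _
  have hM1 := one_le_MZ hf
  have h6 : (p : ℝ) ^ (2 * s * f.natDegree) * (p : ℝ) ^ (s * f.natDegree) ≤
      (p : ℝ) ^ (2 * s * f.natDegree) * (MZ f) ^ G.natDegree := by
    have h7 : (p : ℝ) ^ (2 * s * f.natDegree) * (p : ℝ) ^ (s * f.natDegree) =
        (p : ℝ) ^ (3 * s * f.natDegree) := by
      rw [← pow_add]; congr 1; ring
    rw [h7]
    refine h2.trans (h1.trans (hup.trans ?_))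
    gcongr
  have h8 := le_of_mul_le_mul_left h6 (by positivity)
  refine le_trans ?_ h8
  exact pow_le_pow_left₀ (by norm_num) hp2 _

lemma pow_mono_MZ {f : ℤ[X]} (hf : f.Monic) {a b : ℕ} (h : a ≤ b) : (MZ f) ^ a ≤ (MZ f) ^ b :=
  pow_le_pow_right₀ (one_le_MZ hf) h

/-- irreducible case, constant depending on the prime -/
lemma irr_fixed (N t : ℕ) (ht : 2 ≤ t) (p : ℕ) [hp : Fact p.Prime] :
    ∃ A : ℕ, ∀ (f : ℤ[X]) (T g : (ZMod p)[X]), f.Monic → Irreducible f → NoCyc f →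
      T ≠ 0 → T.support.card ≤ N → g ∣ T → g ∣ red p f → 3 * f.natDegree ≤ t * g.natDegree →
      (2 : ℝ) ^ f.natDegree ≤ (MZ f) ^ (A * T.natDegree) := by
  obtain ⟨s, hpar⟩ := exists_params N t ht
  set nm := 1 + primorial (2 * p ^ (2 * s)) * ((t * s) ^ 2 + 1) ^ N with hnm
  refine ⟨(t * s) ^ 2 * nm, ?_⟩
  intro f T g hf hirr hcyc hT hN hgT hgf hdeg
  obtain ⟨G, hG0, hGJ, hGcard, hGlen, hGdeg⟩ := exists_aux (p := p) hpar hT hN
  have hnm1 : 1 ≤ nm := by omega
  by_cases hd : f ∣ G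
  · by_contra hcon
    push Not at hcon
    apply not_dvd_small hf hirr hd hG0 hcyc (p ^ (2 * s)) (Nat.one_le_pow _ _ hp.out.pos) hGlen
      (((t * s) ^ 2 + 1) ^ N) hGcard
    refine lt_of_le_of_lt (pow_mono_MZ hf ?_) hcon
    rw [← hnm]
    calc G.natDegree * nm ≤ ((t * s) ^ 2 * T.natDegree) * nm := Nat.mul_le_mul_right _ hGdeg
      _ = (t * s) ^ 2 * nm * T.natDegree := by ring
  · have h1 := case_not_dvd hf hirr hgT hgf hT hdeg hGJ hGlen hd
    have hs := hpar.hs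
    calc (2 : ℝ) ^ f.natDegree ≤ 2 ^ (s * f.natDegree) := by
          apply pow_le_pow_right₀ (by norm_num)
          nlinarith
      _ ≤ (MZ f) ^ G.natDegree := h1
      _ ≤ (MZ f) ^ ((t * s) ^ 2 * nm * T.natDegree) := by
          apply pow_mono_MZ hf
          calc G.natDegree ≤ (t * s) ^ 2 * T.natDegree := hGdeg
            _ ≤ (t * s) ^ 2 * T.natDegree * nm := Nat.le_mul_of_pos_right _ hnm1
            _ = (t * s) ^ 2 * nm * T.natDegree := by ring

instance : Fact (Nat.Prime 2) := ⟨Nat.prime_two⟩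

lemma natDegree_red {p : ℕ} [Fact p.Prime] {f : ℤ[X]} (hf : f.Monic) :
    (red p f).natDegree = f.natDegree := hf.natDegree_map _

/-- irreducible case, constant uniform in the prime -/
lemma irr_uniform (N t : ℕ) (ht : 2 ≤ t) :
    ∃ A : ℕ, 1 ≤ A ∧ ∀ (p : ℕ) [Fact p.Prime] (f : ℤ[X]) (T g : (ZMod p)[X]), f.Monic →
      Irreducible f → NoCyc f → T ≠ 0 → T.support.card ≤ N → g ∣ T → g ∣ red p f →
      3 * f.natDegree ≤ t * g.natDegree → (2 : ℝ) ^ f.natDegree ≤ (MZ f) ^ (A * T.natDegree) := by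
  obtain ⟨s, hpar⟩ := exists_params N t ht
  obtain ⟨A₂, hA₂⟩ := irr_fixed (((t * s) ^ 2 + 1) ^ N) 3 (by norm_num) 2
  have hs := hpar.hs
  have hts : 1 ≤ (t * s) ^ 2 := Nat.one_le_pow _ _ (Nat.mul_pos (by omega) (by omega))
  refine ⟨(t * s) ^ 2 * (A₂ + 1), Nat.mul_pos hts (by omega), ?_⟩
  intro p hp f T g hf hirr hcyc hT hN hgT hgf hdeg
  obtain ⟨G, hG0, hGJ, hGcard, hGlen, hGdeg⟩ := exists_aux (p := p) hpar hT hN
  by_cases hd : f ∣ G
  · -- pass to the primitive part modulo 2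
    set G₁ := G.primPart with hG₁
    have hprim : f.IsPrimitive := hf.isPrimitive
    have hd1 : f ∣ G₁ := by
      rw [hG₁]
      exact (hprim.dvd_primPart_iff_dvd hG0).mpr hd
    have hT2 : red 2 G₁ ≠ 0 := by
      intro h0
      obtain ⟨v, hv⟩ := C_dvd_of_map_eq_zero 2 G₁ h0
      have h1 : IsUnit ((2 : ℕ) : ℤ) := by
        apply (G.isPrimitive_primPart) _
        exact ⟨v, hv⟩
      rw [Int.isUnit_iff] at h1
      omega
    have hsub : (red 2 G₁).support ⊆ G.support := by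
      intro i hi
      rw [Polynomial.mem_support_iff] at hi ⊢
      intro h0
      apply hi
      have h1 : (red 2 G₁).coeff i = ((G₁.coeff i : ℤ) : ZMod 2) := by simp [red]
      have h2 : G.coeff i = G.content * G₁.coeff i := by
        conv_lhs => rw [G.eq_C_content_mul_primPart]
        rw [Polynomial.coeff_C_mul]
      have h3 : G.content ≠ 0 := by
        rw [Ne, Polynomial.content_eq_zero_iff]; exact hG0
      rw [h0, eq_comm, mul_eq_zero] at h2
      rcases h2 with h2 | h2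
      · exact absurd h2 h3
      · rw [h1, h2]; simp
    have hcard2 : (red 2 G₁).support.card ≤ ((t * s) ^ 2 + 1) ^ N :=
      (Finset.card_le_card hsub).trans hGcard
    have hdeg2 : (red 2 G₁).natDegree ≤ (t * s) ^ 2 * T.natDegree := by
      refine le_trans ?_ hGdeg
      rw [Polynomial.natDegree_le_iff_coeff_eq_zero]
      intro n hn
      by_contra hc
      have := hsub (Polynomial.mem_support_iff.mpr hc)
      have := Polynomial.le_natDegree_of_mem_supp n this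
      omega
    have hdvd2 : red 2 f ∣ red 2 G₁ := by
      obtain ⟨h, hh⟩ := hd1
      exact ⟨red 2 h, by rw [hh, map_mul]⟩
    have h1 := hA₂ f (red 2 G₁) (red 2 f) hf hirr hcyc hT2 hcard2 hdvd2 dvd_rfl (by
      rw [natDegree_red hf])
    refine h1.trans (pow_mono_MZ hf ?_)
    calc A₂ * (red 2 G₁).natDegree ≤ A₂ * ((t * s) ^ 2 * T.natDegree) := Nat.mul_le_mul_left _ hdeg2
      _ ≤ (t * s) ^ 2 * (A₂ + 1) * T.natDegree := by nlinarith [Nat.zero_le ((t * s) ^ 2 * T.natDegree)]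
  · have h1 := case_not_dvd hf hirr hgT hgf hT hdeg hGJ hGlen hd
    calc (2 : ℝ) ^ f.natDegree ≤ 2 ^ (s * f.natDegree) := by
          apply pow_le_pow_right₀ (by norm_num)
          nlinarith
      _ ≤ (MZ f) ^ G.natDegree := h1
      _ ≤ (MZ f) ^ ((t * s) ^ 2 * (A₂ + 1) * T.natDegree) := by
          apply pow_mono_MZ hf
          calc G.natDegree ≤ (t * s) ^ 2 * T.natDegree := hGdeg
            _ ≤ (t * s) ^ 2 * (A₂ + 1) * T.natDegree := by
              nlinarith [Nat.zero_le ((t * s) ^ 2 * T.natDegree * A₂)]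

end Pool.Agent.H338R2
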