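import Mathlib
import Pool.Agent.H338R2.IndexN
import Pool.Agent.H338R2.Irred

set_option autoImplicit false

open Polynomial

namespace Pool.Agent.H338R2

/-- evaluation at a complex number -/
noncomputable abbrev evC (z : ℂ) (G : ℤ[X]) : ℂ := (G.map (Int.castRingHom ℂ)).eval z

lemma exists_zero {f : ℤ[X]} (hf : f.Monic) (hirr : Irreducible f) : ∃ z : ℂ, evC z f = 0 := by
  have h1 : 0 < f.natDegree := hf.natDegree_pos_of_not_isUnit hirr.not_isUnit
  have h2 : (f.map (Int.castRingHom ℂ)).degree ≠ 0 := by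
    rw [Polynomial.degree_eq_natDegree (hf.map _).ne_zero, natDegree_mapC]
    exact_mod_cast h1.ne'
  obtain ⟨z, hz⟩ := IsAlgClosed.exists_root _ h2
  exact ⟨z, hz⟩

lemma evC_eq_zero_of_dvd {f G : ℤ[X]} (h : f ∣ G) {z : ℂ} (hz : evC z f = 0) : evC z G = 0 := by
  obtain ⟨u, rfl⟩ := h
  simp only [evC, Polynomial.map_mul, Polynomial.eval_mul]
  rw [show (f.map (Int.castRingHom ℂ)).eval z = 0 from hz, zero_mul]

/-- the basic inequality -/
lemma bound_of_mem {p : ℕ} [hp : Fact (1 < p)] {f G : ℤ[X]} (hf : f.Monic) (hirr : Irreducible f)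
    (r m : ℕ) (C0 : ℝ) (hG : G ∈ JJ p f ^ r) (hnd : ¬ f ∣ G)
    (hb : ∀ z : ℂ, ‖evC z G‖ ≤ C0 * (max 1 ‖z‖) ^ m) :
    ((p : ℝ) ^ r) ^ f.natDegree ≤ C0 ^ f.natDegree * (MZ f) ^ m := by
  have hres : resultant f G ≠ 0 := res_ne_zero hf hirr hnd _ le_rfl
  have hfJ : f ∈ JJ p f := Ideal.mem_sup_right (Ideal.mem_span_singleton_self _)
  have hlow := res_lower_n (n := p) hf hf hfJ r hG hres
  have h1 : ((p : ℝ) ^ r) ^ f.natDegree ≤ |((resultant f G : ℤ) : ℝ)| := by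
    have : ((p ^ (r * f.natDegree) : ℕ) : ℝ) ≤
        (((resultant f G).natAbs : ℕ) : ℝ) := by exact_mod_cast hlow
    rw [Nat.cast_natAbs, Int.cast_abs, pow_mul] at this
    push_cast at this
    exact this
  have h2 : |((resultant f G : ℤ) : ℝ)| = ‖((resultant f G : ℤ) : ℂ)‖ := by
    rw [Complex.norm_intCast]
  refine h1.trans ?_
  rw [h2, res_eq hf G _ le_rfl]
  refine (prod_norm_le _ _ (fun z => C0 * (max 1 ‖z‖) ^ m) (fun z _ => hb z)).trans ?_
  rw [Multiset.prod_map_mul, Multiset.map_const', Multiset.prod_replicate, card_roots,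
    Multiset.prod_map_pow, ← MZ_monic hf]

lemma C_mem_JJ (p : ℕ) (f : ℤ[X]) : C (p : ℤ) ∈ JJ p f :=
  Ideal.mem_sup_left (Ideal.mem_span_singleton_self _)

lemma mem_JJ_pow_two {p : ℕ} {f a b : ℤ[X]} (ha : a ∈ JJ p f) (hb : b ∈ JJ p f) :
    a * b ∈ JJ p f ^ 2 := by
  rw [pow_two]; exact Ideal.mul_mem_mul ha hb

lemma norm_pow_le_max (z : ℂ) (k : ℕ) : ‖z ^ k‖ ≤ (max 1 ‖z‖) ^ k := by
  rw [norm_pow]
  exact pow_le_pow_left₀ (norm_nonneg _) (le_max_right _ _) _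

lemma one_le_max_pow (z : ℂ) (k : ℕ) : 1 ≤ (max 1 ‖z‖) ^ k := one_le_pow₀ (le_max_left _ _)

/-- `z ^ j = ± z ^ l` is impossible for `j < l` -/
lemma pow_ne {f : ℤ[X]} (hc : NoCyc f) {z : ℂ} (hz : evC z f = 0) {j l : ℕ} (hjl : j < l) :
    z ^ j ≠ z ^ l := by
  intro h
  obtain ⟨h0, h1⟩ := hc z hz
  have h2 : z ^ j * 1 = z ^ j * z ^ (l - j) := by
    rw [mul_one, ← pow_add, h]
    congr 1
    omega
  have h3 := mul_left_cancel₀ (pow_ne_zero _ h0) h2
  exact h1 (l - j) (by omega) h3.symm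

lemma sgn_sq {s : ℤ} (hs : s = 1 ∨ s = -1) : s * s = 1 := by
  rcases hs with rfl | rfl <;> norm_num

lemma sgnC_sq {s : ℤ} (hs : s = 1 ∨ s = -1) : ((s : ℂ)) * s = 1 := by
  rcases hs with rfl | rfl <;> norm_num

lemma pow_add_sgn_ne {f : ℤ[X]} (hc : NoCyc f) {z : ℂ} (hz : evC z f = 0) {j l : ℕ} (hjl : j < l)
    {s : ℤ} (hs : s = 1 ∨ s = -1) : z ^ j + s * z ^ l ≠ 0 := by
  intro h
  have h1 : z ^ (2 * j) = z ^ (2 * l) := by
    have h2 : z ^ j = - (s * z ^ l) := eq_neg_of_add_eq_zero_left h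
    rw [mul_comm 2 j, mul_comm 2 l, pow_mul, pow_mul, h2]
    rcases hs with rfl | rfl <;> push_cast <;> ring
  exact pow_ne hc hz (by omega) h1

/-- two-term case -/
lemma two_terms {q : ℕ} (hq : q.Prime) {f : ℤ[X]} (hf : f.Monic) (hirr : Irreducible f)
    (hc : NoCyc f) {j l : ℕ} (hjl : j < l) {s : ℤ} (hs : s = 1 ∨ s = -1)
    (hmem : X ^ j + C s * X ^ l ∈ JJ q f) :
    (2 : ℝ) ^ f.natDegree ≤ (MZ f) ^ (2 * l) := by
  have : Fact (1 < q) := ⟨hq.one_lt⟩
  have hM1 := one_le_MZ hf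
  obtain ⟨z, hz⟩ := exists_zero hf hirr
  rcases hq.eq_two_or_odd with h2 | h2
  · subst h2
    have hG : (X ^ j + C s * X ^ l) * (X ^ j - C s * X ^ l) ∈ JJ 2 f ^ 2 := by
      apply mem_JJ_pow_two hmem
      have : (X ^ j - C s * X ^ l : ℤ[X]) = (X ^ j + C s * X ^ l) - C ((2 : ℕ) : ℤ) * (C s * X ^ l) := by
        have : (C ((2 : ℕ) : ℤ) : ℤ[X]) = 2 := by simp
        rw [this]; ring
      rw [this]
      exact sub_mem hmem (Ideal.mul_mem_right _ _ (C_mem_JJ _ _))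
    have hev : ∀ w : ℂ, evC w ((X ^ j + C s * X ^ l) * (X ^ j - C s * X ^ l)) =
        w ^ (2 * j) - w ^ (2 * l) := by
      intro w
      simp only [evC, Polynomial.map_mul, Polynomial.map_add, Polynomial.map_sub,
        Polynomial.map_pow, Polynomial.map_X, Polynomial.map_C, Polynomial.eval_mul,
        Polynomial.eval_add, Polynomial.eval_sub, Polynomial.eval_pow, Polynomial.eval_X,
        Polynomial.eval_C]
      simp only [eq_intCast]
      linear_combination (- (w ^ l) ^ 2) * sgnC_sq hs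
    have hb := bound_of_mem (p := 2) hf hirr 2 (2 * l) 2 hG (by
      intro hd
      have := evC_eq_zero_of_dvd hd hz
      rw [hev, sub_eq_zero] at this
      exact pow_ne hc hz (by omega) this) (by
      intro w
      rw [hev]
      have h1 := norm_pow_le_max w (2 * j)
      have h2 := norm_pow_le_max w (2 * l)
      have h3 : (max 1 ‖w‖) ^ (2 * j) ≤ (max 1 ‖w‖) ^ (2 * l) :=
        pow_le_pow_right₀ (le_max_left _ _) (by omega)
      calc ‖w ^ (2 * j) - w ^ (2 * l)‖ ≤ ‖w ^ (2 * j)‖ + ‖w ^ (2 * l)‖ := norm_sub_le _ _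
        _ ≤ 2 * (max 1 ‖w‖) ^ (2 * l) := by linarith)
    have h3 : (2 : ℝ) ^ f.natDegree * 2 ^ f.natDegree ≤ 2 ^ f.natDegree * MZ f ^ (2 * l) := by
      refine le_trans (le_of_eq ?_) hb
      rw [← mul_pow]; norm_num
    exact le_of_mul_le_mul_left h3 (by positivity)
  · have hq3 : 3 ≤ q := by
      have := hq.two_le
      omega
    have hev : ∀ w : ℂ, evC w (X ^ j + C s * X ^ l) = w ^ j + s * w ^ l := by
      intro w
      simp [evC]
    have hb := bound_of_mem (p := q) hf hirr 1 l 2 (by rw [pow_one]; exact hmem) (by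
      intro hd
      have := evC_eq_zero_of_dvd hd hz
      rw [hev] at this
      exact pow_add_sgn_ne hc hz hjl hs this) (by
      intro w
      rw [hev]
      have h1 := norm_pow_le_max w j
      have h2 := norm_pow_le_max w l
      have h3 : (max 1 ‖w‖) ^ j ≤ (max 1 ‖w‖) ^ l :=
        pow_le_pow_right₀ (le_max_left _ _) (by omega)
      have h4 : ‖(s : ℂ) * w ^ l‖ = ‖w ^ l‖ := by
        rcases hs with rfl | rfl <;> simp
      calc ‖w ^ j + s * w ^ l‖ ≤ ‖w ^ j‖ + ‖(s : ℂ) * w ^ l‖ := norm_add_le _ _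
        _ ≤ 2 * (max 1 ‖w‖) ^ l := by rw [h4]; linarith)
    rw [pow_one] at hb
    have hq3R : (3 : ℝ) ≤ q := by exact_mod_cast hq3
    have h4 : (3 / 2 : ℝ) ^ f.natDegree ≤ MZ f ^ l := by
      have h5 : (3 : ℝ) ^ f.natDegree ≤ 2 ^ f.natDegree * MZ f ^ l :=
        (pow_le_pow_left₀ (by norm_num) hq3R _).trans hb
      rw [div_pow, div_le_iff₀ (by positivity)]
      linarith
    calc (2 : ℝ) ^ f.natDegree ≤ ((3 / 2 : ℝ) ^ 2) ^ f.natDegree := by gcongr; norm_num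
      _ = ((3 / 2 : ℝ) ^ f.natDegree) ^ 2 := by rw [← pow_mul, ← pow_mul, mul_comm]
      _ ≤ (MZ f ^ l) ^ 2 := by gcongr
      _ = MZ f ^ (2 * l) := by rw [← pow_mul, mul_comm]

/-- the polynomial `a + b x^k + b s x^l + a s x^(k+l)` -/
noncomputable def TT (a b s : ℤ) (k l : ℕ) : ℤ[X] :=
  C a + C b * X ^ k + C (b * s) * X ^ l + C (a * s) * X ^ (k + l)

lemma evC_TT (a b s : ℤ) (k l : ℕ) (w : ℂ) :
    evC w (TT a b s k l) = a + b * w ^ k + b * (s * w ^ l) + a * (w ^ k * (s * w ^ l)) := by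
  simp only [evC, TT, Polynomial.map_mul, Polynomial.map_add,
        Polynomial.map_pow, Polynomial.map_X, Polynomial.map_C, Polynomial.eval_mul,
        Polynomial.eval_add, Polynomial.eval_pow, Polynomial.eval_X,
        Polynomial.eval_C]
  simp only [eq_intCast]
  push_cast
  ring

lemma norm_TT (a b s : ℤ) (hs : s = 1 ∨ s = -1) (k l : ℕ) (w : ℂ) :
    ‖evC w (TT a b s k l)‖ ≤ (2 * (|(a : ℝ)| + |(b : ℝ)|)) * (max 1 ‖w‖) ^ (k + l) := by
  rw [evC_TT]
  have hsn : ‖(s : ℂ)‖ = 1 := by rcases hs with rfl | rfl <;> simp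
  have ha : ‖(a : ℂ)‖ = |(a : ℝ)| := Complex.norm_intCast a
  have hb : ‖(b : ℂ)‖ = |(b : ℝ)| := Complex.norm_intCast b
  have h1 := norm_pow_le_max w k
  have h2 := norm_pow_le_max w l
  have h3 : (max 1 ‖w‖) ^ k ≤ (max 1 ‖w‖) ^ (k + l) := pow_le_pow_right₀ (le_max_left _ _) (by omega)
  have h4 : (max 1 ‖w‖) ^ l ≤ (max 1 ‖w‖) ^ (k + l) := pow_le_pow_right₀ (le_max_left _ _) (by omega)
  have h5 : 1 ≤ (max 1 ‖w‖) ^ (k + l) := one_le_max_pow _ _
  have h6 : ‖w ^ k * w ^ l‖ ≤ (max 1 ‖w‖) ^ (k + l) := by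
    rw [← pow_add]; exact norm_pow_le_max w _
  have e1 : ‖(b : ℂ) * w ^ k‖ ≤ |(b : ℝ)| * (max 1 ‖w‖) ^ (k + l) := by
    rw [norm_mul, hb]; gcongr; exact h1.trans h3
  have e2 : ‖(b : ℂ) * (s * w ^ l)‖ ≤ |(b : ℝ)| * (max 1 ‖w‖) ^ (k + l) := by
    rw [norm_mul, norm_mul, hb, hsn, one_mul]; gcongr; exact h2.trans h4
  have e3 : ‖(a : ℂ) * (w ^ k * (s * w ^ l))‖ ≤ |(a : ℝ)| * (max 1 ‖w‖) ^ (k + l) := by
    have : w ^ k * (s * w ^ l) = s * (w ^ k * w ^ l) := by ring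
    rw [this, norm_mul, norm_mul, ha, hsn, one_mul]; gcongr
  have e4 : ‖(a : ℂ)‖ ≤ |(a : ℝ)| * (max 1 ‖w‖) ^ (k + l) := by
    rw [ha]; exact le_mul_of_one_le_right (abs_nonneg _) h5
  calc _ ≤ ‖(a : ℂ)‖ + ‖(b : ℂ) * w ^ k‖ + ‖(b : ℂ) * (s * w ^ l)‖ +
        ‖(a : ℂ) * (w ^ k * (s * w ^ l))‖ := norm_add₄_le
    _ ≤ _ := by linarith

lemma TT_eq (a b s : ℤ) (k l : ℕ) : TT a b s k l =
    C a * (X ^ 0 + C s * X ^ (k + l)) + C b * (X ^ k + C s * X ^ l) := by
  rw [TT, C_mul, C_mul]; ring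

lemma mem_of_C_mul {q : ℕ} {f w : ℤ[X]} {a : ℤ} (hcop : IsCoprime a (q : ℤ))
    (h : C a * w ∈ JJ q f) : w ∈ JJ q f := by
  obtain ⟨u, v, huv⟩ := hcop
  have h1 : w = C u * (C a * w) + C (q : ℤ) * (C v * w) := by
    have : (C u * C a + C v * C (q : ℤ) : ℤ[X]) = 1 := by
      rw [← C_mul, ← C_mul, ← C_add, huv, C_1]
    calc w = (C u * C a + C v * C (q : ℤ)) * w := by rw [this, one_mul]
      _ = _ := by ring
  rw [h1]
  exact add_mem (Ideal.mul_mem_left _ _ h) (Ideal.mul_mem_right _ _ (C_mem_JJ _ _))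

lemma exists_prime_of_abs {b : ℤ} (hb : 2 ≤ |b|) : ∃ q : ℕ, q.Prime ∧ (q : ℤ) ∣ b := by
  have hb' : (b.natAbs : ℤ) = |b| := Int.natCast_natAbs b
  obtain ⟨q, hq, hqb⟩ := Nat.exists_prime_and_dvd (n := b.natAbs) (by omega)
  exact ⟨q, hq, Int.natCast_dvd.2 hqb⟩

/-- exact case, coprime coefficients -/
lemma exact_coprime {f : ℤ[X]} (hf : f.Monic) (hirr : Irreducible f)
    (hc : NoCyc f) {k l : ℕ} (hkl : k < l) {s : ℤ} (hs : s = 1 ∨ s = -1)
    {a b : ℤ} (hcop : IsCoprime a b) (hne : |a| ≠ |b|) (hd : f ∣ TT a b s k l) :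
    (2 : ℝ) ^ f.natDegree ≤ (MZ f) ^ (2 * (k + l)) := by
  have hM1 := one_le_MZ hf
  obtain ⟨z, hz⟩ := exists_zero hf hirr
  by_cases hb : 2 ≤ |b|
  · obtain ⟨q, hq, hqb⟩ := exists_prime_of_abs hb
    have hTJ : TT a b s k l ∈ JJ q f := Ideal.mem_sup_right (Ideal.mem_span_singleton.2 hd)
    have hbJ : C b * (X ^ k + C s * X ^ l) ∈ JJ q f := by
      obtain ⟨t, ht⟩ := hqb
      rw [ht, C_mul, mul_assoc]
      exact Ideal.mul_mem_right _ _ (C_mem_JJ _ _)
    have h1 : C a * (X ^ 0 + C s * X ^ (k + l)) ∈ JJ q f := by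
      have : C a * (X ^ 0 + C s * X ^ (k + l)) = TT a b s k l - C b * (X ^ k + C s * X ^ l) := by
        rw [TT_eq]; ring
      rw [this]
      exact sub_mem hTJ hbJ
    have h2 : IsCoprime a (q : ℤ) := hcop.of_isCoprime_of_dvd_right hqb
    exact two_terms hq hf hirr hc (by omega) hs (mem_of_C_mul h2 h1)
  · push Not at hb
    have hb3 : b = 0 ∨ b = 1 ∨ b = -1 := by
      have := abs_lt.1 hb
      omega
    by_cases hb0 : b = 0
    · exfalso
      subst hb0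
      have ha : a ≠ 0 := by
        rintro rfl
        exact hne rfl
      have h1 := evC_eq_zero_of_dvd hd hz
      rw [evC_TT] at h1
      simp only [Int.cast_zero, zero_mul, add_zero] at h1
      have h2 : (a : ℂ) * (z ^ 0 + s * z ^ (k + l)) = 0 := by
        rw [← h1, pow_add]; ring
      rcases mul_eq_zero.1 h2 with h3 | h3
      · exact ha (by exact_mod_cast h3)
      · exact pow_add_sgn_ne hc hz (by omega) hs h3
    · have hb1 : |b| = 1 := by
        rcases hb3 with h | h | h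
        · exact absurd h hb0
        · rw [h]; rfl
        · rw [h]; rfl
      by_cases ha0 : a = 0
      · exfalso
        subst ha0
        have h1 := evC_eq_zero_of_dvd hd hz
        rw [evC_TT] at h1
        simp only [Int.cast_zero, zero_mul, add_zero, zero_add] at h1
        have h2 : (b : ℂ) * (z ^ k + s * z ^ l) = 0 := by
          rw [← h1]; ring
        rcases mul_eq_zero.1 h2 with h3 | h3
        · exact hb0 (by exact_mod_cast h3)
        · exact pow_add_sgn_ne hc hz hkl hs h3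
      · have ha2 : 2 ≤ |a| := by
          have h1 := Int.one_le_abs ha0
          have h2 : |a| ≠ 1 := fun h => hne (by rw [h, hb1])
          omega
        obtain ⟨q, hq, hqa⟩ := exists_prime_of_abs ha2
        have hTJ : TT a b s k l ∈ JJ q f := Ideal.mem_sup_right (Ideal.mem_span_singleton.2 hd)
        have haJ : C a * (X ^ 0 + C s * X ^ (k + l)) ∈ JJ q f := by
          obtain ⟨t, ht⟩ := hqa
          rw [ht, C_mul, mul_assoc]
          exact Ideal.mul_mem_right _ _ (C_mem_JJ _ _)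
        have h1 : C b * (X ^ k + C s * X ^ l) ∈ JJ q f := by
          have : C b * (X ^ k + C s * X ^ l) = TT a b s k l - C a * (X ^ 0 + C s * X ^ (k + l)) := by
            rw [TT_eq]; ring
          rw [this]
          exact sub_mem hTJ haJ
        have h2 : IsCoprime b (q : ℤ) := hcop.symm.of_isCoprime_of_dvd_right hqa
        refine (two_terms hq hf hirr hc hkl hs (mem_of_C_mul h2 h1)).trans ?_
        exact pow_le_pow_right₀ hM1 (by omega)

/-- exact case -/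
lemma exact_case {f : ℤ[X]} (hf : f.Monic) (hirr : Irreducible f)
    (hc : NoCyc f) {k l : ℕ} (hkl : k < l) {s : ℤ} (hs : s = 1 ∨ s = -1)
    {a b : ℤ} (hne : |a| ≠ |b|) (hd : f ∣ TT a b s k l) :
    (2 : ℝ) ^ f.natDegree ≤ (MZ f) ^ (2 * (k + l)) := by
  have hg : 0 < Int.gcd a b := by
    rw [Nat.pos_iff_ne_zero, Ne, Int.gcd_eq_zero_iff]
    rintro ⟨rfl, rfl⟩
    exact hne rfl
  obtain ⟨a', b', hcop, ha', hb'⟩ := Int.exists_gcd_one hg
  obtain ⟨g0, hg0⟩ : ∃ g0, g0 = Int.gcd a b := ⟨_, rfl⟩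
  rw [← hg0] at hg ha' hb'
  rw [ha', hb'] at hd
  have h1 : TT (a' * (g0 : ℤ)) (b' * (g0 : ℤ)) s k l =
      C (g0 : ℤ) * TT a' b' s k l := by
    rw [TT, TT]
    simp only [C_mul]
    ring
  rw [h1] at hd
  have h2 : f ∣ TT a' b' s k l := by
    rcases hirr.prime.dvd_or_dvd hd with h3 | h3
    · exfalso
      have h4 := Polynomial.natDegree_le_of_dvd h3 (by
        rw [Ne, Polynomial.C_eq_zero]
        exact_mod_cast hg.ne')
      rw [Polynomial.natDegree_C] at h4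
      have h5 : 0 < f.natDegree := hf.natDegree_pos_of_not_isUnit hirr.not_isUnit
      omega
    · exact h3
  refine exact_coprime hf hirr hc hkl hs (a := a') (b := b') (Int.isCoprime_iff_gcd_eq_one.2 hcop) ?_ h2
  intro h3
  apply hne
  rw [ha', hb', abs_mul, abs_mul, h3]

end Pool.Agent.H338R2
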