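import Mathlib
import Pool.Agent.H338R2.FourA

set_option autoImplicit false

open Polynomial

namespace Pool.Agent.H338R2

/-- value of a list of monomials -/
noncomputable def lval (L : List (ℤ × ℕ × ℕ)) (x y : ℂ) : ℂ :=
  (L.map (fun t => (t.1 : ℂ) * (x ^ t.2.1 * y ^ t.2.2))).sum

/-- length of a list of monomials -/
def llen (L : List (ℤ × ℕ × ℕ)) : ℕ := (L.map (fun t => t.1.natAbs)).sum

lemma norm_lval (L : List (ℤ × ℕ × ℕ)) (D : ℕ) (hL : ∀ t ∈ L, t.2.1 ≤ D ∧ t.2.2 ≤ D) (x y : ℂ)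
    (A B : ℝ) (hA : 1 ≤ A) (hB : 1 ≤ B) (hx : ‖x‖ ≤ A) (hy : ‖y‖ ≤ B) :
    ‖lval L x y‖ ≤ (llen L : ℝ) * (A ^ D * B ^ D) := by
  induction L with
  | nil => simp [lval, llen]
  | cons t L ih =>
    have h1 := ih (fun u hu => hL u (List.mem_cons_of_mem _ hu))
    have h2 := hL t List.mem_cons_self
    have e1 : lval (t :: L) x y = (t.1 : ℂ) * (x ^ t.2.1 * y ^ t.2.2) + lval L x y := by
      simp [lval]
    have e2 : (llen (t :: L) : ℝ) = (t.1.natAbs : ℝ) + (llen L : ℝ) := by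
      simp [llen]
    rw [e1, e2, add_mul]
    refine (norm_add_le _ _).trans (add_le_add ?_ h1)
    rw [norm_mul, norm_mul, norm_pow, norm_pow, Complex.norm_intCast, Nat.cast_natAbs, Int.cast_abs]
    gcongr
    · calc ‖x‖ ^ t.2.1 ≤ A ^ t.2.1 := pow_le_pow_left₀ (norm_nonneg _) hx _
        _ ≤ A ^ D := pow_le_pow_right₀ hA h2.1
    · calc ‖y‖ ^ t.2.2 ≤ B ^ t.2.2 := pow_le_pow_left₀ (norm_nonneg _) hy _
        _ ≤ B ^ D := pow_le_pow_right₀ hB h2.2

lemma TT_mem_of_modEq {p : ℕ} {f : ℤ[X]} {s : ℤ} {k l : ℕ} {A : ℤ}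
    (hT : TT 1 A s k l ∈ JJ p f) {a b : ℤ} (hab : (p : ℤ) ∣ b - a * A) : TT a b s k l ∈ JJ p f := by
  obtain ⟨t, ht⟩ := hab
  have h1 : TT a b s k l = C a * TT 1 A s k l + C (p : ℤ) * (C t * (X ^ k + C s * X ^ l)) := by
    have hb : b = a * A + p * t := by linarith
    rw [hb, TT, TT]
    simp only [C_mul, C_add]
    rw [C_1]
    ring
  rw [h1]
  exact add_mem (Ideal.mul_mem_left _ _ hT) (Ideal.mul_mem_right _ _ (C_mem_JJ _ _))

lemma norm_sgn_pow {s : ℤ} (hs : s = 1 ∨ s = -1) (w : ℂ) (l : ℕ) :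
    ‖(s : ℂ) * w ^ l‖ ≤ (max 1 ‖w‖) ^ l := by
  have hsn : ‖(s : ℂ)‖ = 1 := by rcases hs with rfl | rfl <;> simp
  rw [norm_mul, hsn, one_mul]
  exact norm_pow_le_max w l

/-- monotonicity step -/
lemma two_pow_le {d m m' : ℕ} {M c : ℝ} (hM : 1 ≤ M) (hc : 2 ≤ c) (h : c ^ d ≤ M ^ m) (hm : m ≤ m') :
    (2 : ℝ) ^ d ≤ M ^ m' :=
  (pow_le_pow_left₀ (by norm_num) hc d).trans (h.trans (pow_le_pow_right₀ hM hm))

/-- division step -/
lemma div_step {d : ℕ} {P Q N : ℝ} (hQ : 0 < Q) (h : P ^ d ≤ Q ^ d * N) : (P / Q) ^ d ≤ N := by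
  rw [div_pow, div_le_iff₀ (by positivity)]
  linarith

/-- the case `a = ± 1`: `T = (1 + σ x^k)(1 + σ s x^l)` modulo `p` -/
lemma four_pm {p : ℕ} (hp : p.Prime) {f : ℤ[X]} (hf : f.Monic) (hirr : Irreducible f)
    (hc : NoCyc f) {k l : ℕ} (hk : 1 ≤ k) (hl : 1 ≤ l) {s : ℤ} (hs : s = 1 ∨ s = -1)
    {σ : ℤ} (hσ : σ = 1 ∨ σ = -1) (hT : TT 1 σ s k l ∈ JJ p f) :
    (2 : ℝ) ^ f.natDegree ≤ (MZ f) ^ (4 * (k + l)) := by
  have : Fact (1 < p) := ⟨hp.one_lt⟩
  have hM1 := one_le_MZ hf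
  obtain ⟨z, hz⟩ := exists_zero hf hirr
  set u : ℤ[X] := 1 + C σ * X ^ k with hu
  set v : ℤ[X] := 1 + C (σ * s) * X ^ l with hv
  have hσσ : (C σ * C σ : ℤ[X]) = 1 := by rw [← C_mul, sgn_sq hσ, C_1]
  have hss : (C s * C s : ℤ[X]) = 1 := by rw [← C_mul, sgn_sq hs, C_1]
  have hTuv : TT 1 σ s k l = u * v := by
    rw [TT, hu, hv]
    simp only [C_mul, C_1]
    linear_combination (- C s * X ^ (k + l)) * hσσ
  have huv : u * v ∈ JJ p f := hTuv ▸ hT
  have hσs : σ * s = 1 ∨ σ * s = -1 := by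
    rcases hσ with rfl | rfl <;> rcases hs with rfl | rfl <;> norm_num
  rcases hp.eq_two_or_odd with h2 | h2
  · subst h2
    have hC2 : (C ((2 : ℕ) : ℤ) : ℤ[X]) = 2 := by simp
    have h2J : (2 : ℤ[X]) ∈ JJ 2 f := hC2 ▸ C_mem_JJ 2 f
    have hT2 : (1 - X ^ (2 * k)) * (1 - X ^ (2 * l)) ∈ JJ 2 f ^ 2 := by
      have e : ((1 - X ^ (2 * k)) * (1 - X ^ (2 * l)) : ℤ[X]) = (u * v) * ((2 - u) * (2 - v)) := by
        rw [hu, hv, C_mul, mul_comm 2 k, mul_comm 2 l, pow_mul, pow_mul]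
        linear_combination ((X ^ k) ^ 2 + (X ^ l) ^ 2 * (C s * C s) - (X ^ k) ^ 2 * (X ^ l) ^ 2 * (C s * C s) * (1 + C σ * C σ)) * hσσ
          + ((X ^ l) ^ 2 - (X ^ k) ^ 2 * (X ^ l) ^ 2) * hss
      rw [e]
      apply mem_JJ_pow_two huv
      have e2 : (2 - u) * (2 - v) = 2 * (2 - u - v) + u * v := by ring
      rw [e2]
      exact add_mem (Ideal.mul_mem_right _ _ h2J) huv
    have hT2' : (1 - X ^ (2 * k)) * (1 - X ^ (2 * l)) ∈ JJ 2 f :=
      Ideal.pow_le_self (by norm_num) hT2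
    have hT3 : (1 - X ^ (4 * k)) * (1 - X ^ (4 * l)) ∈ JJ 2 f ^ 3 := by
      have e : ((1 - X ^ (4 * k)) * (1 - X ^ (4 * l)) : ℤ[X]) =
          ((1 - X ^ (2 * k)) * (1 - X ^ (2 * l))) * ((1 + X ^ (2 * k)) * (1 + X ^ (2 * l))) := by
        have e1 : (X ^ (4 * k) : ℤ[X]) = (X ^ (2 * k)) ^ 2 := by rw [← pow_mul]; congr 1; ring
        have e2 : (X ^ (4 * l) : ℤ[X]) = (X ^ (2 * l)) ^ 2 := by rw [← pow_mul]; congr 1; ring
        rw [e1, e2]; ring
      rw [e, pow_succ]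
      apply Ideal.mul_mem_mul hT2
      have e2 : ((1 + X ^ (2 * k)) * (1 + X ^ (2 * l)) : ℤ[X]) =
          2 * (X ^ (2 * k) + X ^ (2 * l)) + (1 - X ^ (2 * k)) * (1 - X ^ (2 * l)) := by ring
      rw [e2]
      exact add_mem (Ideal.mul_mem_right _ _ h2J) hT2'
    have hev : ∀ w : ℂ, evC w ((1 - X ^ (4 * k)) * (1 - X ^ (4 * l))) =
        (1 - w ^ (4 * k)) * (1 - w ^ (4 * l)) := by
      intro w; simp [evC]
    have hb := bound_of_mem (p := 2) hf hirr 3 (4 * k + 4 * l) 4 hT3 (by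
      intro hd
      have h1 := evC_eq_zero_of_dvd hd hz
      rw [hev] at h1
      rcases mul_eq_zero.1 h1 with h3 | h3
      · exact pow_ne hc hz (j := 0) (l := 4 * k) (by omega) (by rw [pow_zero]; exact sub_eq_zero.1 h3)
      · exact pow_ne hc hz (j := 0) (l := 4 * l) (by omega) (by rw [pow_zero]; exact sub_eq_zero.1 h3))
      (by
      intro w
      rw [hev, norm_mul, pow_add]
      have h1 := norm_pow_le_max w (4 * k)
      have h2 := norm_pow_le_max w (4 * l)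
      have h3 := one_le_max_pow w (4 * k)
      have h4 := one_le_max_pow w (4 * l)
      have h5 : ‖1 - w ^ (4 * k)‖ ≤ 2 * (max 1 ‖w‖) ^ (4 * k) := by
        refine (norm_sub_le _ _).trans ?_
        rw [norm_one]; linarith
      have h6 : ‖1 - w ^ (4 * l)‖ ≤ 2 * (max 1 ‖w‖) ^ (4 * l) := by
        refine (norm_sub_le _ _).trans ?_
        rw [norm_one]; linarith
      calc _ ≤ (2 * (max 1 ‖w‖) ^ (4 * k)) * (2 * (max 1 ‖w‖) ^ (4 * l)) := by gcongr
        _ = _ := by ring)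
    have h7 := div_step (by norm_num : (0 : ℝ) < 4) hb
    refine two_pow_le hM1 (c := ((2 : ℕ) : ℝ) ^ 3 / 4) (by norm_num) h7 (by omega)
  · by_cases h3 : p = 3
    · subst h3
      have hC3 : (C ((3 : ℕ) : ℤ) : ℤ[X]) = 3 := by simp
      have h3J : (3 : ℤ[X]) ∈ JJ 3 f := hC3 ▸ C_mem_JJ 3 f
      have hG : (1 + C σ * X ^ (3 * k)) * (1 + C (σ * s) * X ^ (3 * l)) ∈ JJ 3 f ^ 2 := by
        have e : ((1 + C σ * X ^ (3 * k)) * (1 + C (σ * s) * X ^ (3 * l)) : ℤ[X]) =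
            (u * v) * ((u * v) * (u * v) + 3 * (3 * (C σ * X ^ k) * (C (σ * s) * X ^ l)
              - (C σ * X ^ k) * v ^ 2 - (C (σ * s) * X ^ l) * u ^ 2)) := by
          have eσ : (C σ : ℤ[X]) = C σ ^ 3 := by
            calc (C σ : ℤ[X]) = (C σ * C σ) * C σ := by rw [hσσ, one_mul]
              _ = _ := by ring
          have eσs : (C (σ * s) : ℤ[X]) = C (σ * s) ^ 3 := by
            have : (C (σ * s) * C (σ * s) : ℤ[X]) = 1 := by rw [← C_mul, sgn_sq hσs, C_1]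
            calc (C (σ * s) : ℤ[X]) = (C (σ * s) * C (σ * s)) * C (σ * s) := by rw [this, one_mul]
              _ = _ := by ring
          have e1 : (1 + C σ * X ^ (3 * k) : ℤ[X]) = 1 + (C σ * X ^ k) ^ 3 := by
            rw [mul_pow, ← eσ, mul_comm 3 k, pow_mul]
          have e2 : (1 + C (σ * s) * X ^ (3 * l) : ℤ[X]) = 1 + (C (σ * s) * X ^ l) ^ 3 := by
            rw [mul_pow, ← eσs, mul_comm 3 l, pow_mul]
          rw [e1, e2, hu, hv]
          ring
        rw [e]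
        apply mem_JJ_pow_two huv
        exact add_mem (Ideal.mul_mem_left _ _ huv) (Ideal.mul_mem_right _ _ h3J)
      have hev : ∀ w : ℂ, evC w ((1 + C σ * X ^ (3 * k)) * (1 + C (σ * s) * X ^ (3 * l))) =
          (1 + σ * w ^ (3 * k)) * (1 + (σ * s : ℤ) * w ^ (3 * l)) := by
        intro w; simp [evC]
      have hb := bound_of_mem (p := 3) hf hirr 2 (3 * k + 3 * l) 4 hG (by
        intro hd
        have h1 := evC_eq_zero_of_dvd hd hz
        rw [hev] at h1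
        rcases mul_eq_zero.1 h1 with h3 | h3
        · exact pow_add_sgn_ne hc hz (j := 0) (l := 3 * k) (by omega) hσ (by rw [pow_zero]; exact h3)
        · exact pow_add_sgn_ne hc hz (j := 0) (l := 3 * l) (by omega) hσs (by rw [pow_zero]; exact h3))
        (by
        intro w
        rw [hev, norm_mul, pow_add]
        have h1 := norm_sgn_pow hσ w (3 * k)
        have h2 := norm_sgn_pow hσs w (3 * l)
        have h3 := one_le_max_pow w (3 * k)
        have h4 := one_le_max_pow w (3 * l)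
        have h5 : ‖1 + (σ : ℂ) * w ^ (3 * k)‖ ≤ 2 * (max 1 ‖w‖) ^ (3 * k) := by
          refine (norm_add_le _ _).trans ?_
          rw [norm_one]; linarith
        have h6 : ‖1 + ((σ * s : ℤ) : ℂ) * w ^ (3 * l)‖ ≤ 2 * (max 1 ‖w‖) ^ (3 * l) := by
          refine (norm_add_le _ _).trans ?_
          rw [norm_one]; linarith
        calc _ ≤ (2 * (max 1 ‖w‖) ^ (3 * k)) * (2 * (max 1 ‖w‖) ^ (3 * l)) := by gcongr
          _ = _ := by ring)
      have h7 := div_step (by norm_num : (0 : ℝ) < 4) hb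
      refine two_pow_le hM1 (c := ((3 : ℕ) : ℝ) ^ 2 / 4) (by norm_num) h7 (by omega)
    · have hp5 : 5 ≤ p := by
        have := hp.two_le
        by_contra hcon
        have : p = 4 := by omega
        subst this
        norm_num at hp
      have hev : ∀ w : ℂ, evC w (u * v) = (1 + σ * w ^ k) * (1 + (σ * s : ℤ) * w ^ l) := by
        intro w; simp [evC, hu, hv]
      have hb := bound_of_mem (p := p) hf hirr 1 (k + l) 4 (by rw [pow_one]; exact huv) (by
        intro hd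
        have h1 := evC_eq_zero_of_dvd hd hz
        rw [hev] at h1
        rcases mul_eq_zero.1 h1 with h3 | h3
        · exact pow_add_sgn_ne hc hz (j := 0) (l := k) (by omega) hσ (by rw [pow_zero]; exact h3)
        · exact pow_add_sgn_ne hc hz (j := 0) (l := l) (by omega) hσs (by rw [pow_zero]; exact h3))
        (by
        intro w
        rw [hev, norm_mul, pow_add]
        have h1 := norm_sgn_pow hσ w k
        have h2 := norm_sgn_pow hσs w l
        have h3 := one_le_max_pow w k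
        have h4 := one_le_max_pow w l
        have h5 : ‖1 + (σ : ℂ) * w ^ k‖ ≤ 2 * (max 1 ‖w‖) ^ k := by
          refine (norm_add_le _ _).trans ?_
          rw [norm_one]; linarith
        have h6 : ‖1 + ((σ * s : ℤ) : ℂ) * w ^ l‖ ≤ 2 * (max 1 ‖w‖) ^ l := by
          refine (norm_add_le _ _).trans ?_
          rw [norm_one]; linarith
        calc _ ≤ (2 * (max 1 ‖w‖) ^ k) * (2 * (max 1 ‖w‖) ^ l) := by gcongr
          _ = _ := by ring)
      rw [pow_one] at hb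
      have h7 := div_step (by norm_num : (0 : ℝ) < 4) hb
      have hpR : (5 : ℝ) ≤ p := by exact_mod_cast hp5
      have h8 : ((5 / 4 : ℝ) ^ f.natDegree) ^ 4 ≤ (MZ f ^ (k + l)) ^ 4 := by
        refine pow_le_pow_left₀ (by positivity) (le_trans ?_ h7) 4
        gcongr
      have h9 : ((5 / 4 : ℝ) ^ 4) ^ f.natDegree ≤ MZ f ^ (4 * (k + l)) := by
        rw [← pow_mul, mul_comm 4, pow_mul, mul_comm 4 (k + l), pow_mul]
        exact h8
      exact two_pow_le hM1 (c := (5 / 4 : ℝ) ^ 4) (by norm_num) h9 le_rfl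

end Pool.Agent.H338R2
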