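import Mathlib
import Pool.Agent.H338R2.FourB

set_option autoImplicit false

open Polynomial

namespace Pool.Agent.H338R2

lemma small_pairs (p : ℕ) (hp : p = 11 ∨ p = 13 ∨ p = 17 ∨ p = 19) (A : ℤ) :
    ∃ a b : ℤ, (a ≠ 0 ∨ b ≠ 0) ∧ (p : ℤ) ∣ b - a * A ∧ 32 * (|a| + |b|) ^ 4 ≤ (p : ℤ) ^ 4 ∧
      |a| < p := by
  have key : ∀ p : ℕ, 0 < p → (∀ r : Fin p, ∃ a : Fin 16, ∃ b : Fin 16,
      ((a : ℤ) - 8 ≠ 0 ∨ (b : ℤ) - 8 ≠ 0) ∧ (((b : ℤ) - 8) - ((a : ℤ) - 8) * (r : ℕ)) % (p : ℤ) = 0 ∧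
      32 * (|(a : ℤ) - 8| + |(b : ℤ) - 8|) ^ 4 ≤ (p : ℤ) ^ 4) → 8 < p →
      ∀ A : ℤ, ∃ a b : ℤ, (a ≠ 0 ∨ b ≠ 0) ∧ (p : ℤ) ∣ b - a * A ∧
        32 * (|a| + |b|) ^ 4 ≤ (p : ℤ) ^ 4 ∧ |a| < p := by
    intro p hp h h8 A
    have hp' : (0 : ℤ) < p := by exact_mod_cast hp
    have hr0 := Int.emod_nonneg A hp'.ne'
    have hr1 := Int.emod_lt_of_pos A hp'
    obtain ⟨r, hr⟩ := Int.eq_ofNat_of_zero_le hr0
    have hrp : r < p := by
      rw [hr] at hr1
      exact_mod_cast hr1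
    obtain ⟨a, b, h1, h2, h3⟩ := h ⟨r, hrp⟩
    refine ⟨(a : ℤ) - 8, (b : ℤ) - 8, h1, ?_, h3, ?_⟩
    · have h4 := Int.dvd_of_emod_eq_zero h2
      have h5 : (p : ℤ) ∣ A - (r : ℤ) := by
        have := Int.dvd_self_sub_emod (x := A) (m := (p : ℤ))
        rw [hr] at this
        exact this
      have h6 : (b : ℤ) - 8 - ((a : ℤ) - 8) * A = ((b : ℤ) - 8 - ((a : ℤ) - 8) * (r : ℤ)) -
          ((a : ℤ) - 8) * (A - (r : ℤ)) := by ring
      rw [h6]
      exact dvd_sub h4 (Dvd.dvd.mul_left h5 _)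
    · have ha := a.2
      have : |(a : ℤ) - 8| ≤ 8 := by
        rw [abs_le]
        constructor <;> omega
      have : (8 : ℤ) < p := by exact_mod_cast h8
      omega
  rcases hp with rfl | rfl | rfl | rfl
  · exact key 11 (by norm_num) (by decide +kernel) (by norm_num) A
  · exact key 13 (by norm_num) (by decide +kernel) (by norm_num) A
  · exact key 17 (by norm_num) (by decide +kernel) (by norm_num) A
  · exact key 19 (by norm_num) (by decide +kernel) (by norm_num) A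

/-- Thue's lemma -/
lemma thue (p : ℕ) (hp : p.Prime) (A : ℤ) :
    ∃ a b : ℤ, (a ≠ 0 ∨ b ≠ 0) ∧ (p : ℤ) ∣ b - a * A ∧ a ^ 2 ≤ p ∧ b ^ 2 ≤ p := by
  have : NeZero p := ⟨hp.ne_zero⟩
  set t := Nat.sqrt p with ht
  let F : Fin (t + 1) × Fin (t + 1) → ZMod p := fun x =>
    ((x.2 : ℕ) : ZMod p) - ((x.1 : ℕ) : ZMod p) * (A : ZMod p)
  have h1 : ¬ Function.Injective F := by
    intro hinj
    have h2 := Fintype.card_le_of_injective F hinj
    rw [Fintype.card_prod, Fintype.card_fin, ZMod.card] at h2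
    have h3 := Nat.lt_succ_sqrt p
    rw [Nat.succ_eq_add_one, ← ht] at h3
    omega
  rw [Function.not_injective_iff] at h1
  obtain ⟨x, y, hxy, hne⟩ := h1
  refine ⟨(x.1 : ℤ) - (y.1 : ℤ), (x.2 : ℤ) - (y.2 : ℤ), ?_, ?_, ?_, ?_⟩
  · by_contra hcon
    push Not at hcon
    apply hne
    have e1 : (x.1 : ℕ) = (y.1 : ℕ) := by omega
    have e2 : (x.2 : ℕ) = (y.2 : ℕ) := by omega
    exact Prod.ext (Fin.ext e1) (Fin.ext e2)
  · rw [← ZMod.intCast_eq_intCast_iff_dvd_sub]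
    push_cast
    have h4 : ((x.2 : ℕ) : ZMod p) - ((x.1 : ℕ) : ZMod p) * (A : ZMod p) =
      ((y.2 : ℕ) : ZMod p) - ((y.1 : ℕ) : ZMod p) * (A : ZMod p) := hxy
    linear_combination - h4
  · have h5 : t * t ≤ p := Nat.sqrt_le p
    have h6 : (t : ℤ) * t ≤ p := by exact_mod_cast h5
    have h7 := x.1.2
    have h8 := y.1.2
    nlinarith
  · have h5 : t * t ≤ p := Nat.sqrt_le p
    have h6 : (t : ℤ) * t ≤ p := by exact_mod_cast h5
    have h7 := x.2.2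
    have h8 := y.2.2
    nlinarith

lemma good_pair (p : ℕ) (hp : p.Prime) (hp11 : 11 ≤ p) (A : ℤ) :
    ∃ a b : ℤ, (a ≠ 0 ∨ b ≠ 0) ∧ (p : ℤ) ∣ b - a * A ∧ 32 * (|a| + |b|) ^ 4 ≤ (p : ℤ) ^ 4 ∧
      |a| < p := by
  by_cases h23 : 23 ≤ p
  · obtain ⟨a, b, h1, h2, h3, h4⟩ := thue p hp A
    refine ⟨a, b, h1, h2, ?_, ?_⟩
    · have h5 : (|a| + |b|) ^ 2 ≤ 4 * p := by
        have ha : |a| ^ 2 ≤ p := by rw [sq_abs]; exact h3
        have hb : |b| ^ 2 ≤ p := by rw [sq_abs]; exact h4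
        nlinarith [sq_nonneg (|a| - |b|)]
      have h23' : (23 : ℤ) ≤ p := by exact_mod_cast h23
      have h6 : (|a| + |b|) ^ 4 ≤ (4 * (p : ℤ)) ^ 2 := by
        calc (|a| + |b|) ^ 4 = ((|a| + |b|) ^ 2) ^ 2 := by ring
          _ ≤ _ := pow_le_pow_left₀ (by positivity) h5 2
      have h7 : (512 : ℤ) ≤ (p : ℤ) ^ 2 := by nlinarith
      have h8 : 512 * (p : ℤ) ^ 2 ≤ (p : ℤ) ^ 2 * (p : ℤ) ^ 2 := by
        apply mul_le_mul_of_nonneg_right h7 (by positivity)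
      nlinarith
    · have h23' : (23 : ℤ) ≤ p := by exact_mod_cast h23
      by_contra hcon
      push Not at hcon
      have ha : |a| ^ 2 ≤ p := by rw [sq_abs]; exact h3
      nlinarith
  · apply small_pairs
    have : p = 11 ∨ p = 12 ∨ p = 13 ∨ p = 14 ∨ p = 15 ∨ p = 16 ∨ p = 17 ∨ p = 18 ∨ p = 19 ∨
        p = 20 ∨ p = 21 ∨ p = 22 := by omega
    rcases this with h | h | h | h | h | h | h | h | h | h | h | h <;> subst h <;>
      first
        | exact Or.inl rfl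
        | exact Or.inr (Or.inl rfl)
        | exact Or.inr (Or.inr (Or.inl rfl))
        | exact Or.inr (Or.inr (Or.inr rfl))
        | (exfalso; revert hp; norm_num)

/-- four-term case, `p ≥ 11` -/
lemma four_large {p : ℕ} (hp : p.Prime) (hp11 : 11 ≤ p) {f : ℤ[X]} (hf : f.Monic)
    (hirr : Irreducible f)
    (hc : NoCyc f) {k l : ℕ} (hk : 1 ≤ k) (hkl : k < l) {s : ℤ} (hs : s = 1 ∨ s = -1)
    {A : ℤ} (hT : TT 1 A s k l ∈ JJ p f) :
    (2 : ℝ) ^ f.natDegree ≤ (MZ f) ^ (4 * (k + l)) := by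
  have : Fact (1 < p) := ⟨hp.one_lt⟩
  have hM1 := one_le_MZ hf
  obtain ⟨a, b, hab0, hab, hsm, hap⟩ := good_pair p hp hp11 A
  have hG := TT_mem_of_modEq hT hab
  by_cases hne : |a| = |b|
  · -- then A is ± 1 modulo p
    have ha0 : a ≠ 0 := by
      rintro rfl
      rw [abs_zero, eq_comm, abs_eq_zero] at hne
      rcases hab0 with h | h
      · exact h rfl
      · exact h hne
    have hcop : IsCoprime a (p : ℤ) := by
      rw [Int.isCoprime_iff_gcd_eq_one, Int.gcd_comm, ← Int.isCoprime_iff_gcd_eq_one]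
      refine (Prime.coprime_iff_not_dvd (Nat.prime_iff_prime_int.1 hp)).2 ?_
      intro hd
      have := Int.le_of_dvd (abs_pos.2 ha0) ((dvd_abs _ _).2 hd)
      omega
    have h2 : ∃ σ : ℤ, (σ = 1 ∨ σ = -1) ∧ b = a * σ := by
      rcases abs_eq_abs.1 hne with h | h
      · exact ⟨1, Or.inl rfl, by rw [h]; ring⟩
      · exact ⟨-1, Or.inr rfl, by rw [h]; ring⟩
    obtain ⟨σ, hσ, hb⟩ := h2
    have h3 : (p : ℤ) ∣ σ - 1 * A := by
      have h4 : (p : ℤ) ∣ a * (σ - 1 * A) := by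
        have : a * (σ - 1 * A) = b - a * A := by rw [hb]; ring
        rw [this]; exact hab
      exact hcop.symm.dvd_of_dvd_mul_left h4
    exact four_pm hp hf hirr hc hk (by omega) hs hσ (TT_mem_of_modEq hT h3)
  · by_cases hd : f ∣ TT a b s k l
    · refine (exact_case hf hirr hc hkl hs hne hd).trans ?_
      exact pow_le_pow_right₀ hM1 (by omega)
    · have hb := bound_of_mem (p := p) hf hirr 1 (k + l) (2 * (|(a : ℝ)| + |(b : ℝ)|))
        (by rw [pow_one]; exact hG) hd (norm_TT a b s hs k l)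
      rw [pow_one] at hb
      have hSpos : (0 : ℝ) < |(a : ℝ)| + |(b : ℝ)| := by
        rcases hab0 with h | h
        · have : (0 : ℝ) < |(a : ℝ)| := abs_pos.2 (by exact_mod_cast h)
          positivity
        · have : (0 : ℝ) < |(b : ℝ)| := abs_pos.2 (by exact_mod_cast h)
          positivity
      have hsmR : 32 * (|(a : ℝ)| + |(b : ℝ)|) ^ 4 ≤ (p : ℝ) ^ 4 := by
        have : ((32 * (|a| + |b|) ^ 4 : ℤ) : ℝ) ≤ (((p : ℤ) ^ 4 : ℤ) : ℝ) := by exact_mod_cast hsm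
        push_cast at this
        exact this
      set S := |(a : ℝ)| + |(b : ℝ)| with hS
      have h7 := div_step (by positivity : (0 : ℝ) < 2 * S) hb
      have h9 : (((p : ℝ) / (2 * S)) ^ 4) ^ f.natDegree ≤ MZ f ^ (4 * (k + l)) := by
        have h8 : (((p : ℝ) / (2 * S)) ^ f.natDegree) ^ 4 ≤ (MZ f ^ (k + l)) ^ 4 :=
          pow_le_pow_left₀ (by positivity) h7 4
        rw [← pow_mul, mul_comm 4, pow_mul, mul_comm 4 (k + l), pow_mul]
        exact h8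
      refine two_pow_le hM1 (c := ((p : ℝ) / (2 * S)) ^ 4) ?_ h9 le_rfl
      rw [div_pow, le_div_iff₀ (by positivity)]
      calc 2 * (2 * S) ^ 4 = 32 * S ^ 4 := by ring
        _ ≤ _ := hsmR

/-- product of two members of the pencil -/
lemma four_prod {p : ℕ} (hp : p.Prime) {f : ℤ[X]} (hf : f.Monic)
    (hirr : Irreducible f)
    (hc : NoCyc f) {k l : ℕ} (hkl : k < l) {s : ℤ} (hs : s = 1 ∨ s = -1)
    {A : ℤ} (hT : TT 1 A s k l ∈ JJ p f) {a b a' b' : ℤ} (h1 : (p : ℤ) ∣ b - a * A)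
    (h2 : (p : ℤ) ∣ b' - a' * A) (hne : |a| ≠ |b|) (hne' : |a'| ≠ |b'|) (e : ℕ) (he : 1 ≤ e)
    (C0 : ℝ) (hb : ∀ w : ℂ, ‖evC w ((TT a b s k l * TT a' b' s k l) ^ e)‖ ≤
      C0 * (max 1 ‖w‖) ^ (2 * e * (k + l))) :
    (2 : ℝ) ^ f.natDegree ≤ (MZ f) ^ (4 * (k + l)) ∨
      ((p : ℝ) ^ (2 * e)) ^ f.natDegree ≤ C0 ^ f.natDegree * (MZ f) ^ (2 * e * (k + l)) := by
  have : Fact (1 < p) := ⟨hp.one_lt⟩
  have hM1 := one_le_MZ hf
  by_cases hd1 : f ∣ TT a b s k l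
  · left
    refine (exact_case hf hirr hc hkl hs hne hd1).trans ?_
    exact pow_le_pow_right₀ hM1 (by omega)
  by_cases hd2 : f ∣ TT a' b' s k l
  · left
    refine (exact_case hf hirr hc hkl hs hne' hd2).trans ?_
    exact pow_le_pow_right₀ hM1 (by omega)
  right
  have hG : (TT a b s k l * TT a' b' s k l) ^ e ∈ JJ p f ^ (2 * e) := by
    rw [pow_mul]
    exact Ideal.pow_mem_pow (mem_JJ_pow_two (TT_mem_of_modEq hT h1) (TT_mem_of_modEq hT h2)) e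
  refine bound_of_mem (p := p) hf hirr (2 * e) (2 * e * (k + l)) C0 hG ?_ hb
  intro hd
  rcases hirr.prime.dvd_or_dvd (hirr.prime.dvd_of_dvd_pow hd) with h | h
  · exact hd1 h
  · exact hd2 h

lemma evC_pow (w : ℂ) (G : ℤ[X]) (e : ℕ) : evC w (G ^ e) = (evC w G) ^ e := by
  simp [evC]

lemma evC_mul (w : ℂ) (G H : ℤ[X]) : evC w (G * H) = evC w G * evC w H := by
  simp [evC]

def L5 : List (ℤ × ℕ × ℕ) := [(4, 0, 0), (12, 0, 1), (1, 0, 2), (-12, 0, 3), (4, 0, 4), (12, 1, 0),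
  (18, 1, 1), (18, 1, 3), (-12, 1, 4), (1, 2, 0), (52, 2, 2), (1, 2, 4), (-12, 3, 0), (18, 3, 1),
  (18, 3, 3), (12, 3, 4), (4, 4, 0), (-12, 4, 1), (1, 4, 2), (12, 4, 3), (4, 4, 4)]

def L7a : List (ℤ × ℕ × ℕ) := [(3, 0, 0), (5, 0, 1), (-2, 0, 2), (5, 1, 0), (2, 1, 1), (5, 1, 2),
  (-2, 2, 0), (5, 2, 1), (3, 2, 2)]

def L7b : List (ℤ × ℕ × ℕ) := [(2, 0, 0), (5, 0, 1), (-3, 0, 2), (5, 1, 0), (-2, 1, 1), (5, 1, 2),
  (-3, 2, 0), (5, 2, 1), (2, 2, 2)]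

lemma norm_lval_w (L : List (ℤ × ℕ × ℕ)) (D : ℕ) (hL : ∀ t ∈ L, t.2.1 ≤ D ∧ t.2.2 ≤ D)
    {σ s : ℤ} (hσ : σ = 1 ∨ σ = -1) (hs : s = 1 ∨ s = -1) (k l : ℕ) (w : ℂ) :
    ‖lval L (σ * w ^ k) (σ * (s * w ^ l))‖ ≤ (llen L : ℝ) * (max 1 ‖w‖) ^ (D * (k + l)) := by
  have h1 := norm_sgn_pow hσ w k
  have h2 : ‖(σ : ℂ) * (s * w ^ l)‖ ≤ (max 1 ‖w‖) ^ l := by
    have hsn : ‖(σ : ℂ)‖ = 1 := by rcases hσ with rfl | rfl <;> simp
    rw [norm_mul, hsn, one_mul]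
    exact norm_sgn_pow hs w l
  refine (norm_lval L D hL _ _ _ _ (one_le_max_pow w k) (one_le_max_pow w l) h1 h2).trans ?_
  rw [← mul_pow, ← pow_add, ← pow_mul, mul_comm D]

/-- four-term case -/
lemma four_terms {p : ℕ} (hp : p.Prime) {f : ℤ[X]} (hf : f.Monic)
    (hirr : Irreducible f)
    (hc : NoCyc f) {k l : ℕ} (hk : 1 ≤ k) (hkl : k < l) {s : ℤ} (hs : s = 1 ∨ s = -1)
    {A : ℤ} (hA : ¬ (p : ℤ) ∣ A) (hT : TT 1 A s k l ∈ JJ p f) :
    (2 : ℝ) ^ f.natDegree ≤ (MZ f) ^ (4 * (k + l)) := by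
  have hM1 := one_le_MZ hf
  have hpm : ∀ σ : ℤ, (σ = 1 ∨ σ = -1) → (p : ℤ) ∣ σ - A →
      (2 : ℝ) ^ f.natDegree ≤ (MZ f) ^ (4 * (k + l)) := fun σ hσ h3 =>
    four_pm hp hf hirr hc hk (by omega) hs hσ (TT_mem_of_modEq hT (by rw [one_mul]; exact h3))
  by_cases h11 : 11 ≤ p
  · exact four_large hp h11 hf hirr hc hk hkl hs hT
  have hp' : p = 2 ∨ p = 3 ∨ p = 5 ∨ p = 7 := by
    have := hp.two_le
    have h4 : p ≠ 4 := by rintro rfl; norm_num at hp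
    have h6 : p ≠ 6 := by rintro rfl; norm_num at hp
    have h8 : p ≠ 8 := by rintro rfl; norm_num at hp
    have h9 : p ≠ 9 := by rintro rfl; norm_num at hp
    have h10 : p ≠ 10 := by rintro rfl; norm_num at hp
    omega
  rcases hp' with rfl | rfl | rfl | rfl
  · exact hpm 1 (Or.inl rfl) (by omega)
  · have : (((3 : ℕ) : ℤ) ∣ 1 - A) ∨ (((3 : ℕ) : ℤ) ∣ -1 - A) := by omega
    rcases this with h | h
    · exact hpm 1 (Or.inl rfl) h
    · exact hpm (-1) (Or.inr rfl) h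
  · -- p = 5
    have h5 : (((5 : ℕ) : ℤ) ∣ 1 - A) ∨ (((5 : ℕ) : ℤ) ∣ -1 - A) ∨
        ∃ σ : ℤ, (σ = 1 ∨ σ = -1) ∧ ((5 : ℕ) : ℤ) ∣ 2 * σ - A := by
      have h6 : (((5 : ℕ) : ℤ) ∣ 1 - A) ∨ (((5 : ℕ) : ℤ) ∣ -1 - A) ∨ (((5 : ℕ) : ℤ) ∣ 2 * 1 - A) ∨
        (((5 : ℕ) : ℤ) ∣ 2 * (-1) - A) := by omega
      rcases h6 with h | h | h | h
      · exact Or.inl h
      · exact Or.inr (Or.inl h)
      · exact Or.inr (Or.inr ⟨1, Or.inl rfl, h⟩)
      · exact Or.inr (Or.inr ⟨-1, Or.inr rfl, h⟩)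
    rcases h5 with h | h | ⟨σ, hσ, h⟩
    · exact hpm 1 (Or.inl rfl) h
    · exact hpm (-1) (Or.inr rfl) h
    · have key := four_prod hp hf hirr hc hkl hs hT (a := 1) (b := 2 * σ) (a' := 2) (b' := -σ)
        (by rw [one_mul]; exact h) (by rcases hσ with rfl | rfl <;> omega)
        (by rcases hσ with rfl | rfl <;> decide) (by rcases hσ with rfl | rfl <;> decide) 2 (by norm_num)
        ((llen L5 : ℕ) : ℝ) (by
          intro w
          have e1 : evC w ((TT 1 (2 * σ) s k l * TT 2 (-σ) s k l) ^ 2) =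
              lval L5 (σ * w ^ k) (σ * (s * w ^ l)) := by
            rw [evC_pow, evC_mul, evC_TT, evC_TT]
            generalize (s : ℂ) * w ^ l = y
            generalize w ^ k = x
            rcases hσ with rfl | rfl <;> simp only [lval, L5, List.map_cons, List.map_nil,
              List.sum_cons, List.sum_nil] <;> push_cast <;> ring
          rw [e1]
          exact norm_lval_w L5 4 (by decide) hσ hs k l w)
      have hlen : (llen L5 : ℕ) = 240 := by decide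
      rw [hlen] at key
      rcases key with h1 | h1
      · exact h1
      · have h7 := div_step (by norm_num : (0 : ℝ) < ((240 : ℕ) : ℝ)) h1
        exact two_pow_le hM1 (by norm_num) h7 (by omega)
  · -- p = 7
    have h5 : (((7 : ℕ) : ℤ) ∣ 1 - A) ∨ (((7 : ℕ) : ℤ) ∣ -1 - A) ∨
        (∃ σ : ℤ, (σ = 1 ∨ σ = -1) ∧ ((7 : ℕ) : ℤ) ∣ 2 * σ - A) ∨
        (∃ σ : ℤ, (σ = 1 ∨ σ = -1) ∧ ((7 : ℕ) : ℤ) ∣ 3 * σ - A) := by
      have h6 : (((7 : ℕ) : ℤ) ∣ 1 - A) ∨ (((7 : ℕ) : ℤ) ∣ -1 - A) ∨ (((7 : ℕ) : ℤ) ∣ 2 * 1 - A) ∨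
        (((7 : ℕ) : ℤ) ∣ 2 * (-1) - A) ∨ (((7 : ℕ) : ℤ) ∣ 3 * 1 - A) ∨
        (((7 : ℕ) : ℤ) ∣ 3 * (-1) - A) := by omega
      rcases h6 with h | h | h | h | h | h
      · exact Or.inl h
      · exact Or.inr (Or.inl h)
      · exact Or.inr (Or.inr (Or.inl ⟨1, Or.inl rfl, h⟩))
      · exact Or.inr (Or.inr (Or.inl ⟨-1, Or.inr rfl, h⟩))
      · exact Or.inr (Or.inr (Or.inr ⟨1, Or.inl rfl, h⟩))
      · exact Or.inr (Or.inr (Or.inr ⟨-1, Or.inr rfl, h⟩))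
    have hfin : ∀ L : ℕ, L = 32 →
        (((7 : ℕ) : ℝ) ^ (2 * 1)) ^ f.natDegree ≤ (L : ℝ) ^ f.natDegree * (MZ f) ^ (2 * 1 * (k + l)) →
        (2 : ℝ) ^ f.natDegree ≤ (MZ f) ^ (4 * (k + l)) := by
      intro L hL h1
      subst hL
      have h7 := div_step (by norm_num : (0 : ℝ) < ((32 : ℕ) : ℝ)) h1
      have h8 := pow_le_pow_left₀ (by positivity) h7 2
      have h9 : (((((7 : ℕ) : ℝ) ^ (2 * 1)) / ((32 : ℕ) : ℝ)) ^ 2) ^ f.natDegree ≤
          MZ f ^ (4 * (k + l)) := by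
        rw [← pow_mul, mul_comm 2 f.natDegree, pow_mul]
        refine h8.trans (le_of_eq ?_)
        rw [← pow_mul]
        congr 1
        ring
      exact two_pow_le hM1 (by norm_num) h9 le_rfl
    rcases h5 with h | h | ⟨σ, hσ, h⟩ | ⟨σ, hσ, h⟩
    · exact hpm 1 (Or.inl rfl) h
    · exact hpm (-1) (Or.inr rfl) h
    · have key := four_prod hp hf hirr hc hkl hs hT (a := 1) (b := 2 * σ) (a' := 3) (b' := -σ)
        (by rw [one_mul]; exact h) (by rcases hσ with rfl | rfl <;> omega)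
        (by rcases hσ with rfl | rfl <;> decide) (by rcases hσ with rfl | rfl <;> decide) 1 (by norm_num)
        ((llen L7a : ℕ) : ℝ) (by
          intro w
          have e1 : evC w ((TT 1 (2 * σ) s k l * TT 3 (-σ) s k l) ^ 1) =
              lval L7a (σ * w ^ k) (σ * (s * w ^ l)) := by
            rw [evC_pow, evC_mul, evC_TT, evC_TT]
            generalize (s : ℂ) * w ^ l = y
            generalize w ^ k = x
            rcases hσ with rfl | rfl <;> simp only [lval, L7a, List.map_cons, List.map_nil,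
              List.sum_cons, List.sum_nil] <;> push_cast <;> ring
          rw [e1]
          exact norm_lval_w L7a 2 (by decide) hσ hs k l w)
      rcases key with h1 | h1
      · exact h1
      · exact hfin _ (by decide) h1
    · have key := four_prod hp hf hirr hc hkl hs hT (a := 2) (b := -σ) (a' := 1) (b' := 3 * σ)
        (by rcases hσ with rfl | rfl <;> omega) (by rw [one_mul]; exact h)
        (by rcases hσ with rfl | rfl <;> decide) (by rcases hσ with rfl | rfl <;> decide) 1 (by norm_num)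
        ((llen L7b : ℕ) : ℝ) (by
          intro w
          have e1 : evC w ((TT 2 (-σ) s k l * TT 1 (3 * σ) s k l) ^ 1) =
              lval L7b (σ * w ^ k) (σ * (s * w ^ l)) := by
            rw [evC_pow, evC_mul, evC_TT, evC_TT]
            generalize (s : ℂ) * w ^ l = y
            generalize w ^ k = x
            rcases hσ with rfl | rfl <;> simp only [lval, L7b, List.map_cons, List.map_nil,
              List.sum_cons, List.sum_nil] <;> push_cast <;> ring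
          rw [e1]
          exact norm_lval_w L7b 2 (by decide) hσ hs k l w)
      rcases key with h1 | h1
      · exact h1
      · exact hfin _ (by decide) h1

end Pool.Agent.H338R2
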