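import Mathlib
import Pool.Agent.H338R2.Frob

set_option autoImplicit false

open Polynomial

namespace Pool.Agent.H338R2

/-- sum of squares of the first coefficients -/
noncomputable def SN (N : ℕ) (v : PowerSeries ℂ) : ℝ :=
  ∑ n ∈ Finset.range (N + 1), ‖PowerSeries.coeff n v‖ ^ 2

/-- the power series `1 - conj a X` -/
noncomputable def uA (a : ℂ) : PowerSeries ℂ := 1 - PowerSeries.C (starRingEnd ℂ a) * PowerSeries.X
/-- the power series `X - a` -/
noncomputable def uB (a : ℂ) : PowerSeries ℂ := PowerSeries.X - PowerSeries.C a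

lemma SN_key (a : ℂ) (y : PowerSeries ℂ) (N : ℕ) :
    SN N (uA a * y) - SN N (uB a * y) = (1 - ‖a‖ ^ 2) * ‖PowerSeries.coeff N y‖ ^ 2 := by
  have hA0 : PowerSeries.coeff 0 (uA a * y) = PowerSeries.coeff 0 y := by
    simp [uA]
  have hB0 : PowerSeries.coeff 0 (uB a * y) = - a * PowerSeries.coeff 0 y := by
    simp [uB]
  have hA : ∀ n, PowerSeries.coeff (n + 1) (uA a * y) =
      PowerSeries.coeff (n + 1) y - (starRingEnd ℂ a) * PowerSeries.coeff n y := by
    intro n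
    rw [uA, sub_mul, one_mul, map_sub, mul_assoc, PowerSeries.coeff_C_mul, mul_comm PowerSeries.X,
      PowerSeries.coeff_succ_mul_X]
  have hB : ∀ n, PowerSeries.coeff (n + 1) (uB a * y) =
      PowerSeries.coeff n y - a * PowerSeries.coeff (n + 1) y := by
    intro n
    rw [uB, sub_mul, map_sub, PowerSeries.coeff_C_mul, mul_comm PowerSeries.X,
      PowerSeries.coeff_succ_mul_X]
  induction N with
  | zero =>
    rw [SN, SN, Finset.sum_range_one, Finset.sum_range_one, hA0, hB0, norm_mul, norm_neg]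
    ring
  | succ N ih =>
    have e1 : SN (N + 1) (uA a * y) = SN N (uA a * y) + ‖PowerSeries.coeff (N + 1) (uA a * y)‖ ^ 2 := by
      rw [SN, Finset.sum_range_succ, SN]
    have e2 : SN (N + 1) (uB a * y) = SN N (uB a * y) + ‖PowerSeries.coeff (N + 1) (uB a * y)‖ ^ 2 := by
      rw [SN, Finset.sum_range_succ, SN]
    rw [e1, e2, hA, hB]
    have h3 : ∀ s t : ℂ, ‖t - (starRingEnd ℂ a) * s‖ ^ 2 - ‖s - a * t‖ ^ 2 =
        (1 - ‖a‖ ^ 2) * (‖t‖ ^ 2 - ‖s‖ ^ 2) := by
      intro s t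
      simp only [Complex.sq_norm, Complex.normSq_apply, Complex.sub_re, Complex.sub_im,
        Complex.mul_re, Complex.mul_im, Complex.conj_re, Complex.conj_im]
      ring
    have h4 := h3 (PowerSeries.coeff N y) (PowerSeries.coeff (N + 1) y)
    linarith

lemma SN_nonneg (N : ℕ) (v : PowerSeries ℂ) : 0 ≤ SN N v :=
  Finset.sum_nonneg fun _ _ => by positivity

lemma exists_inner (s : Multiset ℂ) (hs : ∀ a ∈ s, ‖a‖ ≤ 1) :
    ∃ F : PowerSeries ℂ, F * (s.map uA).prod = (s.map uB).prod ∧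
      ∀ N v, SN N (F * v) ≤ SN N v := by
  induction s using Multiset.induction_on with
  | empty => exact ⟨1, by simp, by simp⟩
  | cons a s ih =>
    obtain ⟨F, hF1, hF2⟩ := ih (fun b hb => hs b (Multiset.mem_cons_of_mem hb))
    have ha := hs a (Multiset.mem_cons_self _ _)
    have hunit : (uA a) * (uA a)⁻¹ = 1 := by
      apply PowerSeries.mul_inv_cancel
      simp [uA]
    refine ⟨(uB a * (uA a)⁻¹) * F, ?_, ?_⟩
    · rw [Multiset.map_cons, Multiset.prod_cons, Multiset.map_cons, Multiset.prod_cons, ← hF1]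
      calc uB a * (uA a)⁻¹ * F * (uA a * (Multiset.map uA s).prod)
          = uB a * (uA a * (uA a)⁻¹) * (F * (Multiset.map uA s).prod) := by ring
        _ = _ := by rw [hunit, mul_one]
    · intro N v
      have h1 := SN_key a ((uA a)⁻¹ * (F * v)) N
      have e1 : uA a * ((uA a)⁻¹ * (F * v)) = F * v := by rw [← mul_assoc, hunit, one_mul]
      rw [e1] at h1
      have e2 : uB a * (uA a)⁻¹ * F * v = uB a * ((uA a)⁻¹ * (F * v)) := by ring
      rw [e2]
      have h2 : 0 ≤ (1 - ‖a‖ ^ 2) * ‖PowerSeries.coeff N ((uA a)⁻¹ * (F * v))‖ ^ 2 := by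
        apply mul_nonneg _ (by positivity)
        nlinarith [norm_nonneg a]
      have := hF2 N v
      linarith

lemma exists_inner' (s : Multiset ℂ) (hs : ∀ a ∈ s, 1 < ‖a‖) :
    ∃ F : PowerSeries ℂ, F * (s.map uB).prod = (s.map uA).prod ∧
      ∀ N v, SN N (F * v) ≤ SN N v := by
  induction s using Multiset.induction_on with
  | empty => exact ⟨1, by simp, by simp⟩
  | cons a s ih =>
    obtain ⟨F, hF1, hF2⟩ := ih (fun b hb => hs b (Multiset.mem_cons_of_mem hb))
    have ha := hs a (Multiset.mem_cons_self _ _)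
    have hunit : (uB a) * (uB a)⁻¹ = 1 := by
      apply PowerSeries.mul_inv_cancel
      simp only [uB, map_sub, PowerSeries.constantCoeff_X, PowerSeries.constantCoeff_C, zero_sub]
      intro h
      have : a = 0 := by simpa using h
      rw [this, norm_zero] at ha
      linarith
    refine ⟨(uA a * (uB a)⁻¹) * F, ?_, ?_⟩
    · rw [Multiset.map_cons, Multiset.prod_cons, Multiset.map_cons, Multiset.prod_cons, ← hF1]
      calc uA a * (uB a)⁻¹ * F * (uB a * (Multiset.map uB s).prod)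
          = uA a * (uB a * (uB a)⁻¹) * (F * (Multiset.map uB s).prod) := by ring
        _ = _ := by rw [hunit, mul_one]
    · intro N v
      have h1 := SN_key a ((uB a)⁻¹ * (F * v)) N
      have e1 : uB a * ((uB a)⁻¹ * (F * v)) = F * v := by rw [← mul_assoc, hunit, one_mul]
      rw [e1] at h1
      have e2 : uA a * (uB a)⁻¹ * F * v = uA a * ((uB a)⁻¹ * (F * v)) := by ring
      rw [e2]
      have h2 : (1 - ‖a‖ ^ 2) * ‖PowerSeries.coeff N ((uB a)⁻¹ * (F * v))‖ ^ 2 ≤ 0 := by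
        apply mul_nonpos_of_nonpos_of_nonneg _ (by positivity)
        nlinarith [norm_nonneg a]
      have := hF2 N v
      linarith

/-- the Schwarz-Pick inequality for the `k`-th coefficient -/
lemma coeff_bound (F : PowerSeries ℂ) (hF : ∀ N v, SN N (F * v) ≤ SN N v) (k : ℕ) (hk : 0 < k)
    (h0 : PowerSeries.coeff 0 F ≠ 0) :
    ‖PowerSeries.coeff k F‖ ≤ 1 - ‖PowerSeries.coeff 0 F‖ ^ 2 := by
  set c0 := PowerSeries.coeff 0 F with hc0
  set ck := PowerSeries.coeff k F with hck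
  have hc0pos : 0 < ‖c0‖ := norm_pos_iff.2 h0
  -- choose beta of modulus 1/|c0| with |beta ck + c0| = |ck|/|c0| + |c0|
  obtain ⟨β, hβ1, hβ2⟩ : ∃ β : ℂ, ‖β‖ = 1 / ‖c0‖ ∧ ‖β * ck + c0‖ = ‖ck‖ / ‖c0‖ + ‖c0‖ := by
    by_cases hck0 : ck = 0
    · refine ⟨((1 / ‖c0‖ : ℝ) : ℂ), ?_, ?_⟩
      · rw [Complex.norm_real, Real.norm_of_nonneg (by positivity)]
      · rw [hck0]; simp
    · have hckpos : 0 < ‖ck‖ := norm_pos_iff.2 hck0
      refine ⟨(c0 / ((‖c0‖ ^ 2 : ℝ) : ℂ)) * (((‖ck‖ : ℝ) : ℂ) / ck), ?_, ?_⟩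
      · rw [norm_mul, norm_div, norm_div, Complex.norm_real, Complex.norm_real,
          Real.norm_of_nonneg (by positivity), Real.norm_of_nonneg (by positivity)]
        field_simp
      · have e : (c0 / ((‖c0‖ ^ 2 : ℝ) : ℂ)) * (((‖ck‖ : ℝ) : ℂ) / ck) * ck + c0 =
            c0 * (((‖ck‖ / ‖c0‖ ^ 2 + 1 : ℝ)) : ℂ) := by
          have hne : ((‖c0‖ : ℝ) : ℂ) ≠ 0 := by exact_mod_cast hc0pos.ne'
          push_cast
          field_simp
        rw [e, norm_mul, Complex.norm_real, Real.norm_of_nonneg (by positivity)]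
        field_simp
  have h1 := hF k (PowerSeries.C β + PowerSeries.X ^ k)
  have h2 : SN k (PowerSeries.C β + PowerSeries.X ^ k) = ‖β‖ ^ 2 + 1 := by
    rw [SN, Finset.sum_range_succ, Finset.sum_eq_single_of_mem 0 (Finset.mem_range.2 hk)]
    · simp [PowerSeries.coeff_X_pow, PowerSeries.coeff_C, hk.ne, hk.ne']
    · intro b hb hb0
      rw [Finset.mem_range] at hb
      simp [PowerSeries.coeff_X_pow, PowerSeries.coeff_C, hb0, hb.ne]
  have hsub : ({0, k} : Finset ℕ) ⊆ Finset.range (k + 1) := by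
    intro x hx
    rw [Finset.mem_insert, Finset.mem_singleton] at hx
    rw [Finset.mem_range]
    omega
  have h3 : ‖PowerSeries.coeff 0 (F * (PowerSeries.C β + PowerSeries.X ^ k))‖ ^ 2 +
      ‖PowerSeries.coeff k (F * (PowerSeries.C β + PowerSeries.X ^ k))‖ ^ 2 ≤
      SN k (F * (PowerSeries.C β + PowerSeries.X ^ k)) := by
    rw [SN, ← Finset.sum_pair (f := fun n =>
      ‖PowerSeries.coeff n (F * (PowerSeries.C β + PowerSeries.X ^ k))‖ ^ 2) hk.ne]
    exact Finset.sum_le_sum_of_subset_of_nonneg hsub (fun _ _ _ => by positivity)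
  have e0 : PowerSeries.coeff 0 (F * (PowerSeries.C β + PowerSeries.X ^ k)) = c0 * β := by
    rw [mul_add, map_add, PowerSeries.coeff_mul_C]
    have : PowerSeries.coeff 0 (F * PowerSeries.X ^ k) = 0 := by
      rw [PowerSeries.coeff_mul_X_pow']
      simp [hk.ne']
    rw [this, add_zero]
  have ek : PowerSeries.coeff k (F * (PowerSeries.C β + PowerSeries.X ^ k)) = β * ck + c0 := by
    rw [mul_add, map_add, PowerSeries.coeff_mul_C]
    have : PowerSeries.coeff k (F * PowerSeries.X ^ k) = c0 := by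
      rw [PowerSeries.coeff_mul_X_pow']
      simp [hc0]
    rw [this, mul_comm]
  rw [e0, ek, hβ2, norm_mul, hβ1] at h3
  rw [h2, hβ1] at h1
  have h4 : (‖c0‖ * (1 / ‖c0‖)) ^ 2 = 1 := by
    rw [mul_one_div_cancel hc0pos.ne', one_pow]
  rw [h4] at h3
  have h5 : (‖ck‖ / ‖c0‖ + ‖c0‖) ^ 2 ≤ (1 / ‖c0‖) ^ 2 := by linarith
  have h6 : ‖ck‖ / ‖c0‖ + ‖c0‖ ≤ 1 / ‖c0‖ := le_of_sq_le_sq h5 (by positivity)
  have h7 : (‖ck‖ / ‖c0‖ + ‖c0‖) * ‖c0‖ ≤ 1 / ‖c0‖ * ‖c0‖ :=
    mul_le_mul_of_nonneg_right h6 hc0pos.le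
  rw [one_div_mul_cancel hc0pos.ne', add_mul, div_mul_cancel₀ _ hc0pos.ne'] at h7
  nlinarith

end Pool.Agent.H338R2
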