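import Mathlib
import Pool.Agent.H338R2.Smyth

set_option autoImplicit false

open Polynomial

namespace Pool.Agent.H338R2

lemma toPS_X_sub_C (a : ℂ) : ((X - C a : ℂ[X]) : PowerSeries ℂ) = uB a := by
  rw [uB]
  ext n
  simp [PowerSeries.coeff_X, PowerSeries.coeff_C]

lemma reverse_X_sub_C (a : ℂ) : (X - C a : ℂ[X]).reverse = 1 - C a * X := by
  ext n
  rw [Polynomial.coeff_reverse, Polynomial.natDegree_X_sub_C]
  rcases Nat.lt_or_ge 1 n with h1 | h1
  · rw [Polynomial.revAt_eq_self_of_lt h1]
    rw [Polynomial.coeff_sub, Polynomial.coeff_sub, Polynomial.coeff_X, Polynomial.coeff_C,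
      Polynomial.coeff_one, Polynomial.coeff_C_mul, Polynomial.coeff_X]
    rw [if_neg (by omega), if_neg (by omega), if_neg (by omega)]
    simp
  · rw [Polynomial.revAt_le h1]
    interval_cases n
    · simp
    · simp [Polynomial.coeff_one]

lemma reverse_prod (s : Multiset ℂ) :
    ((s.map (fun a => (X - C a : ℂ[X]))).prod).reverse = (s.map (fun a => (1 - C a * X : ℂ[X]))).prod := by
  induction s using Multiset.induction_on with
  | empty =>
    rw [Multiset.map_zero, Multiset.prod_zero, Multiset.map_zero, Multiset.prod_zero]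
    simpa using Polynomial.reverse_C (1 : ℂ)
  | cons a s ih =>
    rw [Multiset.map_cons, Multiset.prod_cons, Polynomial.reverse_mul_of_domain, ih,
      Multiset.map_cons, Multiset.prod_cons, reverse_X_sub_C]

/-- the weak Smyth theorem: `M ≤ 2 (M ^ 2 - 1)` for nonreciprocal polynomials -/
theorem smyth_lite {f : ℤ[X]} (hf : f.Monic) (h0 : |f.coeff 0| = 1)
    (hnr : f ≠ C (f.coeff 0) * f.reverse) : MZ f ≤ 2 * ((MZ f) ^ 2 - 1) := by
  classical
  set R := (f.map (Int.castRingHom ℂ)).roots with hR
  set s := R.filter (fun a => ‖a‖ ≤ 1) with hs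
  set t := R.filter (fun a => ¬ ‖a‖ ≤ 1) with ht
  have hst : s + t = R := Multiset.filter_add_not _ _
  obtain ⟨F, hF1, hF2⟩ := exists_inner s (fun a ha => (Multiset.mem_filter.1 ha).2)
  obtain ⟨H, hH1, hH2⟩ := exists_inner' t (fun a ha => not_le.1 (Multiset.mem_filter.1 ha).2)
  have hfm : (f.map (Int.castRingHom ℂ)).Monic := hf.map _
  have hfprod : f.map (Int.castRingHom ℂ) = (R.map (fun a => (X - C a : ℂ[X]))).prod :=
    (IsAlgClosed.splits (f.map (Int.castRingHom ℂ))).eq_prod_roots_of_monic hfm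
  have hPS : ∀ m : Multiset ℂ, (((m.map (fun a => (X - C a : ℂ[X]))).prod : ℂ[X]) : PowerSeries ℂ) =
      (m.map uB).prod := by
    intro m
    induction m using Multiset.induction_on with
    | empty => simp
    | cons a m ih =>
      rw [Multiset.map_cons, Multiset.prod_cons, Multiset.map_cons, Multiset.prod_cons,
        Polynomial.coe_mul, ih, toPS_X_sub_C]
  have hf_eq : ((f.map (Int.castRingHom ℂ) : ℂ[X]) : PowerSeries ℂ) = (R.map uB).prod := by
    rw [hfprod, hPS]
  -- the reverse polynomial
  have hrev : ((f.reverse).map (Int.castRingHom ℂ)) = (R.map (fun a => (1 - C (starRingEnd ℂ a) * X : ℂ[X]))).prod := by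
    have h1 : (f.map (Int.castRingHom ℂ)).reverse = (f.reverse).map (Int.castRingHom ℂ) := by
      ext n
      rw [Polynomial.coeff_reverse, Polynomial.coeff_map, Polynomial.coeff_map,
        Polynomial.coeff_reverse, natDegree_mapC]
    have h2 : (f.map (Int.castRingHom ℂ)).reverse = (R.map (fun a => (1 - C a * X : ℂ[X]))).prod := by
      rw [hfprod, reverse_prod]
    have h3 : ((f.reverse).map (Int.castRingHom ℂ)).map (starRingEnd ℂ) =
        (f.reverse).map (Int.castRingHom ℂ) := by
      rw [Polynomial.map_map]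
      congr 1
      exact RingHom.ext_int _ _
    rw [← h3, ← h1, h2, Polynomial.map_multiset_prod, Multiset.map_map]
    congr 1
    apply Multiset.map_congr rfl
    intro a _
    simp
  have hrevPS : (((f.reverse).map (Int.castRingHom ℂ) : ℂ[X]) : PowerSeries ℂ) = (R.map uA).prod := by
    rw [hrev]
    have : ∀ m : Multiset ℂ, (((m.map (fun a => (1 - C (starRingEnd ℂ a) * X : ℂ[X]))).prod : ℂ[X]) : PowerSeries ℂ) =
        (m.map uA).prod := by
      intro m
      induction m using Multiset.induction_on with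
      | empty => simp
      | cons a m ih =>
        rw [Multiset.map_cons, Multiset.prod_cons, Multiset.map_cons, Multiset.prod_cons,
          Polynomial.coe_mul, ih]
        congr 1
        rw [uA]
        simp
    exact this R
  -- the basic identity F * f^* = H * f
  have hid : F * (((f.reverse).map (Int.castRingHom ℂ) : ℂ[X]) : PowerSeries ℂ) =
      H * ((f.map (Int.castRingHom ℂ) : ℂ[X]) : PowerSeries ℂ) := by
    rw [hrevPS, hf_eq, ← hst, Multiset.map_add, Multiset.prod_add, Multiset.map_add,
      Multiset.prod_add, ← mul_assoc, hF1, ← hH1]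
    ring
  set w : ℤ[X] := f - C (f.coeff 0) * f.reverse with hw
  have hw0 : w ≠ 0 := sub_ne_zero.2 hnr
  set k := w.natTrailingDegree with hk
  have hak : w.coeff k ≠ 0 := by
    rw [hk]
    exact mt Polynomial.trailingCoeff_eq_zero.1 hw0
  have hkpos : 0 < k := by
    rw [Nat.pos_iff_ne_zero]
    intro hk0
    rw [hk0] at hak
    apply hak
    rw [hw, Polynomial.coeff_sub, Polynomial.coeff_C_mul, Polynomial.coeff_zero_reverse,
      hf.leadingCoeff]
    ring
  obtain ⟨w', hw'⟩ : X ^ k ∣ w := by
    rw [Polynomial.X_pow_dvd_iff]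
    intro d hd
    exact Polynomial.coeff_eq_zero_of_lt_natTrailingDegree hd
  have hw'0 : w'.coeff 0 = w.coeff k := by
    rw [hw', mul_comm, Polynomial.coeff_mul_X_pow']
    simp
  -- constants
  set u0 : ℂ := ((f.coeff 0 : ℤ) : ℂ) with hu0
  have hfw : ((f.map (Int.castRingHom ℂ) : ℂ[X]) : PowerSeries ℂ) =
      PowerSeries.C u0 * (((f.reverse).map (Int.castRingHom ℂ) : ℂ[X]) : PowerSeries ℂ) +
        PowerSeries.X ^ k * ((w'.map (Int.castRingHom ℂ) : ℂ[X]) : PowerSeries ℂ) := by
    have h1 : f = C (f.coeff 0) * f.reverse + X ^ k * w' := by rw [← hw', hw]; ring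
    have h2 := congrArg (fun q : ℤ[X] => ((q.map (Int.castRingHom ℂ) : ℂ[X]) : PowerSeries ℂ)) h1
    simp only [Polynomial.map_add, Polynomial.map_mul, Polynomial.map_C, Polynomial.map_pow,
      Polynomial.map_X, Polynomial.coe_add, Polynomial.coe_mul, Polynomial.coe_C,
      Polynomial.coe_pow, Polynomial.coe_X] at h2
    exact h2
  set rv : PowerSeries ℂ := (((f.reverse).map (Int.castRingHom ℂ) : ℂ[X]) : PowerSeries ℂ) with hrv
  have hrv0 : PowerSeries.constantCoeff rv = 1 := by
    rw [hrv, Polynomial.constantCoeff_coe, Polynomial.coeff_map, Polynomial.coeff_zero_reverse,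
      hf.leadingCoeff]
    simp
  have hrvunit : rv * rv⁻¹ = 1 := PowerSeries.mul_inv_cancel _ (by rw [hrv0]; exact one_ne_zero)
  have hΔ : F - H * PowerSeries.C u0 = PowerSeries.X ^ k *
      (H * ((w'.map (Int.castRingHom ℂ) : ℂ[X]) : PowerSeries ℂ) * rv⁻¹) := by
    have h1 : (F - H * PowerSeries.C u0) * rv = PowerSeries.X ^ k *
        (H * ((w'.map (Int.castRingHom ℂ) : ℂ[X]) : PowerSeries ℂ)) := by
      rw [sub_mul, hid, hfw]
      ring
    calc F - H * PowerSeries.C u0 = (F - H * PowerSeries.C u0) * (rv * rv⁻¹) := by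
          rw [hrvunit, mul_one]
      _ = ((F - H * PowerSeries.C u0) * rv) * rv⁻¹ := by ring
      _ = _ := by rw [h1]; ring
  have hu0n : ‖u0‖ = 1 := by
    rw [hu0, Complex.norm_intCast]
    exact_mod_cast h0
  -- coefficients
  have hck : PowerSeries.coeff k F - PowerSeries.coeff k H * u0 =
      PowerSeries.coeff 0 H * ((w.coeff k : ℤ) : ℂ) := by
    have h1 := congrArg (PowerSeries.coeff k) hΔ
    rw [map_sub, PowerSeries.coeff_mul_C, PowerSeries.coeff_X_pow_mul'] at h1
    rw [h1, if_pos le_rfl, Nat.sub_self]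
    have h2 : PowerSeries.constantCoeff (rv⁻¹) = 1 := by
      rw [PowerSeries.constantCoeff_inv, hrv0, inv_one]
    rw [PowerSeries.coeff_zero_eq_constantCoeff_apply, map_mul, map_mul, h2, mul_one,
      Polynomial.constantCoeff_coe, Polynomial.coeff_map, hw'0,
      PowerSeries.coeff_zero_eq_constantCoeff_apply]
    simp
  have hc0 : ‖PowerSeries.coeff 0 F‖ = ‖PowerSeries.coeff 0 H‖ := by
    have h1 := congrArg (PowerSeries.coeff 0) hΔ
    rw [map_sub, PowerSeries.coeff_mul_C, PowerSeries.coeff_X_pow_mul', if_neg (by omega)] at h1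
    have h2 : PowerSeries.coeff 0 F = PowerSeries.coeff 0 H * u0 := sub_eq_zero.1 h1
    rw [h2, norm_mul, hu0n, mul_one]
  -- the value of the constant coefficient
  have hM : ‖PowerSeries.coeff 0 H‖ * MZ f = 1 := by
    have h1 := congrArg (fun v => ‖PowerSeries.constantCoeff v‖) hH1
    simp only [map_mul, norm_mul] at h1
    have h2 : ∀ m : Multiset ℂ, ‖PowerSeries.constantCoeff (m.map uB).prod‖ = (m.map (fun a => ‖a‖)).prod := by
      intro m
      induction m using Multiset.induction_on with
      | empty => simp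
      | cons a m ih =>
        rw [Multiset.map_cons, Multiset.prod_cons, map_mul, norm_mul, ih, Multiset.map_cons,
          Multiset.prod_cons]
        congr 1
        simp [uB]
    have h3 : ∀ m : Multiset ℂ, ‖PowerSeries.constantCoeff (m.map uA).prod‖ = 1 := by
      intro m
      induction m using Multiset.induction_on with
      | empty => simp
      | cons a m ih =>
        rw [Multiset.map_cons, Multiset.prod_cons, map_mul, norm_mul, ih]
        simp [uA]
    rw [h2, h3] at h1
    have h4 : MZ f = (t.map (fun a => ‖a‖)).prod := by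
      rw [MZ_monic hf, ← hR, ← hst, Multiset.map_add, Multiset.prod_add]
      have h5 : (s.map (fun a => max 1 ‖a‖)).prod = 1 := by
        apply Multiset.prod_eq_one
        intro x hx
        obtain ⟨a, ha, rfl⟩ := Multiset.mem_map.1 hx
        exact max_eq_left (Multiset.mem_filter.1 ha).2
      have h6 : t.map (fun a => max 1 ‖a‖) = t.map (fun a => ‖a‖) := by
        apply Multiset.map_congr rfl
        intro a ha
        exact max_eq_right (not_le.1 (Multiset.mem_filter.1 ha).2).le
      rw [h5, h6, one_mul]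
    rw [h4, PowerSeries.coeff_zero_eq_constantCoeff_apply]
    exact h1
  have hM1 := one_le_MZ hf
  have hMpos : 0 < MZ f := by linarith
  have he0 : ‖PowerSeries.coeff 0 H‖ = 1 / MZ f := by
    field_simp
    exact hM
  have hHne : PowerSeries.coeff 0 H ≠ 0 := by
    intro h
    rw [h, norm_zero, zero_mul] at hM
    exact zero_ne_one hM
  have hFne : PowerSeries.coeff 0 F ≠ 0 := by
    intro h
    rw [h, norm_zero] at hc0
    exact hHne (norm_eq_zero.1 hc0.symm)
  have b1 := coeff_bound F hF2 k hkpos hFne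
  have b2 := coeff_bound H hH2 k hkpos hHne
  rw [hc0, he0] at b1
  rw [he0] at b2
  have b3 : 1 / MZ f ≤ ‖PowerSeries.coeff k F‖ + ‖PowerSeries.coeff k H‖ := by
    have h1 := congrArg (fun v => ‖v‖) hck
    simp only [norm_mul, he0] at h1
    have h2 : (1 : ℝ) ≤ ‖((w.coeff k : ℤ) : ℂ)‖ := by
      rw [Complex.norm_intCast]
      exact_mod_cast Int.one_le_abs hak
    have h3 := norm_sub_le (PowerSeries.coeff k F) (PowerSeries.coeff k H * u0)
    rw [h1, norm_mul, hu0n, mul_one] at h3
    have h4 : 1 / MZ f * 1 ≤ 1 / MZ f * ‖((w.coeff k : ℤ) : ℂ)‖ := by gcongr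
    linarith
  have b4 : 1 / MZ f ≤ 2 * (1 - (1 / MZ f) ^ 2) := by linarith
  have b5 := mul_le_mul_of_nonneg_right b4 (by positivity : (0 : ℝ) ≤ (MZ f) ^ 2)
  have e1 : 1 / MZ f * MZ f ^ 2 = MZ f := by field_simp
  have e2 : 2 * (1 - (1 / MZ f) ^ 2) * MZ f ^ 2 = 2 * ((MZ f) ^ 2 - 1) := by field_simp
  rw [e1, e2] at b5
  exact b5

end Pool.Agent.H338R2
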