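import Mathlib
import Pool.Agent.H338R2.FourC
import Pool.Agent.H338R2.Smyth2

set_option autoImplicit false

open Polynomial

namespace Pool.Agent.H338R2

/-- three-term polynomials `1 + b x^n + x^(2n)` -/
noncomputable def T3 (b : ℤ) (n : ℕ) : ℤ[X] := 1 + C b * X ^ n + X ^ (2 * n)

lemma evC_T3 (b : ℤ) (n : ℕ) (w : ℂ) : evC w (T3 b n) = 1 + b * w ^ n + (w ^ n) ^ 2 := by
  simp only [evC, T3, Polynomial.map_mul, Polynomial.map_add,
        Polynomial.map_pow, Polynomial.map_X, Polynomial.map_C, Polynomial.eval_mul,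
        Polynomial.eval_add, Polynomial.eval_pow, Polynomial.eval_X,
        Polynomial.eval_C, Polynomial.map_one, Polynomial.eval_one]
  simp only [eq_intCast]
  rw [← pow_mul, mul_comm n 2]

lemma exact_three {f : ℤ[X]} (hf : f.Monic) (hirr : Irreducible f)
    (hc : NoCyc f) {n : ℕ} (hn : 1 ≤ n) {b : ℤ} (hd : f ∣ T3 b n) :
    (2 : ℝ) ^ f.natDegree ≤ (MZ f) ^ (4 * n) := by
  obtain ⟨z, hz⟩ := exists_zero hf hirr
  by_cases hb : 2 ≤ |b|
  · obtain ⟨q, hq, hqb⟩ := exists_prime_of_abs hb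
    have hTJ : T3 b n ∈ JJ q f := Ideal.mem_sup_right (Ideal.mem_span_singleton.2 hd)
    have hbJ : C b * X ^ n ∈ JJ q f := by
      obtain ⟨t, ht⟩ := hqb
      rw [ht, C_mul, mul_assoc]
      exact Ideal.mul_mem_right _ _ (C_mem_JJ _ _)
    have h1 : X ^ 0 + C (1 : ℤ) * X ^ (2 * n) ∈ JJ q f := by
      have : X ^ 0 + C (1 : ℤ) * X ^ (2 * n) = T3 b n - C b * X ^ n := by
        rw [T3, C_1]; ring
      rw [this]
      exact sub_mem hTJ hbJ
    have h2 := two_terms hq hf hirr hc (by omega) (Or.inl rfl) h1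
    have e : 2 * (2 * n) = 4 * n := by ring
    rwa [e] at h2
  · exfalso
    push Not at hb
    have hb3 : b = 0 ∨ b = 1 ∨ b = -1 := by
      have := abs_lt.1 hb
      omega
    have h1 := evC_eq_zero_of_dvd hd hz
    rw [evC_T3] at h1
    have h12 : z ^ (12 * n) = 1 := by
      have e : z ^ (12 * n) = (z ^ n) ^ 12 := by rw [← pow_mul, mul_comm]
      rw [e]
      generalize z ^ n = y at h1
      rcases hb3 with rfl | rfl | rfl
      · push_cast at h1
        linear_combination (-1 + y ^ 2 - y ^ 4 + y ^ 6 - y ^ 8 + y ^ 10) * h1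
      · push_cast at h1
        have h3 : y ^ 3 = 1 := by linear_combination (y - 1) * h1
        calc y ^ 12 = (y ^ 3) ^ 4 := by ring
          _ = 1 := by rw [h3, one_pow]
      · push_cast at h1
        have h3 : y ^ 3 = -1 := by linear_combination (y + 1) * h1
        calc y ^ 12 = (y ^ 3) ^ 4 := by ring
          _ = 1 := by rw [h3]; norm_num
    exact pow_ne hc hz (j := 0) (l := 12 * n) (by omega) (by rw [pow_zero, h12])

/-- three-term case -/
lemma three_terms {p : ℕ} (hp : p.Prime) {f : ℤ[X]} (hf : f.Monic)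
    (hirr : Irreducible f)
    (hc : NoCyc f) {n : ℕ} (hn : 1 ≤ n) {A : ℤ} (hA : ¬ (p : ℤ) ∣ A) (hT : T3 A n ∈ JJ p f) :
    (2 : ℝ) ^ f.natDegree ≤ (MZ f) ^ (8 * n) := by
  have : Fact (1 < p) := ⟨hp.one_lt⟩
  have hM1 := one_le_MZ hf
  obtain ⟨z, hz⟩ := exists_zero hf hirr
  have hTb : ∀ b : ℤ, (p : ℤ) ∣ b - A → T3 b n ∈ JJ p f := by
    rintro b ⟨t, ht⟩
    have h1 : T3 b n = T3 A n + C (p : ℤ) * (C t * X ^ n) := by
      have hb : b = A + p * t := by linarith
      rw [hb, T3, T3]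
      simp only [C_mul, C_add]
      ring
    rw [h1]
    exact add_mem hT (Ideal.mul_mem_right _ _ (C_mem_JJ _ _))
  by_cases h2 : p = 2
  · subst h2
    have hC2 : (C ((2 : ℕ) : ℤ) : ℤ[X]) = 2 := by simp
    have h2J : (2 : ℤ[X]) ∈ JJ 2 f := hC2 ▸ C_mem_JJ 2 f
    have hT1 := hTb 1 (by omega)
    have hG : X ^ (6 * n) - 1 ∈ JJ 2 f ^ 2 := by
      have e : (X ^ (6 * n) - 1 : ℤ[X]) = T3 1 n * ((X ^ (2 * n) - 1) * (T3 1 n - 2 * X ^ n)) := by
        rw [T3, C_1]
        ring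
      rw [e]
      apply mem_JJ_pow_two hT1
      exact Ideal.mul_mem_left _ _ (sub_mem hT1 (Ideal.mul_mem_right _ _ h2J))
    have hev : ∀ w : ℂ, evC w (X ^ (6 * n) - 1) = w ^ (6 * n) - 1 := by
      intro w; simp [evC]
    have hb := bound_of_mem (p := 2) hf hirr 2 (6 * n) 2 hG (by
      intro hd
      have h1 := evC_eq_zero_of_dvd hd hz
      rw [hev] at h1
      exact pow_ne hc hz (j := 0) (l := 6 * n) (by omega) (by rw [pow_zero]; exact (sub_eq_zero.1 h1).symm))
      (by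
      intro w
      rw [hev]
      have h1 := norm_pow_le_max w (6 * n)
      have h3 := one_le_max_pow w (6 * n)
      refine (norm_sub_le _ _).trans ?_
      rw [norm_one]; linarith)
    have h7 := div_step (by norm_num : (0 : ℝ) < 2) hb
    exact two_pow_le hM1 (c := ((2 : ℕ) : ℝ) ^ 2 / 2) (by norm_num) h7 (by omega)
  by_cases h3 : p = 3
  · subst h3
    have hC3 : (C ((3 : ℕ) : ℤ) : ℤ[X]) = 3 := by simp
    have h3J : (3 : ℤ[X]) ∈ JJ 3 f := hC3 ▸ C_mem_JJ 3 f
    have : ∃ σ : ℤ, (σ = 1 ∨ σ = -1) ∧ ((3 : ℕ) : ℤ) ∣ σ - A := by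
      have : (((3 : ℕ) : ℤ) ∣ 1 - A) ∨ (((3 : ℕ) : ℤ) ∣ -1 - A) := by omega
      rcases this with h | h
      · exact ⟨1, Or.inl rfl, h⟩
      · exact ⟨-1, Or.inr rfl, h⟩
    obtain ⟨σ, hσ, h⟩ := this
    have hT1 := hTb σ h
    have hG : (X ^ (3 * n) - C σ) * (X ^ (3 * n) - C σ) ∈ JJ 3 f ^ 3 := by
      have e : ((X ^ (3 * n) - C σ) * (X ^ (3 * n) - C σ) : ℤ[X]) =
          (T3 σ n * T3 σ n) * (T3 σ n - 3 * (C σ * X ^ n)) := by
        have e1 : (X ^ (3 * n) : ℤ[X]) = (X ^ n) ^ 3 := by rw [← pow_mul, mul_comm]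
        have e2 : (X ^ (2 * n) : ℤ[X]) = (X ^ n) ^ 2 := by rw [← pow_mul, mul_comm]
        rw [T3, e1, e2]
        rcases hσ with rfl | rfl
        · rw [C_1]; ring
        · rw [C_neg, C_1]; ring
      rw [e, pow_succ]
      apply Ideal.mul_mem_mul (mem_JJ_pow_two hT1 hT1)
      exact sub_mem hT1 (Ideal.mul_mem_right _ _ h3J)
    have hev : ∀ w : ℂ, evC w ((X ^ (3 * n) - C σ) * (X ^ (3 * n) - C σ)) =
        (w ^ (3 * n) - σ) * (w ^ (3 * n) - σ) := by
      intro w; simp [evC]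
    have hb := bound_of_mem (p := 3) hf hirr 3 (3 * n + 3 * n) 4 hG (by
      intro hd
      have h1 := evC_eq_zero_of_dvd hd hz
      rw [hev, mul_self_eq_zero, sub_eq_zero] at h1
      have h4 : z ^ (6 * n) = 1 := by
        have : z ^ (6 * n) = z ^ (3 * n) * z ^ (3 * n) := by rw [← pow_add]; congr 1; ring
        rw [this, h1, sgnC_sq hσ]
      exact pow_ne hc hz (j := 0) (l := 6 * n) (by omega) (by rw [pow_zero, h4]))
      (by
      intro w
      rw [hev, norm_mul, pow_add]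
      have h1 := norm_pow_le_max w (3 * n)
      have h3 := one_le_max_pow w (3 * n)
      have hsn : ‖(σ : ℂ)‖ = 1 := by rcases hσ with rfl | rfl <;> simp
      have h5 : ‖w ^ (3 * n) - σ‖ ≤ 2 * (max 1 ‖w‖) ^ (3 * n) := by
        refine (norm_sub_le _ _).trans ?_
        rw [hsn]; linarith
      calc _ ≤ (2 * (max 1 ‖w‖) ^ (3 * n)) * (2 * (max 1 ‖w‖) ^ (3 * n)) := by gcongr
        _ = _ := by ring)
    have h7 := div_step (by norm_num : (0 : ℝ) < 4) hb
    exact two_pow_le hM1 (c := ((3 : ℕ) : ℝ) ^ 3 / 4) (by norm_num) h7 (by omega)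
  · have hp5 : 5 ≤ p := by
      have := hp.two_le
      by_contra hcon
      have : p = 4 := by omega
      subst this
      norm_num at hp
    -- a small representative
    obtain ⟨b, hb1, hb2⟩ : ∃ b : ℤ, (p : ℤ) ∣ b - A ∧ 2 * |b| ≤ p := by
      have hpp : 0 < p := hp.pos
      refine ⟨A.bmod p, ?_, ?_⟩
      · have h := Int.dvd_bmod_sub_self (x := A) (m := p)
        exact h
      · have h4 := Int.bmod_lt (x := A) (m := p) hpp
        have h5 := Int.le_bmod (x := A) (m := p) hpp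
        rw [mul_comm]
        have h6 : |A.bmod p| ≤ (p : ℤ) / 2 := by
          rw [abs_le]
          constructor <;> omega
        omega
    by_cases hd : f ∣ T3 b n
    · refine (exact_three hf hirr hc hn hd).trans ?_
      exact pow_le_pow_right₀ hM1 (by omega)
    · have hb := bound_of_mem (p := p) hf hirr 1 (2 * n) (2 + |(b : ℝ)|)
        (by rw [pow_one]; exact hTb b hb1) hd (by
        intro w
        rw [evC_T3]
        have h1 := norm_pow_le_max w n
        have h4 : ‖(w ^ n) ^ 2‖ ≤ (max 1 ‖w‖) ^ (2 * n) := by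
          rw [← pow_mul, mul_comm n 2]; exact norm_pow_le_max w _
        have h5 : (max 1 ‖w‖) ^ n ≤ (max 1 ‖w‖) ^ (2 * n) :=
          pow_le_pow_right₀ (le_max_left _ _) (by omega)
        have h6 := one_le_max_pow w (2 * n)
        have h7 : ‖(b : ℂ) * w ^ n‖ ≤ |(b : ℝ)| * (max 1 ‖w‖) ^ (2 * n) := by
          rw [norm_mul, Complex.norm_intCast]
          gcongr
          exact h1.trans h5
        calc ‖1 + (b : ℂ) * w ^ n + (w ^ n) ^ 2‖ ≤ ‖(1 : ℂ)‖ + ‖(b : ℂ) * w ^ n‖ + ‖(w ^ n) ^ 2‖ :=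
              norm_add₃_le
          _ ≤ _ := by rw [norm_one]; linarith)
      rw [pow_one] at hb
      have hpos : (0 : ℝ) < 2 + |(b : ℝ)| := by positivity
      have h7 := div_step hpos hb
      have hbR : 2 * |(b : ℝ)| ≤ p := by exact_mod_cast hb2
      have hpodd : 2 * |b| ≠ p := by
        intro h
        rcases hp.eq_two_or_odd with h8 | h8
        · exact h2 h8
        · omega
      have hb3 : 2 * |b| + 1 ≤ p := by omega
      have hbR : 2 * |(b : ℝ)| + 1 ≤ p := by exact_mod_cast hb3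
      have hpR : (5 : ℝ) ≤ p := by exact_mod_cast hp5
      have h8 : (5 / 4 : ℝ) ≤ (p : ℝ) / (2 + |(b : ℝ)|) := by
        rw [le_div_iff₀ hpos]
        linarith
      have h9 : ((5 / 4 : ℝ) ^ f.natDegree) ^ 4 ≤ (MZ f ^ (2 * n)) ^ 4 := by
        refine pow_le_pow_left₀ (by positivity) (le_trans ?_ h7) 4
        gcongr
      have h10 : ((5 / 4 : ℝ) ^ 4) ^ f.natDegree ≤ MZ f ^ (8 * n) := by
        rw [← pow_mul, mul_comm 4, pow_mul]
        refine h9.trans (le_of_eq ?_)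
        rw [← pow_mul]
        congr 1
        ring
      exact two_pow_le hM1 (c := (5 / 4 : ℝ) ^ 4) (by norm_num) h10 le_rfl

end Pool.Agent.H338R2
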