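import Mathlib
import Pool.Agent.H338R2.Irred

set_option autoImplicit false

open Polynomial

namespace Pool.Agent.H338R2

/-- degree of the common part of `h mod p` and `T` -/
noncomputable def gam {p : ℕ} [Fact p.Prime] (T : (ZMod p)[X]) (h : ℤ[X]) : ℕ :=
  (EuclideanDomain.gcd (red p h) T).natDegree

variable {p : ℕ} [hp : Fact p.Prime]

lemma gcd_ne_zero' {T : (ZMod p)[X]} (hT : T ≠ 0) (u : (ZMod p)[X]) :
    EuclideanDomain.gcd u T ≠ 0 := fun h => hT (EuclideanDomain.gcd_eq_zero_iff.1 h).2

lemma gam_mul {T : (ZMod p)[X]} (hT : T ≠ 0) (a b : ℤ[X]) :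
    gam T (a * b) ≤ gam T a + gam T b := by
  unfold gam
  rw [← Polynomial.natDegree_mul (gcd_ne_zero' hT _) (gcd_ne_zero' hT _)]
  apply Polynomial.natDegree_le_of_dvd
  · rw [map_mul]
    set x := red p a
    set y := red p b
    have h1 := EuclideanDomain.gcd_eq_gcd_ab x T
    have h2 := EuclideanDomain.gcd_eq_gcd_ab y T
    have d1 := EuclideanDomain.gcd_dvd_left (x * y) T
    have d2 := EuclideanDomain.gcd_dvd_right (x * y) T
    set ga := EuclideanDomain.gcd x T
    set gb := EuclideanDomain.gcd y T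
    have h3 : ga * gb = x * y * (EuclideanDomain.gcdA x T * EuclideanDomain.gcdA y T) +
        T * (EuclideanDomain.gcdB x T * gb + x * EuclideanDomain.gcdA x T *
          EuclideanDomain.gcdB y T) := by
      calc ga * gb = (x * EuclideanDomain.gcdA x T + T * EuclideanDomain.gcdB x T) * gb := by
            rw [← h1]
        _ = x * EuclideanDomain.gcdA x T * gb + T * EuclideanDomain.gcdB x T * gb := by ring
        _ = x * EuclideanDomain.gcdA x T *
              (y * EuclideanDomain.gcdA y T + T * EuclideanDomain.gcdB y T) +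
              T * EuclideanDomain.gcdB x T * gb := by rw [← h2]
        _ = _ := by ring
    rw [h3]
    exact dvd_add (d1.mul_right _) (d2.mul_right _)
  · exact mul_ne_zero (gcd_ne_zero' hT _) (gcd_ne_zero' hT _)

lemma gam_le_T {T : (ZMod p)[X]} (hT : T ≠ 0) (a : ℤ[X]) : gam T a ≤ T.natDegree :=
  Polynomial.natDegree_le_of_dvd (EuclideanDomain.gcd_dvd_right _ _) hT

lemma NoCyc.of_mul_left {a b : ℤ[X]} (h : NoCyc (a * b)) : NoCyc a := by
  intro z hz
  apply h z
  rw [Polynomial.map_mul, Polynomial.eval_mul, hz, zero_mul]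

lemma NoCyc.of_mul_right {a b : ℤ[X]} (h : NoCyc (a * b)) : NoCyc b := by
  intro z hz
  apply h z
  rw [Polynomial.map_mul, Polynomial.eval_mul, hz, mul_zero]

lemma NoCyc.ne_zero {a : ℤ[X]} (h : NoCyc a) : a ≠ 0 := by
  rintro rfl
  exact (h 0 (by simp)).1 rfl

lemma one_le_MZ' {a : ℤ[X]} (h : a ≠ 0) : 1 ≤ MZ a := one_le_mahlerMeasure_of_ne_zero h

lemma MZ_mul (a b : ℤ[X]) : MZ (a * b) = MZ a * MZ b := by
  rw [MZ, Polynomial.map_mul, mahlerMeasure_mul]; rfl

lemma MZ_neg (a : ℤ[X]) : MZ (-a) = MZ a := by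
  rw [show -a = C (-1) * a by simp, MZ_mul]
  have : MZ (C (-1)) = 1 := by
    rw [MZ]; simp only [Polynomial.map_C]
    rw [mahlerMeasure_const]; simp
  rw [this, one_mul]

lemma lead_le_MZ (a : ℤ[X]) : ((|a.leadingCoeff| : ℤ) : ℝ) ≤ MZ a := by
  have h := leadingCoeff_le_mahlerMeasure (a.map (Int.castRingHom ℂ))
  rw [Polynomial.leadingCoeff_map_of_injective (RingHom.injective_int _)] at h
  rw [Int.cast_abs]
  simpa [MZ] using h

/-- the linear inequality, proved by induction on the factorisation -/
lemma linear_ineq (N t : ℕ) (ht : 2 ≤ t) :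
    ∃ B : ℝ, 0 < B ∧ ∀ (p : ℕ) [Fact p.Prime] (T : (ZMod p)[X]), T ≠ 0 → T.support.card ≤ N →
      ∀ f : ℤ[X], NoCyc f →
        (gam T f : ℝ) ≤ 3 / t * f.natDegree + B * (T.natDegree * Real.log (MZ f)) := by
  obtain ⟨A, hA1, hA⟩ := irr_uniform N t ht
  have hlog2 : 0 < Real.log 2 := Real.log_pos (by norm_num)
  have hA1' : (1 : ℝ) ≤ (A : ℝ) := by exact_mod_cast hA1
  have hB : 0 < (A : ℝ) / Real.log 2 := by positivity
  have htpos : (0 : ℝ) < (t : ℝ) := by
    have : 0 < t := by omega
    exact_mod_cast this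
  refine ⟨(A : ℝ) / Real.log 2, hB, ?_⟩
  intro p hp T hT hN f
  -- auxiliary: the monic irreducible case
  have hmonic : ∀ f : ℤ[X], f.Monic → Irreducible f → NoCyc f →
      (gam T f : ℝ) ≤ 3 / t * f.natDegree + (A : ℝ) / Real.log 2 * (T.natDegree * Real.log (MZ f)) := by
    intro f hf hirr hcyc
    have hMpos : 0 < MZ f := lt_of_lt_of_le one_pos (one_le_MZ' hf.ne_zero)
    have hlogM : 0 ≤ Real.log (MZ f) := Real.log_nonneg (one_le_MZ' hf.ne_zero)
    have hterm : 0 ≤ (A : ℝ) / Real.log 2 * (T.natDegree * Real.log (MZ f)) := by positivity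
    by_cases hc : 3 * f.natDegree ≤ t * gam T f
    · have h1 := hA p f T (EuclideanDomain.gcd (red p f) T) hf hirr hcyc hT hN
        (EuclideanDomain.gcd_dvd_right _ _) (EuclideanDomain.gcd_dvd_left _ _) hc
      have h2 : (f.natDegree : ℝ) * Real.log 2 ≤ ((A * T.natDegree : ℕ) : ℝ) * Real.log (MZ f) := by
        have := Real.log_le_log (by positivity) h1
        rwa [Real.log_pow, Real.log_pow] at this
      have h3 : (gam T f : ℝ) ≤ f.natDegree := by
        have : gam T f ≤ f.natDegree := by
          rw [← natDegree_red (p := p) hf]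
          exact Polynomial.natDegree_le_of_dvd (EuclideanDomain.gcd_dvd_left _ _)
            (hf.map _).ne_zero
        exact_mod_cast this
      have h4 : (f.natDegree : ℝ) ≤ (A : ℝ) / Real.log 2 * (T.natDegree * Real.log (MZ f)) := by
        rw [div_mul_eq_mul_div, le_div_iff₀ hlog2]
        push_cast at h2
        linarith
      have h5 : 0 ≤ 3 / (t : ℝ) * f.natDegree := by positivity
      linarith
    · push Not at hc
      have h1 : (t : ℝ) * gam T f ≤ 3 * f.natDegree := by exact_mod_cast hc.le
      have h2 : (gam T f : ℝ) ≤ 3 / t * f.natDegree := by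
        rw [div_mul_eq_mul_div, le_div_iff₀ htpos]
        linarith
      linarith
  induction f using WfDvdMonoid.induction_on_irreducible with
  | zero => intro h; exact absurd rfl h.ne_zero
  | unit u hu =>
    intro hcyc
    have h1 : gam T u = 0 := by
      unfold gam
      have h2 : IsUnit (red p u) := hu.map (red p)
      have h3 : IsUnit (EuclideanDomain.gcd (red p u) T) :=
        isUnit_of_dvd_unit (EuclideanDomain.gcd_dvd_left _ _) h2
      exact Polynomial.natDegree_eq_zero_of_isUnit h3
    rw [h1]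
    have hlogM : 0 ≤ Real.log (MZ u) := Real.log_nonneg (one_le_MZ' hcyc.ne_zero)
    push_cast
    positivity
  | mul a i ha hi ih =>
    intro hcyc
    have hca := ih hcyc.of_mul_right
    have hci := hcyc.of_mul_left
    have hi0 := hci.ne_zero
    have h1 : (gam T (i * a) : ℝ) ≤ gam T i + gam T a := by exact_mod_cast gam_mul hT i a
    have h2 : ((i * a).natDegree : ℝ) = i.natDegree + a.natDegree := by
      rw [Polynomial.natDegree_mul hi0 ha]; push_cast; ring
    have h3 : Real.log (MZ (i * a)) = Real.log (MZ i) + Real.log (MZ a) := by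
      rw [MZ_mul, Real.log_mul]
      · exact (lt_of_lt_of_le one_pos (one_le_MZ' hi0)).ne'
      · exact (lt_of_lt_of_le one_pos (one_le_MZ' ha)).ne'
    have h4 : (gam T i : ℝ) ≤ 3 / t * i.natDegree +
        (A : ℝ) / Real.log 2 * (T.natDegree * Real.log (MZ i)) := by
      by_cases hl : |i.leadingCoeff| ≤ 1
      · have hl1 : i.leadingCoeff = 1 ∨ i.leadingCoeff = -1 := by
          have h0 : i.leadingCoeff ≠ 0 := leadingCoeff_ne_zero.mpr hi0
          rcases abs_le.1 hl with ⟨h5, h6⟩
          omega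
        rcases hl1 with h5 | h5
        · exact hmonic i h5 hi hci
        · have hneg : (-i).Monic := by rw [Polynomial.Monic, Polynomial.leadingCoeff_neg, h5]; simp
          have hcneg : NoCyc (-i) := by
            intro z hz
            apply hci z
            simpa using hz
          have h6 := hmonic (-i) hneg ((Associated.neg_left (Associated.refl i)).symm.irreducible hi) hcneg
          have h7 : gam T (-i) = gam T i := by
            unfold gam
            rw [map_neg]
            apply le_antisymm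
            · apply Polynomial.natDegree_le_of_dvd _ (gcd_ne_zero' hT _)
              exact EuclideanDomain.dvd_gcd ((dvd_neg).1 (EuclideanDomain.gcd_dvd_left _ _))
                (EuclideanDomain.gcd_dvd_right _ _)
            · apply Polynomial.natDegree_le_of_dvd _ (gcd_ne_zero' hT _)
              exact EuclideanDomain.dvd_gcd ((dvd_neg).2 (EuclideanDomain.gcd_dvd_left _ _))
                (EuclideanDomain.gcd_dvd_right _ _)
          rw [h7, Polynomial.natDegree_neg, MZ_neg] at h6
          exact h6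
      · push Not at hl
        have h5 : (2 : ℝ) ≤ MZ i := by
          refine le_trans ?_ (lead_le_MZ i)
          exact_mod_cast hl
        have h6 : Real.log 2 ≤ Real.log (MZ i) := Real.log_le_log (by norm_num) h5
        have h7 : (gam T i : ℝ) ≤ T.natDegree := by exact_mod_cast gam_le_T hT i
        have h8 : (T.natDegree : ℝ) ≤ (A : ℝ) / Real.log 2 * (T.natDegree * Real.log (MZ i)) := by
          rw [div_mul_eq_mul_div, le_div_iff₀ hlog2]
          have h9 : (0 : ℝ) ≤ (T.natDegree : ℝ) := by positivity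
          calc (T.natDegree : ℝ) * Real.log 2 ≤ T.natDegree * Real.log (MZ i) := by gcongr
            _ = 1 * (T.natDegree * Real.log (MZ i)) := by ring
            _ ≤ A * (T.natDegree * Real.log (MZ i)) := by
              have h10 : (0 : ℝ) ≤ T.natDegree * Real.log (MZ i) := by
                apply mul_nonneg h9; linarith
              exact mul_le_mul_of_nonneg_right hA1' h10
        have h9 : 0 ≤ 3 / (t : ℝ) * i.natDegree := by positivity
        linarith
    rw [h2, h3]
    have e1 : 3 / (t : ℝ) * (i.natDegree + a.natDegree) +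
        (A : ℝ) / Real.log 2 * (T.natDegree * (Real.log (MZ i) + Real.log (MZ a))) =
        (3 / t * i.natDegree + (A : ℝ) / Real.log 2 * (T.natDegree * Real.log (MZ i))) +
        (3 / t * a.natDegree + (A : ℝ) / Real.log 2 * (T.natDegree * Real.log (MZ a))) := by ring
    rw [e1]
    linarith

/-- the main theorem -/
theorem main (N : ℕ) (ε : ℝ) (hε : 0 < ε) :
    ∃ μ : ℝ, 1 < μ ∧ ∀ (p : ℕ) [Fact p.Prime] (f : ℤ[X]) (T g : (ZMod p)[X]), NoCyc f →
      T ≠ 0 → T.support.card ≤ N → g ∣ T → g ∣ red p f → ε * f.natDegree ≤ g.natDegree →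
      μ ^ f.natDegree ≤ (MZ f) ^ T.natDegree := by
  obtain ⟨t, ht⟩ := exists_nat_ge (max 2 (6 / ε))
  have ht2 : 2 ≤ t := by exact_mod_cast (le_max_left _ _).trans ht
  have ht6 : 6 / ε ≤ t := (le_max_right _ _).trans ht
  obtain ⟨B, hB, hmain⟩ := linear_ineq N t ht2
  refine ⟨Real.exp (ε / (2 * B)), by rw [Real.one_lt_exp_iff]; positivity, ?_⟩
  intro p hp f T g hcyc hT hN hgT hgf hdeg
  have htpos : (0 : ℝ) < (t : ℝ) := by
    have : 0 < t := by omega
    exact_mod_cast this
  have h1 := hmain p T hT hN f hcyc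
  have h2 : (g.natDegree : ℝ) ≤ gam T f := by
    have : g.natDegree ≤ gam T f :=
      Polynomial.natDegree_le_of_dvd (EuclideanDomain.dvd_gcd hgf hgT) (gcd_ne_zero' hT _)
    exact_mod_cast this
  have h3 : 3 / (t : ℝ) ≤ ε / 2 := by
    rw [div_le_div_iff₀ htpos (by norm_num)]
    rw [div_le_iff₀ hε] at ht6
    linarith
  have h4 : 3 / (t : ℝ) * f.natDegree ≤ ε / 2 * f.natDegree := by gcongr
  have h5 : ε / 2 * f.natDegree ≤ B * (T.natDegree * Real.log (MZ f)) := by linarith
  have h6 : ε / (2 * B) * f.natDegree ≤ T.natDegree * Real.log (MZ f) := by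
    have h7 : ε / (2 * B) * f.natDegree = (ε / 2 * f.natDegree) / B := by field_simp
    rw [h7, div_le_iff₀ hB]
    linarith
  have hMpos : 0 < MZ f := lt_of_lt_of_le one_pos (one_le_MZ' hcyc.ne_zero)
  calc Real.exp (ε / (2 * B)) ^ f.natDegree = Real.exp (ε / (2 * B) * f.natDegree) := by
        rw [← Real.exp_nat_mul]; ring_nf
    _ ≤ Real.exp (T.natDegree * Real.log (MZ f)) := Real.exp_le_exp.mpr h6
    _ = (MZ f) ^ T.natDegree := by
        rw [Real.exp_nat_mul, Real.exp_log hMpos]

end Pool.Agent.H338R2
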