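import Mathlib
import Pool.Agent.H338R2.FourD
import Pool.Agent.H338R2.General

set_option autoImplicit false

open Polynomial

namespace Pool.Agent.H338R2

/-- self-reciprocal sparse multiples -/
lemma recip_case {p : ℕ} [hp : Fact p.Prime] {f : ℤ[X]} (hf : f.Monic) (hirr : Irreducible f)
    (hc : NoCyc f) {T : (ZMod p)[X]} (hT0 : T ≠ 0) (hrev : T.reverse = T ∨ T.reverse = -T)
    (hcard : T.support.card ≤ 4) (hdvd : red p f ∣ T) :
    (2 : ℝ) ^ f.natDegree ≤ (MZ f) ^ (4 * T.natDegree) := by
  classical
  have hpp := hp.out
  have hM1 := one_le_MZ hf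
  have hd1 : 0 < f.natDegree := hf.natDegree_pos_of_not_isUnit hirr.not_isUnit
  set e := T.natDegree with he
  have he1 : 1 ≤ e := by
    have h1 := Polynomial.natDegree_le_of_dvd hdvd hT0
    have h2 : (red p f).natDegree = f.natDegree := by
      show (f.map (Int.castRingHom (ZMod p))).natDegree = _
      exact hf.natDegree_map _
    omega
  obtain ⟨ε, hε, hrev'⟩ : ∃ ε : ℤ, (ε = 1 ∨ ε = -1) ∧ T.reverse = C (ε : ZMod p) * T := by
    rcases hrev with h | h
    · exact ⟨1, Or.inl rfl, by rw [h]; simp⟩
    · exact ⟨-1, Or.inr rfl, by rw [h]; simp⟩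
  have hεε : (ε : ZMod p) * ε = 1 := by
    rcases hε with rfl | rfl <;> simp
  have hco : ∀ i, i ≤ e → T.coeff (e - i) = ε * T.coeff i := by
    intro i hi
    have h1 := congrArg (fun q => Polynomial.coeff q i) hrev'
    simp only [Polynomial.coeff_reverse, Polynomial.coeff_C_mul] at h1
    rw [← he, Polynomial.revAt_le hi] at h1
    exact h1
  have hte : T.coeff e ≠ 0 := by
    rw [he]; exact Polynomial.leadingCoeff_ne_zero.2 hT0
  have hte0 : T.coeff e = ε * T.coeff 0 := by
    have := hco 0 (Nat.zero_le _)
    rwa [Nat.sub_zero] at this
  have ht0 : T.coeff 0 ≠ 0 := by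
    intro h
    rw [h, mul_zero] at hte0
    exact hte hte0
  have hbig : ∀ i, e < i → T.coeff i = 0 := fun i hi =>
    Polynomial.coeff_eq_zero_of_natDegree_lt hi
  have h0s : 0 ∈ T.support := Polynomial.mem_support_iff.2 ht0
  have hes : e ∈ T.support := Polynomial.mem_support_iff.2 hte
  set u := (T.coeff 0)⁻¹ with hu
  have hu0 : u * T.coeff 0 = 1 := inv_mul_cancel₀ ht0
  have hune : u ≠ 0 := inv_ne_zero ht0
  have hmemJ : ∀ W : ℤ[X], red p W = C u * T → W ∈ JJ p f := by
    intro W hW
    have : Fact (1 < p) := ⟨hpp.one_lt⟩
    apply mem_JJ_of_dvd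
    rw [hW]
    exact Dvd.dvd.mul_left hdvd _
  by_cases h4 : ∃ i ∈ T.support, i ≠ 0 ∧ i ≠ e ∧ 2 * i ≠ e
  · -- four terms
    obtain ⟨i, his, hi0, hie, hi2⟩ := h4
    have hile : i ≤ e := by
      by_contra h
      exact Polynomial.mem_support_iff.1 his (hbig i (by omega))
    have hi's : e - i ∈ T.support := by
      rw [Polynomial.mem_support_iff, hco i hile]
      apply mul_ne_zero _ (Polynomial.mem_support_iff.1 his)
      intro h
      rw [h, zero_mul] at hεε
      exact zero_ne_one hεε
    obtain ⟨k, l, hk1, hkl, hkle, hks, hls⟩ : ∃ k l : ℕ, 1 ≤ k ∧ k < l ∧ k + l = e ∧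
        k ∈ T.support ∧ l ∈ T.support := by
      rcases Nat.lt_or_ge (2 * i) e with h | h
      · exact ⟨i, e - i, by omega, by omega, by omega, his, hi's⟩
      · exact ⟨e - i, i, by omega, by omega, by omega, hi's, his⟩
    have hsupp : ({0, k, l, e} : Finset ℕ) = T.support := by
      apply Finset.eq_of_subset_of_card_le
      · intro x hx
        simp only [Finset.mem_insert, Finset.mem_singleton] at hx
        rcases hx with rfl | rfl | rfl | rfl
        · exact h0s
        · exact hks
        · exact hls
        · exact hes
      · refine hcard.trans (le_of_eq ?_)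
        rw [Finset.card_insert_of_notMem, Finset.card_insert_of_notMem,
          Finset.card_insert_of_notMem, Finset.card_singleton]
        · simp only [Finset.mem_singleton]; omega
        · simp only [Finset.mem_insert, Finset.mem_singleton]; omega
        · simp only [Finset.mem_insert, Finset.mem_singleton]; omega
    obtain ⟨A, hA⟩ := ZMod.intCast_surjective (u * T.coeff k)
    have hl : T.coeff l = ε * T.coeff k := by
      have := hco k (by omega)
      rwa [show e - k = l by omega] at this
    have hW : red p (TT 1 A ε k l) = C u * T := by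
      have hred : red p (TT 1 A ε k l) = C 1 + C (A : ZMod p) * X ^ k +
          C ((A : ZMod p) * ε) * X ^ l + C (ε : ZMod p) * X ^ (k + l) := by simp [TT]
      rw [hred]
      ext j
      simp only [Polynomial.coeff_add, Polynomial.coeff_C_mul, Polynomial.coeff_X_pow,
        Polynomial.coeff_C]
      by_cases hj : j ∈ T.support
      · rw [← hsupp] at hj
        simp only [Finset.mem_insert, Finset.mem_singleton] at hj
        rcases hj with rfl | rfl | rfl | rfl
        · rw [if_pos rfl, if_neg (by omega), if_neg (by omega), if_neg (by omega), hu0]; ring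
        · rw [if_neg (by omega), if_pos rfl, if_neg (by omega), if_neg (by omega), hA]; ring
        · rw [if_neg (by omega), if_neg (by omega), if_pos rfl, if_neg (by omega), hA, hl]; ring
        · rw [if_neg (by omega), if_neg (by omega), if_neg (by omega), if_pos (by omega), hte0]
          linear_combination (- (ε : ZMod p)) * hu0
      · have hj' := hj
        rw [← hsupp] at hj'
        simp only [Finset.mem_insert, Finset.mem_singleton, not_or] at hj'
        rw [Polynomial.notMem_support_iff] at hj
        rw [if_neg (by omega), if_neg (by omega), if_neg (by omega), if_neg (by omega), hj]; ring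
    have hAp : ¬ (p : ℤ) ∣ A := by
      intro h
      rw [← ZMod.intCast_zmod_eq_zero_iff_dvd] at h
      rw [h] at hA
      rcases mul_eq_zero.1 hA.symm with h' | h'
      · exact hune h'
      · exact Polynomial.mem_support_iff.1 hks h'
    have := four_terms hpp hf hirr hc hk1 hkl hε hAp (hmemJ _ hW)
    rwa [hkle] at this
  · push Not at h4
    by_cases h3 : ∃ n ∈ T.support, n ≠ 0 ∧ n ≠ e
    · obtain ⟨n, hns, hn0, hne⟩ := h3
      have h2n : 2 * n = e := h4 n hns hn0 hne
      have hsupp : ∀ j ∈ T.support, j = 0 ∨ j = n ∨ j = e := by
        intro j hj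
        by_cases hj0 : j = 0
        · exact Or.inl hj0
        by_cases hje : j = e
        · exact Or.inr (Or.inr hje)
        have := h4 j hj hj0 hje
        exact Or.inr (Or.inl (by omega))
      obtain ⟨A, hA⟩ := ZMod.intCast_surjective (u * T.coeff n)
      have hεn : T.coeff n = ε * T.coeff n := by
        have := hco n (by omega)
        rwa [show e - n = n by omega] at this
      have hε1 : (ε : ZMod p) = 1 := by
        have h5 : ((ε : ZMod p) - 1) * T.coeff n = 0 := by rw [sub_mul, ← hεn]; ring
        rcases mul_eq_zero.1 h5 with h6 | h6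
        · exact sub_eq_zero.1 h6
        · exact absurd h6 (Polynomial.mem_support_iff.1 hns)
      have hW : red p (T3 A n) = C u * T := by
        ext j
        rw [T3]
        simp only [map_add, map_mul, map_pow, map_one, Polynomial.coe_mapRingHom, Polynomial.map_C,
          Polynomial.map_X, Polynomial.coeff_add, Polynomial.coeff_C_mul, Polynomial.coeff_X_pow,
          Polynomial.coeff_one]
        simp only [eq_intCast]
        by_cases hj : j ∈ T.support
        · rcases hsupp j hj with rfl | rfl | rfl
          · rw [if_pos rfl, if_neg (by omega), if_neg (by omega), hu0]; ring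
          · rw [if_neg (by omega), if_pos rfl, if_neg (by omega), hA]; ring
          · rw [if_neg (by omega), if_neg (by omega), if_pos (by omega), hte0, hε1]
            linear_combination - hu0
        · have h6 : j ≠ 0 := by rintro rfl; exact hj h0s
          have h7 : j ≠ n := by rintro rfl; exact hj hns
          have h8 : j ≠ e := by rintro rfl; exact hj hes
          rw [Polynomial.notMem_support_iff] at hj
          rw [if_neg (by omega), if_neg (by omega), if_neg (by omega), hj]; ring
      have hAp : ¬ (p : ℤ) ∣ A := by
        intro h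
        rw [← ZMod.intCast_zmod_eq_zero_iff_dvd] at h
        rw [h] at hA
        rcases mul_eq_zero.1 hA.symm with h' | h'
        · exact hune h'
        · exact Polynomial.mem_support_iff.1 hns h'
      have := three_terms hpp hf hirr hc (by omega) hAp (hmemJ _ hW)
      rwa [show 8 * n = 4 * e by omega] at this
    · push Not at h3
      have hW : red p (X ^ 0 + C ε * X ^ e) = C u * T := by
        ext j
        simp only [map_add, map_mul, map_pow, Polynomial.coe_mapRingHom, Polynomial.map_C,
          Polynomial.map_X, Polynomial.coeff_add, Polynomial.coeff_C_mul, Polynomial.coeff_X_pow]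
        simp only [eq_intCast]
        by_cases hj : j ∈ T.support
        · by_cases hj0 : j = 0
          · subst hj0
            rw [if_pos rfl, if_neg (by omega), hu0]; ring
          · have hje := h3 j hj hj0
            subst hje
            rw [if_neg (by omega), if_pos rfl, hte0]
            linear_combination (- (ε : ZMod p)) * hu0
        · have h6 : j ≠ 0 := by rintro rfl; exact hj h0s
          have h8 : j ≠ e := by rintro rfl; exact hj hes
          rw [Polynomial.notMem_support_iff] at hj
          rw [if_neg (by omega), if_neg (by omega), hj]; ring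
      refine (two_terms hpp hf hirr hc (by omega) hε (hmemJ _ hW)).trans ?_
      exact pow_le_pow_right₀ hM1 (by omega)

/-- nonreciprocal factors have large measure -/
lemma two_le_of_nonrecip {f : ℤ[X]} (hirr : Irreducible f) (hc : NoCyc f)
    (hnr : ¬ (f.reverse = f ∨ f.reverse = -f)) : 2 ≤ (MZ f) ^ 4 := by
  have hf0 := hc.ne_zero
  by_cases hl : |f.leadingCoeff| ≤ 1
  · have hl1 : f.leadingCoeff = 1 ∨ f.leadingCoeff = -1 := by
      have h0 : f.leadingCoeff ≠ 0 := leadingCoeff_ne_zero.mpr hf0
      rcases abs_le.1 hl with ⟨h5, h6⟩
      omega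
    -- monic case
    have hmonic : ∀ g : ℤ[X], g.Monic → NoCyc g → ¬ (g.reverse = g ∨ g.reverse = -g) →
        2 ≤ (MZ g) ^ 4 := by
      intro g hg hcg hnrg
      have hM1 := one_le_MZ hg
      have hg0 : g.coeff 0 ≠ 0 := by
        intro h
        have h1 : (g.map (Int.castRingHom ℂ)).eval 0 = 0 := by
          rw [← Polynomial.coeff_zero_eq_eval_zero, Polynomial.coeff_map, h, map_zero]
        exact (hcg 0 h1).1 rfl
      by_cases h1 : |g.coeff 0| = 1
      · have h2 : g ≠ C (g.coeff 0) * g.reverse := by
          intro h3
          apply hnrg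
          rcases (abs_eq (by norm_num : (0 : ℤ) ≤ 1)).1 h1 with h4 | h4
          · left; rw [h4, C_1, one_mul] at h3; exact h3.symm
          · right
            rw [h4] at h3
            have h5 : g = - g.reverse := by
              calc g = C (-1) * g.reverse := h3
                _ = _ := by simp
            calc g.reverse = - - g.reverse := (neg_neg _).symm
              _ = - g := by rw [← h5]
        have h3 := smyth_lite hg h1 h2
        have h4 : (1.28 : ℝ) ≤ MZ g := by
          by_contra hcon
          push Not at hcon
          nlinarith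
        calc (2 : ℝ) ≤ (1.28 : ℝ) ^ 4 := by norm_num
          _ ≤ _ := pow_le_pow_left₀ (by norm_num) h4 4
      · have h2 : 2 ≤ |g.coeff 0| := by
          have := Int.one_le_abs hg0
          omega
        have h3 : (2 : ℝ) ≤ MZ g := by
          have h5 := res_upper hg X 1 (by simp)
          have h7 : |((resultant g X g.natDegree 1 : ℤ) : ℝ)| = ((|g.coeff 0| : ℤ) : ℝ) := by
            have h8 : ((resultant g X g.natDegree 1 : ℤ) : ℂ) =
                ((g.map (Int.castRingHom ℂ)).roots.map (fun z => z)).prod := by
              rw [res_eq hg X 1 (by simp)]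
              simp
            have h9 : (g.map (Int.castRingHom ℂ)).coeff 0 =
                (-1) ^ g.natDegree * (g.map (Int.castRingHom ℂ)).roots.prod := by
              rw [← natDegree_mapC (f := g)]
              exact Polynomial.Splits.coeff_zero_eq_prod_roots_of_monic (IsAlgClosed.splits _) (hg.map _)
            have h10 : ‖((resultant g X g.natDegree 1 : ℤ) : ℂ)‖ = ‖((g.coeff 0 : ℤ) : ℂ)‖ := by
              rw [h8, Multiset.map_id']
              have h11 : ((g.coeff 0 : ℤ) : ℂ) = (g.map (Int.castRingHom ℂ)).coeff 0 := by
                rw [Polynomial.coeff_map]; simp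
              rw [h11, h9, norm_mul, norm_pow, norm_neg, norm_one, one_pow, one_mul]
            rw [Complex.norm_intCast, Complex.norm_intCast] at h10
            rw [h10, Int.cast_abs]
          have h8 : (len (X : ℤ[X]) : ℝ) = 1 := by
            have : len (X : ℤ[X]) = 1 := by
              rw [len, Polynomial.support_X]
              simp
            rw [this]; norm_num
          rw [h7, h8, one_pow, one_mul, pow_one] at h5
          refine le_trans ?_ h5
          exact_mod_cast h2
        calc (2 : ℝ) ≤ 2 ^ 4 := by norm_num
          _ ≤ _ := pow_le_pow_left₀ (by norm_num) h3 4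
    rcases hl1 with h5 | h5
    · exact hmonic f h5 hc hnr
    · have hneg : (-f).Monic := by rw [Polynomial.Monic, Polynomial.leadingCoeff_neg, h5]; simp
      have hcneg : NoCyc (-f) := by
        intro z hz
        apply hc z
        simpa using hz
      rw [← MZ_neg]
      apply hmonic (-f) hneg hcneg
      rw [Polynomial.reverse_neg]
      intro h
      apply hnr
      rcases h with h | h
      · exact Or.inl (neg_injective h)
      · right
        rw [neg_neg] at h
        exact neg_eq_iff_eq_neg.1 h
  · push Not at hl
    have h5 : (2 : ℝ) ≤ MZ f := by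
      refine le_trans ?_ (lead_le_MZ f)
      exact_mod_cast hl
    calc (2 : ℝ) ≤ 2 ^ 4 := by norm_num
      _ ≤ _ := pow_le_pow_left₀ (by norm_num) h5 4

end Pool.Agent.H338R2
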