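import Mathlib
import Pool.Agent.H338R2.FourE

set_option autoImplicit false

open Polynomial

namespace Pool.Agent.H338R2

lemma one_le_MZ_of_noCyc {f : ℤ[X]} (hc : NoCyc f) : 1 ≤ MZ f := one_le_MZ' hc.ne_zero

/-- if all irreducible factors are reciprocal up to sign then so is the polynomial, and its leading
coefficient is a unit -/
lemma all_recip {f : ℤ[X]} (hc : NoCyc f)
    (hall : ∀ i : ℤ[X], Irreducible i → i ∣ f → (i.reverse = i ∨ i.reverse = -i) ∧
      |i.leadingCoeff| = 1) :
    (f.reverse = f ∨ f.reverse = -f) ∧ |f.leadingCoeff| = 1 := by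
  suffices H : ∀ h : ℤ[X], h ∣ f → (h.reverse = h ∨ h.reverse = -h) ∧ |h.leadingCoeff| = 1 from
    H f dvd_rfl
  intro h
  induction h using WfDvdMonoid.induction_on_irreducible with
  | zero =>
    intro hd
    exact absurd (zero_dvd_iff.1 hd) hc.ne_zero
  | unit u hu =>
    intro _
    obtain ⟨r, hr, rfl⟩ := Polynomial.isUnit_iff.1 hu
    refine ⟨Or.inl (Polynomial.reverse_C r), ?_⟩
    rw [Polynomial.leadingCoeff_C]
    exact Int.isUnit_iff_abs_eq.1 hr
  | mul a i ha hi ih =>
    intro hd
    obtain ⟨h1, h2⟩ := ih ((Dvd.intro_left _ rfl).trans hd)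
    obtain ⟨h3, h4⟩ := hall i hi ((Dvd.intro _ rfl).trans hd)
    constructor
    · rw [Polynomial.reverse_mul_of_domain]
      rcases h3 with h3 | h3 <;> rcases h1 with h1 | h1 <;> rw [h3, h1]
      · exact Or.inl rfl
      · right; ring
      · right; ring
      · left; ring
    · rw [Polynomial.leadingCoeff_mul, abs_mul, h2, h4, mul_one]

lemma reverse_red {p : ℕ} [hp : Fact p.Prime] {f : ℤ[X]} (hl : |f.leadingCoeff| = 1) :
    (red p f).reverse = red p f.reverse ∧ (red p f).natDegree = f.natDegree ∧ red p f ≠ 0 := by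
  have h1 : (Int.castRingHom (ZMod p)) f.leadingCoeff ≠ 0 := by
    rcases (abs_eq (by norm_num : (0 : ℤ) ≤ 1)).1 hl with h | h <;> rw [h] <;> simp
  have h2 : (f.map (Int.castRingHom (ZMod p))).natDegree = f.natDegree :=
    Polynomial.natDegree_map_of_leadingCoeff_ne_zero _ h1
  refine ⟨?_, h2, ?_⟩
  · show (f.map (Int.castRingHom (ZMod p))).reverse = f.reverse.map (Int.castRingHom (ZMod p))
    ext n
    rw [Polynomial.coeff_reverse, Polynomial.coeff_map, Polynomial.coeff_map,
      Polynomial.coeff_reverse, h2]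
  · intro h0
    apply h1
    have h3 : (f.map (Int.castRingHom (ZMod p))).coeff f.natDegree = 0 := by
      rw [show f.map (Int.castRingHom (ZMod p)) = 0 from h0, Polynomial.coeff_zero]
    rw [Polynomial.coeff_map] at h3
    exact h3

/-- strong Lehmer bound for polynomials with at most four coefficients not divisible by `p` -/
theorem four_main (p : ℕ) [hp : Fact p.Prime] (f : ℤ[X]) (hc : NoCyc f) (Q : (ZMod p)[X])
    (hQ0 : Q ≠ 0) (hQ : Q.reverse = Q ∨ Q.reverse = -Q)
    (hcard : (Q * red p f).support.card ≤ 4) :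
    (2 : ℝ) ^ f.natDegree ≤ (MZ f) ^ (4 * (f.natDegree + Q.natDegree)) := by
  have hM1 := one_le_MZ_of_noCyc hc
  by_cases hbig : ∃ i : ℤ[X], Irreducible i ∧ i ∣ f ∧ 2 ≤ (MZ i) ^ 4
  · obtain ⟨i, hi, ⟨g, rfl⟩, h4⟩ := hbig
    have hg := one_le_MZ_of_noCyc hc.of_mul_right
    have hi1 := one_le_MZ_of_noCyc hc.of_mul_left
    have h5 : (2 : ℝ) ≤ (MZ (i * g)) ^ 4 := by
      rw [MZ_mul, mul_pow]
      have : 1 ≤ (MZ g) ^ 4 := one_le_pow₀ hg
      nlinarith [pow_nonneg (by linarith : (0 : ℝ) ≤ MZ i) 4]
    calc (2 : ℝ) ^ (i * g).natDegree ≤ ((MZ (i * g)) ^ 4) ^ (i * g).natDegree := by gcongr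
      _ = (MZ (i * g)) ^ (4 * (i * g).natDegree) := (pow_mul _ _ _).symm
      _ ≤ _ := pow_le_pow_right₀ hM1 (by omega)
  · push Not at hbig
    have hsub : ∀ {i : ℤ[X]}, i ∣ f → NoCyc i := by
      rintro i ⟨g, rfl⟩
      exact hc.of_mul_left
    have hall : ∀ i : ℤ[X], Irreducible i → i ∣ f → (i.reverse = i ∨ i.reverse = -i) ∧
        |i.leadingCoeff| = 1 := by
      intro i hi hd
      have hci := hsub hd
      have hlt := hbig i hi hd
      constructor
      · by_contra h
        exact absurd (two_le_of_nonrecip hi hci h) (not_le.2 hlt)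
      · have h0 : i.leadingCoeff ≠ 0 := leadingCoeff_ne_zero.mpr hci.ne_zero
        have h1 := Int.one_le_abs h0
        by_contra hne
        have h2 : 2 ≤ |i.leadingCoeff| := by omega
        have h3 : (2 : ℝ) ≤ MZ i := by
          refine le_trans ?_ (lead_le_MZ i)
          exact_mod_cast h2
        have h4 : (2 : ℝ) ≤ (MZ i) ^ 4 := by
          calc (2 : ℝ) ≤ 2 ^ 4 := by norm_num
            _ ≤ _ := pow_le_pow_left₀ (by norm_num) h3 4
        linarith
    obtain ⟨hfrev, hflead⟩ := all_recip hc hall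
    obtain ⟨hr1, hr2, hr3⟩ := reverse_red (p := p) hflead
    set T := Q * red p f with hT
    have hT0 : T ≠ 0 := mul_ne_zero hQ0 hr3
    have hTdeg : T.natDegree = f.natDegree + Q.natDegree := by
      rw [hT, Polynomial.natDegree_mul hQ0 hr3, hr2, add_comm]
    have hTrev : T.reverse = T ∨ T.reverse = -T := by
      rw [hT, Polynomial.reverse_mul_of_domain, hr1]
      rcases hQ with h | h <;> rcases hfrev with h' | h' <;> rw [h, h']
      · exact Or.inl rfl
      · right; rw [map_neg]; ring
      · right; ring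
      · left; rw [map_neg]; ring
    rw [← hTdeg]
    suffices H : ∀ h : ℤ[X], h ∣ f → (2 : ℝ) ^ h.natDegree ≤ (MZ h) ^ (4 * T.natDegree) from
      H f dvd_rfl
    intro h
    induction h using WfDvdMonoid.induction_on_irreducible with
    | zero =>
      intro hd
      exact absurd (zero_dvd_iff.1 hd) hc.ne_zero
    | unit u hu =>
      intro hd
      rw [Polynomial.natDegree_eq_zero_of_isUnit hu, pow_zero]
      exact one_le_pow₀ (one_le_MZ_of_noCyc (hsub hd))
    | mul a i ha hi ih =>
      intro hd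
      have hda : a ∣ f := (Dvd.intro_left _ rfl).trans hd
      have hdi : i ∣ f := (Dvd.intro _ rfl).trans hd
      have h1 := ih hda
      have hi0 := (hsub hdi).ne_zero
      have h2 : (2 : ℝ) ^ i.natDegree ≤ (MZ i) ^ (4 * T.natDegree) := by
        have hdvd : red p i ∣ T := by
          rw [hT]
          exact Dvd.dvd.mul_left (map_dvd (red p) hdi) _
        obtain ⟨-, hlead⟩ := hall i hi hdi
        rcases (abs_eq (by norm_num : (0 : ℤ) ≤ 1)).1 hlead with h5 | h5
        · exact recip_case h5 hi (hsub hdi) hT0 hTrev hcard hdvd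
        · have hneg : (-i).Monic := by rw [Polynomial.Monic, Polynomial.leadingCoeff_neg, h5]; simp
          have hcneg : NoCyc (-i) := by
            intro z hz
            apply hsub hdi z
            simpa using hz
          have h6 := recip_case hneg ((Associated.neg_left (Associated.refl i)).symm.irreducible hi)
            hcneg hT0 hTrev hcard (by rw [map_neg]; exact (neg_dvd).2 hdvd)
          rw [Polynomial.natDegree_neg, MZ_neg] at h6
          exact h6
      rw [Polynomial.natDegree_mul hi0 ha, pow_add, MZ_mul, mul_pow]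
      exact mul_le_mul h2 h1 (by positivity)
        (pow_nonneg (le_trans zero_le_one (one_le_MZ_of_noCyc (hsub hdi))) _)

end Pool.Agent.H338R2
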