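import Mathlib
import Pool.Agent.H338R2.IndexN

set_option autoImplicit false

open Polynomial

namespace Pool.Agent.H338R2

/-- core inequality for polynomials having a common factor with a polynomial in `x^m` modulo `n` -/
theorem powsub_core {n : ℕ} [hn : Fact (1 < n)] {f h g : ℤ[X]} (hf : f.Monic)
    (hirr : Irreducible f) (hh : h.Monic) (hg : g.Monic) (m : ℕ) (hm : 0 < m)
    (hgf : red n g ∣ red n f) (hgh : red n g ∣ red n (expand ℤ m h)) (s : Finset ℂ)
    (hs : ∀ w ∈ s, ∃ z : ℂ, (f.map (Int.castRingHom ℂ)).eval z = 0 ∧ z ^ m = w) (r B : ℕ)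
    (hB : n ^ (h.natDegree * (r * (r + 1) / 2)) < (B + 1) ^ s.card) :
    (n : ℝ) ^ (r * g.natDegree) ≤
      ((s.card : ℝ) * B) ^ f.natDegree * (MZ f) ^ (m * s.card) := by
  obtain ⟨H, hH0, hHJ, hHdeg, hHc⟩ := exists_small_deg (n := n) hh r s.card B hB
  have hspos : 0 < s.card := by
    rcases Nat.eq_zero_or_pos s.card with h0 | h0
    · rw [h0, Nat.cast_zero] at hHdeg
      have h1 : H = 0 := by
        rw [← Polynomial.degree_eq_bot]
        rw [Polynomial.degree_eq_natDegree hH0] at hHdeg
        exact absurd hHdeg (by simp)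
      exact absurd h1 hH0
    · exact h0
  -- f does not divide H(x^m)
  have hnd : ¬ f ∣ expand ℤ m H := by
    rintro ⟨u, hu⟩
    have hvan : ∀ w ∈ s, (H.map (Int.castRingHom ℂ)).eval w = 0 := by
      intro w hw
      obtain ⟨z, hz, rfl⟩ := hs w hw
      rw [← Polynomial.expand_eval, ← Polynomial.map_expand, hu, Polynomial.map_mul,
        Polynomial.eval_mul, hz, zero_mul]
    have hH0' : H.map (Int.castRingHom ℂ) ≠ 0 := by
      rw [Ne, Polynomial.map_eq_zero_iff (RingHom.injective_int _)]
      exact hH0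
    have h1 : s.card ≤ (H.map (Int.castRingHom ℂ)).natDegree := by
      apply Polynomial.card_le_degree_of_subset_roots
      intro w hw
      rw [Polynomial.mem_roots hH0']
      exact hvan w hw
    rw [natDegree_mapC] at h1
    rw [Polynomial.degree_eq_natDegree hH0, Nat.cast_lt] at hHdeg
    omega
  have hGJ : expand ℤ m H ∈ JJ n g ^ r := by
    have h1 : JJ n h ≤ Ideal.comap (expand ℤ m).toRingHom (JJ n g) := by
      apply sup_le
      · rw [Ideal.span_singleton_le_iff_mem, Ideal.mem_comap]
        have : (expand ℤ m).toRingHom (C (n : ℤ)) = C (n : ℤ) := Polynomial.expand_C _ _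
        rw [this]
        exact Ideal.mem_sup_left (Ideal.mem_span_singleton_self _)
      · rw [Ideal.span_singleton_le_iff_mem, Ideal.mem_comap]
        exact mem_JJ_of_dvd hgh
    have h2 : JJ n h ^ r ≤ Ideal.comap (expand ℤ m).toRingHom (JJ n g ^ r) :=
      (Ideal.pow_right_mono h1 r).trans (Ideal.le_comap_pow _ _)
    exact h2 hHJ
  have hfJ : f ∈ JJ n g := mem_JJ_of_dvd hgf
  have hres : resultant f (expand ℤ m H) ≠ 0 := res_ne_zero hf hirr hnd _ le_rfl
  have hlow := res_lower_n (n := n) hg hf hfJ r hGJ hres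
  have hup := res_upper hf (expand ℤ m H) _ le_rfl
  rw [len_expand m hm] at hup
  have hlen : (len H : ℝ) ≤ (s.card : ℝ) * B := by
    have h1 : len H ≤ (s.card : ℤ) * (B : ℤ) := by
      have hsub : H.support ⊆ Finset.range s.card := by
        intro i hi
        rw [Finset.mem_range]
        have h2 := Polynomial.le_natDegree_of_mem_supp i hi
        rw [Polynomial.degree_eq_natDegree hH0, Nat.cast_lt] at hHdeg
        omega
      rw [len]
      calc ∑ i ∈ H.support, |H.coeff i| ≤ ∑ i ∈ Finset.range s.card, |H.coeff i| :=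
            Finset.sum_le_sum_of_subset_of_nonneg hsub (fun _ _ _ => abs_nonneg _)
        _ ≤ (Finset.range s.card).card • (B : ℤ) := Finset.sum_le_card_nsmul _ _ _ (fun i _ => hHc i)
        _ = (s.card : ℤ) * (B : ℤ) := by simp
    exact_mod_cast h1
  have h1 : (n : ℝ) ^ (r * g.natDegree) ≤ |((resultant f (expand ℤ m H) : ℤ) : ℝ)| := by
    have : ((n ^ (r * g.natDegree) : ℕ) : ℝ) ≤
        (((resultant f (expand ℤ m H)).natAbs : ℕ) : ℝ) := by exact_mod_cast hlow
    rw [Nat.cast_natAbs, Int.cast_abs] at this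
    push_cast at this
    exact this
  have hM1 := one_le_MZ hf
  have hl0 : (0 : ℝ) ≤ (len H : ℝ) := by exact_mod_cast len_nonneg H
  refine h1.trans (hup.trans ?_)
  have hdeg : (expand ℤ m H).natDegree ≤ m * s.card := by
    rw [Polynomial.natDegree_expand]
    rw [Polynomial.degree_eq_natDegree hH0, Nat.cast_lt] at hHdeg
    nlinarith
  gcongr

end Pool.Agent.H338R2
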